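import Pool.Agent.H695R3.PP.Stmts

/-!
# Averages: the absolute difference, shifts, and the key identity
-/

set_option autoImplicit false

open MeasureTheory Set
open scoped ENNReal

namespace Pool.Agent.PP27.Base333

open Pool.Agent.H695R3.PP

/-- absolute difference -/
noncomputable def df (a b : ℝ≥0∞) : ℝ≥0∞ := (a - b) + (b - a)

theorem df_comm (a b : ℝ≥0∞) : df a b = df b a := by
  unfold df; rw [add_comm]

theorem df_sq (a b : ℝ≥0∞) : a ^ 2 + b ^ 2 = 2 * (a * b) + df a b ^ 2 := by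
  wlog h : a ≤ b generalizing a b with H
  · rw [add_comm (a ^ 2), mul_comm a b, df_comm]
    exact H b a (le_of_not_ge h)
  rcases eq_or_ne a ⊤ with rfl | ha
  · have hb : b = ⊤ := top_le_iff.mp h
    subst hb
    simp
  · obtain ⟨d, rfl⟩ := exists_add_of_le h
    have h1 : df a (a + d) = d := by
      unfold df
      rw [tsub_eq_zero_of_le h, zero_add, ENNReal.add_sub_cancel_left ha]
    rw [h1]
    ring

theorem two_mul_le (a b : ℝ≥0∞) : 2 * (a * b) ≤ a ^ 2 + b ^ 2 := by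
  rw [df_sq]; exact le_self_add

theorem add_sq_le (a b : ℝ≥0∞) : (a + b) ^ 2 ≤ 2 * a ^ 2 + 2 * b ^ 2 := by
  calc (a + b) ^ 2 = a ^ 2 + b ^ 2 + 2 * (a * b) := by ring
    _ ≤ a ^ 2 + b ^ 2 + (a ^ 2 + b ^ 2) := by gcongr; exact two_mul_le a b
    _ = _ := by ring

theorem df_triangle (a b c : ℝ≥0∞) : df a c ≤ df a b + df b c := by
  unfold df
  calc (a - c) + (c - a) ≤ ((a - b) + (b - c)) + ((c - b) + (b - a)) := by
        gcongr
        · exact tsub_le_tsub_add_tsub
        · exact tsub_le_tsub_add_tsub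
    _ = _ := by ring

theorem le_add_df (a b : ℝ≥0∞) : a ≤ b + df a b := by
  unfold df
  calc a ≤ b + (a - b) := le_add_tsub
    _ ≤ _ := by gcongr; exact le_self_add

@[fun_prop]
theorem measurable_df {X : Type*} [MeasurableSpace X] {f g : X → ℝ≥0∞} (hf : Measurable f)
    (hg : Measurable g) : Measurable fun x => df (f x) (g x) := by
  unfold df
  exact (hf.sub hg).add (hg.sub hf)

/-- the squared norm of the difference of `g` and its shift -/
noncomputable def D (g : ℝ → ℝ≥0∞) (h : ℝ) : ℝ≥0∞ := ∫⁻ x, df (g x) (g (x + h)) ^ 2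

variable {g : ℝ → ℝ≥0∞}

theorem measurable_D (hg : Measurable g) : Measurable (D g) := by
  unfold D
  apply Measurable.lintegral_prod_right'
    (f := fun p : ℝ × ℝ => df (g p.2) (g (p.2 + p.1)) ^ 2)
  fun_prop

theorem D_add (hg : Measurable g) (h h' : ℝ) : D g (h + h') ≤ 2 * D g h + 2 * D g h' := by
  unfold D
  calc ∫⁻ x, df (g x) (g (x + (h + h'))) ^ 2
      ≤ ∫⁻ x, (2 * df (g x) (g (x + h)) ^ 2 + 2 * df (g (x + h)) (g (x + h + h')) ^ 2) := by
        apply lintegral_mono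
        intro x
        refine le_trans ?_ (add_sq_le (df (g x) (g (x + h))) (df (g (x + h)) (g (x + h + h'))))
        have h1 := df_triangle (g x) (g (x + h)) (g (x + h + h'))
        rw [add_assoc x h h'] at h1 ⊢
        exact pow_le_pow_left' h1 2
    _ = (∫⁻ x, 2 * df (g x) (g (x + h)) ^ 2) +
        ∫⁻ x, 2 * df (g (x + h)) (g (x + h + h')) ^ 2 := by
        rw [lintegral_add_left (by fun_prop)]
    _ = _ := by
        rw [lintegral_const_mul _ (by fun_prop), lintegral_const_mul _ (by fun_prop)]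
        congr 2
        exact lintegral_add_right_eq_self (fun x => df (g x) (g (x + h')) ^ 2) h

theorem D_neg (h : ℝ) : D g (-h) = D g h := by
  unfold D
  rw [← lintegral_add_right_eq_self (fun x => df (g x) (g (x + -h)) ^ 2) h]
  apply lintegral_congr
  intro x
  rw [add_neg_cancel_right, df_comm]

theorem D_two (hg : Measurable g) (h : ℝ) : D g (2 * h) ≤ 4 * D g h := by
  rw [two_mul]
  refine (D_add hg h h).trans (le_of_eq ?_)
  ring

theorem D_pow (hg : Measurable g) (h : ℝ) (k : ℕ) : D g (2 ^ k * h) ≤ 4 ^ k * D g h := by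
  induction k with
  | zero => simp
  | succ k ih =>
    calc D g (2 ^ (k + 1) * h) = D g (2 * (2 ^ k * h)) := by congr 1; ring
      _ ≤ 4 * D g (2 ^ k * h) := D_two hg _
      _ ≤ 4 * (4 ^ k * D g h) := by gcongr
      _ = _ := by ring

/-- the double integral -/
noncomputable def W (g : ℝ → ℝ≥0∞) (ε : ℝ) : ℝ≥0∞ := ∫⁻ s, ∫⁻ t, D g (ε * (t - s)) ∂U ∂U

theorem swap3 (F : ℝ → ℝ → ℝ → ℝ≥0∞)
    (hF : Measurable (fun p : ℝ × ℝ × ℝ => F p.1 p.2.1 p.2.2)) :
    ∫⁻ x, ∫⁻ s, ∫⁻ t, F x s t ∂U ∂U = ∫⁻ s, ∫⁻ t, (∫⁻ x, F x s t) ∂U ∂U := by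
  rw [lintegral_lintegral_swap]
  · apply lintegral_congr
    intro s
    rw [lintegral_lintegral_swap]
    exact (hF.comp (by fun_prop : Measurable fun p : ℝ × ℝ => (p.1, s, p.2))).aemeasurable
  · apply Measurable.aemeasurable
    show Measurable fun p : ℝ × ℝ => ∫⁻ t, F p.1 p.2 t ∂U
    apply Measurable.lintegral_prod_right' (f := fun q : (ℝ × ℝ) × ℝ => F q.1.1 q.1.2 q.2)
    exact hF.comp (by fun_prop : Measurable fun q : (ℝ × ℝ) × ℝ => (q.1.1, q.1.2, q.2))

theorem sq_avg (hg : Measurable g) (ε x : ℝ) :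
    avg ε g x ^ 2 = ∫⁻ s, ∫⁻ t, g (x + ε * s) * g (x + ε * t) ∂U ∂U := by
  unfold avg
  rw [sq, ← lintegral_mul_const _ (by fun_prop)]
  apply lintegral_congr
  intro s
  rw [lintegral_const_mul _ (by fun_prop)]

theorem two_sq_avg (hg : Measurable g) (ε x : ℝ) :
    2 * avg ε g x ^ 2 + ∫⁻ s, ∫⁻ t, df (g (x + ε * s)) (g (x + ε * t)) ^ 2 ∂U ∂U =
      ∫⁻ s, ∫⁻ t, (g (x + ε * s) ^ 2 + g (x + ε * t) ^ 2) ∂U ∂U := by
  rw [sq_avg hg, ← lintegral_const_mul]
  swap
  · apply Measurable.lintegral_prod_right'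
      (f := fun p : ℝ × ℝ => g (x + ε * p.1) * g (x + ε * p.2))
    fun_prop
  rw [← lintegral_add_left]
  swap
  · apply Measurable.const_mul
    apply Measurable.lintegral_prod_right'
      (f := fun p : ℝ × ℝ => g (x + ε * p.1) * g (x + ε * p.2))
    fun_prop
  apply lintegral_congr
  intro s
  rw [← lintegral_const_mul _ (by fun_prop), ← lintegral_add_left (by fun_prop)]
  apply lintegral_congr
  intro t
  rw [df_sq]

theorem sum_sq (hg : Measurable g) (ε x : ℝ) :
    ∫⁻ s, ∫⁻ t, (g (x + ε * s) ^ 2 + g (x + ε * t) ^ 2) ∂U ∂U =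
      2 * ∫⁻ s, g (x + ε * s) ^ 2 ∂U := by
  have h1 : ∀ s, ∫⁻ t, (g (x + ε * s) ^ 2 + g (x + ε * t) ^ 2) ∂U =
      g (x + ε * s) ^ 2 + ∫⁻ t, g (x + ε * t) ^ 2 ∂U := by
    intro s
    rw [lintegral_add_left (by fun_prop), lintegral_const, measure_univ, mul_one]
  simp_rw [h1]
  rw [lintegral_add_left (by fun_prop), lintegral_const, measure_univ, mul_one, two_mul]

/-- Jensen -/
theorem sq_avg_le (hg : Measurable g) (ε x : ℝ) :
    avg ε g x ^ 2 ≤ ∫⁻ s, g (x + ε * s) ^ 2 ∂U := by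
  have h := two_sq_avg hg ε x
  rw [sum_sq hg] at h
  have h2 : 2 * avg ε g x ^ 2 ≤ 2 * ∫⁻ s, g (x + ε * s) ^ 2 ∂U := by
    rw [← h]; exact le_self_add
  exact (ENNReal.mul_le_mul_iff_right (by norm_num) (by norm_num)).mp h2

theorem measurable_avg (hg : Measurable g) (ε : ℝ) : Measurable (avg ε g) := by
  unfold avg
  apply Measurable.lintegral_prod_right' (f := fun p : ℝ × ℝ => g (p.1 + ε * p.2))
  fun_prop

/-- The key identity. -/
theorem key (hg : Measurable g) (ε : ℝ) :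
    2 * nsqL g = 2 * nsqL (avg ε g) + W g ε := by
  have hm := measurable_avg hg ε
  have h0 : ∫⁻ x, ∫⁻ s, ∫⁻ t, df (g (x + ε * s)) (g (x + ε * t)) ^ 2 ∂U ∂U = W g ε := by
    rw [swap3 (fun x s t => df (g (x + ε * s)) (g (x + ε * t)) ^ 2) (by fun_prop)]
    unfold W
    apply lintegral_congr
    intro s
    apply lintegral_congr
    intro t
    unfold D
    rw [← lintegral_add_right_eq_self (fun x => df (g x) (g (x + ε * (t - s))) ^ 2) (ε * s)]
    apply lintegral_congr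
    intro x
    congr 3
    ring
  have h1 : ∫⁻ x, ∫⁻ s, ∫⁻ t, (g (x + ε * s) ^ 2 + g (x + ε * t) ^ 2) ∂U ∂U = 2 * nsqL g := by
    rw [swap3 (fun x s t => g (x + ε * s) ^ 2 + g (x + ε * t) ^ 2) (by fun_prop)]
    have h2 : ∀ s t : ℝ, ∫⁻ x, (g (x + ε * s) ^ 2 + g (x + ε * t) ^ 2) = 2 * nsqL g := by
      intro s t
      rw [lintegral_add_left (by fun_prop)]
      rw [lintegral_add_right_eq_self (fun x => g x ^ 2) (ε * s),
        lintegral_add_right_eq_self (fun x => g x ^ 2) (ε * t)]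
      unfold nsqL
      rw [two_mul]
    simp_rw [h2]
    simp
  rw [← h1, ← h0]
  unfold nsqL
  rw [← lintegral_const_mul _ (by fun_prop), ← lintegral_add_left (by fun_prop)]
  apply lintegral_congr
  intro x
  exact (two_sq_avg hg ε x).symm

end Pool.Agent.PP27.Base333
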