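import Pool.Agent.PP27.Params
import Pool.Agent.H853R3.PP.TaskResample

set_option autoImplicit false

open scoped BigOperators ENNReal
open MeasureTheory Filter Topology

namespace Pool.Agent.PP27

open Pool.Agent.H695R3.PP

/-- clip to `[-1, 1]` -/
noncomputable def clip (t : ℝ) : ℝ := max (-1) (min t 1)

lemma clip_abs (t : ℝ) : |clip t| ≤ 1 := by
  unfold clip
  rw [abs_le]
  exact ⟨le_max_left _ _, max_le (by norm_num) (min_le_right _ _)⟩

lemma clip_of_mem {t : ℝ} (h : t ∈ Set.Icc (-1 : ℝ) 1) : clip t = t := by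
  unfold clip
  rw [min_eq_left h.2, max_eq_right h.1]

lemma clip_cont : Continuous clip := by
  unfold clip
  exact continuous_const.max (continuous_id.min continuous_const)

lemma U_ae : ∀ᵐ t ∂U, clip t = t := by
  have h : ∀ᵐ t ∂(volume.restrict (Set.Icc (-1 : ℝ) 1)), clip t = t := by
    filter_upwards [ae_restrict_mem measurableSet_Icc] with t ht using clip_of_mem ht
  unfold U
  exact Measure.ae_smul_measure h _

lemma clip_ae {Q : Type} [Fintype Q] :
    ∀ᵐ η ∂(Measure.pi (fun _ : Q => U)), ∀ i, clip (η i) = η i := by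
  rw [ae_all_iff]
  intro i
  exact (measurePreserving_eval (fun _ : Q => U) i).quasiMeasurePreserving.ae U_ae

/-- the probability space -/
noncomputable def PX (Q : ℕ → Type) [∀ k, Fintype (Q k)] : Measure (∀ k, (Q k → ℝ)) :=
  Measure.infinitePi (fun k => Measure.pi (fun _ : Q k => U))

instance (Q : ℕ → Type) [∀ k, Fintype (Q k)] : IsProbabilityMeasure (PX Q) := by
  unfold PX; infer_instance

lemma term_le (ε : ℕ → ℝ) (hpos : ∀ k, 0 ≤ ε k) (k : ℕ) (t : ℝ) : ‖ε k * clip t‖ ≤ ε k := by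
  rw [Real.norm_eq_abs, abs_mul, abs_of_nonneg (hpos k)]
  exact mul_le_of_le_one_right (hpos k) (clip_abs t)

lemma summ {Q : ℕ → Type} {ε : ℕ → ℝ} (hε : Summable ε) (hpos : ∀ k, 0 ≤ ε k)
    (x : ∀ k, Q k → ℝ) (q : ∀ k, Q k) : Summable fun k => ε k * clip (x k (q k)) :=
  Summable.of_norm_bounded hε fun k => term_le ε hpos k _

lemma tsum_abs_le {Q : ℕ → Type} {ε : ℕ → ℝ} (hε : Summable ε) (hpos : ∀ k, 0 ≤ ε k)
    (x : ∀ k, Q k → ℝ) (q : ∀ k, Q k) : |∑' k, ε k * clip (x k (q k))| ≤ ∑' k, ε k := by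
  rw [← Real.norm_eq_abs]
  exact tsum_of_norm_bounded hε.hasSum fun k => term_le ε hpos k _

/-- measurability of the series -/
lemma tsum_meas {Z : Type} [MeasurableSpace Z] {ε : ℕ → ℝ} (hε : Summable ε)
    (hpos : ∀ k, 0 ≤ ε k) (g : ℕ → Z → ℝ) (hg : ∀ k, Measurable (g k)) :
    Measurable fun z => ∑' k, ε k * clip (g k z) := by
  refine measurable_of_tendsto_metrizable (f := fun N z => ∑ k ∈ Finset.range N,
    ε k * clip (g k z)) (fun N => ?_) ?_
  · exact Finset.measurable_sum _ fun k _ => measurable_const.mul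
      (clip_cont.measurable.comp (hg k))
  · rw [tendsto_pi_nhds]
    intro z
    exact (Summable.of_norm_bounded hε fun k => term_le ε hpos k _ :
      Summable fun k => ε k * clip (g k z)).hasSum.tendsto_sum_nat

lemma prob_bad {Q : ℕ → Type} [∀ k, Fintype (Q k)] (hTr : TaskTransfer) {ε : ℕ → ℝ}
    (hε : Summable ε) (hpos : ∀ k, 0 ≤ ε k) (w : ℤ → ℝ) (q : ∀ k, ℤ → Q k) (k L : ℕ)
    (hinj : Set.InjOn (q k) (Set.Icc (-(L : ℤ)) L)) (B : Set (ℤ → ℝ)) (hB : MeasurableSet B)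
    (hdep : ∀ V V' : ℤ → ℝ, (∀ n, -(L : ℤ) ≤ n → n ≤ L → V n = V' n) → (V ∈ B ↔ V' ∈ B))
    (R : ℝ) (hw : ∀ n, |w n| + 2 * ∑' j, ε j ≤ R) (p : ℝ≥0∞)
    (hp : ∀ W : ℤ → ℝ, (∀ n, |W n| ≤ R) → PZ {x | (fun n => W n + ε k * x n) ∈ B} ≤ p) :
    PX Q {x | (fun n => w n + ∑' j, ε j * clip (x j (q j n))) ∈ B} ≤ p := by
  classical
  have hVm : Measurable fun x : (∀ k, (Q k → ℝ)) =>
      (fun n : ℤ => w n + ∑' j, ε j * clip (x j (q j n))) := by
    refine measurable_pi_lambda _ fun n => measurable_const.add ?_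
    refine tsum_meas hε hpos (fun j (x : ∀ k, (Q k → ℝ)) => x j (q j n)) fun j => ?_
    exact (measurable_pi_apply (q j n)).comp (measurable_pi_apply j)
  have hS : MeasurableSet {x : (∀ k, (Q k → ℝ)) |
      (fun n : ℤ => w n + ∑' j, ε j * clip (x j (q j n))) ∈ B} := hVm hB
  have hres := Pool.Agent.H853R3.PP.Resample.taskResample ℕ (fun k => (Q k → ℝ))
    (fun k => Measure.pi (fun _ : Q k => U)) k
  have hum := Pool.Agent.H853R3.PP.Resample.measurable_upd (X := fun k => (Q k → ℝ)) k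
  have h1 : PX Q {x | (fun n => w n + ∑' j, ε j * clip (x j (q j n))) ∈ B} =
      ((PX Q).prod (Measure.pi (fun _ : Q k => U))) ((fun z : (∀ j, (Q j → ℝ)) × (Q k → ℝ) =>
        Function.update z.1 k z.2) ⁻¹' {x : (∀ k, (Q k → ℝ)) |
      (fun n : ℤ => w n + ∑' j, ε j * clip (x j (q j n))) ∈ B}) := by
    rw [← Measure.map_apply hum hS]
    unfold PX
    rw [hres]
  rw [h1, Measure.prod_apply (hum hS)]
  have h2 : ∀ x : (∀ k, (Q k → ℝ)), (Measure.pi (fun _ : Q k => U)) (Prod.mk x ⁻¹'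
      ((fun z : (∀ j, (Q j → ℝ)) × (Q k → ℝ) => Function.update z.1 k z.2) ⁻¹'
      {x : (∀ k, (Q k → ℝ)) | (fun n : ℤ => w n + ∑' j, ε j * clip (x j (q j n))) ∈ B})) ≤ p := by
    intro x
    set W : ℤ → ℝ := fun n => w n + ∑' j, ε j * clip (x j (q j n)) - ε k * clip (x k (q k n))
      with hW
    have hWR : ∀ n, |W n| ≤ R := by
      intro n
      have h3 := tsum_abs_le hε hpos x (fun j => q j n)
      have h4 : |ε k * clip (x k (q k n))| ≤ ∑' j, ε j :=
        (term_le ε hpos k _).trans (hε.le_tsum k fun j _ => hpos j)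
      have h5 : |W n| ≤ |w n| + |∑' j, ε j * clip (x j (q j n))| +
          |ε k * clip (x k (q k n))| :=
        (abs_sub _ _).trans (add_le_add (abs_add_le _ _) le_rfl)
      linarith [hw n]
    have h6 : ∀ η : Q k → ℝ, (fun n : ℤ => w n + ∑' j, ε j *
        clip ((Function.update x k η) j (q j n))) = fun n => W n + ε k * clip (η (q k n)) := by
      intro η
      funext n
      have h7 := (summ hε hpos x (fun j => q j n)).hasSum.update k (ε k * clip (η (q k n)))
      have h8 : Function.update (fun j => ε j * clip (x j (q j n))) k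
          (ε k * clip (η (q k n))) = fun j => ε j *
            clip ((Function.update x k η) j (q j n)) := by
        funext j
        by_cases hj : j = k
        · subst hj
          simp
        · simp [Function.update_of_ne hj]
      rw [h8] at h7
      rw [h7.tsum_eq, hW]
      ring
    have h9 : (Measure.pi (fun _ : Q k => U)) (Prod.mk x ⁻¹'
      ((fun z : (∀ j, (Q j → ℝ)) × (Q k → ℝ) => Function.update z.1 k z.2) ⁻¹'
      {x : (∀ k, (Q k → ℝ)) | (fun n : ℤ => w n + ∑' j, ε j * clip (x j (q j n))) ∈ B})) =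
      (Measure.pi (fun _ : Q k => U)) {η | (fun n => W n + ε k * η (q k n)) ∈ B} := by
      refine measure_congr ?_
      filter_upwards [clip_ae (Q := Q k)] with η hη
      apply propext
      change (fun n : ℤ => w n + ∑' j, ε j *
        clip ((Function.update x k η) j (q j n))) ∈ B ↔ _
      rw [h6 η]
      simp only [hη]
      exact Iff.rfl
    rw [h9, hTr (Q k) (q k) L W (ε k) B hinj hB hdep]
    exact hp W hWR
  calc _ ≤ ∫⁻ _ : (∀ k, (Q k → ℝ)), p ∂(PX Q) := lintegral_mono h2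
    _ = p := by simp

lemma isEig_congr {V V' : ℤ → ℝ} {L : ℕ} (h : ∀ n, -(L : ℤ) ≤ n → n ≤ L → V n = V' n)
    (E : ℝ) (ψ : ℤ → ℝ) : IsEig V (-(L : ℤ)) L E ψ ↔ IsEig V' (-(L : ℤ)) L E ψ := by
  unfold IsEig
  refine and_congr Iff.rfl (and_congr Iff.rfl ?_)
  constructor
  · intro hh n h1 h2
    rw [← h n h1 h2]
    exact hh n h1 h2
  · intro hh n h1 h2
    rw [h n h1 h2]
    exact hh n h1 h2

lemma bad1_dep (L : ℕ) (a τ : ℝ) (V V' : ℤ → ℝ)
    (h : ∀ n, -(L : ℤ) ≤ n → n ≤ L → V n = V' n) :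
    V ∈ {V : ℤ → ℝ | Bad1 L a τ V} ↔ V' ∈ {V : ℤ → ℝ | Bad1 L a τ V} := by
  simp only [Set.mem_setOf_eq, Bad1, isEig_congr h]

lemma bad2_dep (L : ℕ) (d : ℝ) (V V' : ℤ → ℝ)
    (h : ∀ n, -(L : ℤ) ≤ n → n ≤ L → V n = V' n) :
    V ∈ {V : ℤ → ℝ | Bad2 L d V} ↔ V' ∈ {V : ℤ → ℝ | Bad2 L d V} := by
  simp only [Set.mem_setOf_eq, Bad2, isEig_congr h]

end Pool.Agent.PP27
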