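import Pool.Agent.PP27.Final

set_option autoImplicit false

open scoped BigOperators ENNReal
open MeasureTheory Filter Topology

namespace Pool.Agent.PP27

open Pool.Agent.H695R3.PP

section

variable {Ω : Type} [AddCommGroup Ω] [TopologicalSpace Ω] [IsTopologicalAddGroup Ω]
  [CompactSpace Ω] [T2Space Ω] [TotallyDisconnectedSpace Ω]
  [TopologicalSpace.MetrizableSpace Ω] [Infinite Ω] [MeasurableSpace Ω] [BorelSpace Ω]

/-- the random function -/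
noncomputable def F (f₀ : C(Ω, ℝ)) (ε : ℕ → ℝ) (H : ℕ → AddSubgroup Ω)
    (x : ∀ k, ((Ω ⧸ H k) → ℝ)) (ω : Ω) : ℝ :=
  f₀ ω + ∑' k, ε k * clip (x k (QuotientAddGroup.mk ω))

lemma F_cont (f₀ : C(Ω, ℝ)) {ε : ℕ → ℝ} (hε : Summable ε) (hpos : ∀ k, 0 ≤ ε k)
    (H : ℕ → AddSubgroup Ω) (hH : ∀ k, IsOpen (H k : Set Ω)) (x : ∀ k, ((Ω ⧸ H k) → ℝ)) :
    Continuous (F f₀ ε H x) := by
  unfold F
  refine f₀.continuous.add (continuous_tsum (fun k => ?_) hε fun k ω => term_le ε hpos k _)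
  have hd : DiscreteTopology (Ω ⧸ H k) := QuotientAddGroup.discreteTopology (hH k)
  refine continuous_const.mul (clip_cont.comp ?_)
  exact (continuous_of_discreteTopology (f := x k)).comp continuous_quotient_mk'

lemma F_meas (f₀ : C(Ω, ℝ)) {ε : ℕ → ℝ} (hε : Summable ε) (hpos : ∀ k, 0 ≤ ε k)
    (H : ℕ → AddSubgroup Ω) (hH : ∀ k, IsOpen (H k : Set Ω)) [∀ k, Fintype (Ω ⧸ H k)] (a : Ω) :
    Measurable fun z : (∀ k, ((Ω ⧸ H k) → ℝ)) × Ω => F f₀ ε H z.1 (z.2 + a) := by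
  classical
  unfold F
  have hadd : Measurable fun z : (∀ k, ((Ω ⧸ H k) → ℝ)) × Ω => z.2 + a :=
    ((continuous_add_right a).measurable).comp measurable_snd
  refine (f₀.continuous.measurable.comp hadd).add ?_
  refine tsum_meas hε hpos (fun k (z : (∀ k, ((Ω ⧸ H k) → ℝ)) × Ω) =>
    z.1 k (QuotientAddGroup.mk (z.2 + a))) fun k => ?_
  have hd : DiscreteTopology (Ω ⧸ H k) := QuotientAddGroup.discreteTopology (hH k)
  have h1 : (fun z : (∀ k, ((Ω ⧸ H k) → ℝ)) × Ω => z.1 k (QuotientAddGroup.mk (z.2 + a))) =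
      fun z => ∑ q : Ω ⧸ H k, if (QuotientAddGroup.mk (z.2 + a) : Ω ⧸ H k) = q then z.1 k q
        else 0 := by
    funext z
    rw [Finset.sum_ite_eq Finset.univ (QuotientAddGroup.mk (z.2 + a) : Ω ⧸ H k)
      (fun q => z.1 k q), if_pos (Finset.mem_univ _)]
  rw [h1]
  refine Finset.measurable_sum _ fun q _ => Measurable.ite ?_ ?_ measurable_const
  · have h2 : IsOpen {ω : Ω | (QuotientAddGroup.mk ω : Ω ⧸ H k) = q} :=
      (isOpen_discrete ({q} : Set (Ω ⧸ H k))).preimage continuous_quotient_mk'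
    exact hadd h2.measurableSet
  · exact (measurable_pi_apply q).comp ((measurable_pi_apply k).comp measurable_fst)

theorem final (hG1 : TaskG1) (hG2 : TaskG2) (hM : TaskMeas) (hD : TaskDelta) (hT : TaskTop)
    (hGr : TaskGroup) (hTr : TaskTransfer) (hN : TaskNum)
    (μ : Measure Ω) [μ.IsAddHaarMeasure] (α : Ω) (hα : Dense (Set.range (fun n : ℤ => n • α))) :
    ∃ D : Set C(Ω, ℝ), Dense D ∧ ∀ f ∈ D, ∀ᵐ ω ∂μ,
      (EigSpan fun n : ℤ => f (ω + n • α)).topologicalClosure = ⊤ := by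
  classical
  refine ⟨{f | ∀ᵐ ω ∂μ, (EigSpan fun n : ℤ => f (ω + n • α)).topologicalClosure = ⊤}, ?_,
    fun f hf => hf⟩
  rw [Metric.dense_iff]
  intro f₀ r hr
  obtain ⟨c, C, hc, hc1, hC, H1⟩ := hG1
  obtain ⟨C', hC', H2⟩ := hG2
  set R : ℝ := ‖f₀‖ + 2 with hR
  have hR1 : 1 ≤ R := by
    have := norm_nonneg f₀
    linarith
  set e₀ : ℝ := min (r / 2) 1 with he₀
  have he : 0 < e₀ := lt_min (by linarith) one_pos
  have he1 : e₀ ≤ 1 := min_le_right _ _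
  have her : e₀ < r := lt_of_le_of_lt (min_le_left _ _) (by linarith)
  obtain ⟨L, ε, a, τ, d, hL, hL1, hε, hεs, hεe, hpos, hs1, hs2, hd1, hd2, hsd, hsτ, ht1, ht2⟩ :=
    params hN c C C' R e₀ hc hc1 hC hC' hR1 he he1
  have hε0 : ∀ k, 0 ≤ ε k := fun k => (hε k).1.le
  -- subgroups
  have hgr : ∀ k, ∃ H : AddSubgroup Ω, IsOpen (H : Set Ω) ∧ Finite (Ω ⧸ H) ∧
      ∀ j : ℤ, j ≠ 0 → |j| ≤ ((2 * L k : ℕ) : ℤ) → j • α ∉ H := fun k => hGr Ω α hα (2 * L k)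
  choose H hH hfin hHα using hgr
  haveI : ∀ k, Fintype (Ω ⧸ H k) := fun k => Fintype.ofFinite _
  let X := ∀ k, ((Ω ⧸ H k) → ℝ)
  let P : Measure X := PX fun k => Ω ⧸ H k
  haveI : IsFiniteMeasure μ := inferInstance
  -- the potentials
  let V : ℤ → X × Ω → ℤ → ℝ := fun m z n => F f₀ ε H z.1 (z.2 + (m + n) • α)
  have hVm : ∀ m, Measurable (V m) := fun m =>
    measurable_pi_lambda _ fun n => F_meas f₀ hεs hε0 H hH ((m + n) • α)
  have hw : ∀ ω : Ω, |f₀ ω| + 2 * ∑' j, ε j ≤ R := fun ω => by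
    have h1 : |f₀ ω| ≤ ‖f₀‖ := by
      rw [← Real.norm_eq_abs]
      exact f₀.norm_coe_le_norm ω
    rw [hR]
    linarith
  have hinj : ∀ (m : ℤ) (ω : Ω) (k : ℕ), Set.InjOn
      (fun n : ℤ => (QuotientAddGroup.mk (ω + (m + n) • α) : Ω ⧸ H k))
      (Set.Icc (-(L k : ℤ)) (L k)) := by
    intro m ω k n hn n' hn' h
    by_contra hne
    have h1 := QuotientAddGroup.eq.1 h
    have h2 : -(ω + (m + n) • α) + (ω + (m + n') • α) = (n' - n) • α := by
      simp only [add_smul, sub_smul]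
      abel
    rw [h2] at h1
    refine hHα k (n' - n) (sub_ne_zero.2 (Ne.symm hne)) ?_ h1
    push_cast
    rw [abs_le]
    constructor <;> linarith [hn.1, hn.2, hn'.1, hn'.2]
  -- one scale, one site, one point
  have hone : ∀ (m : ℤ) (ω : Ω) (k : ℕ) (B : Set (ℤ → ℝ)), MeasurableSet B →
      (∀ V V' : ℤ → ℝ, (∀ n, -(L k : ℤ) ≤ n → n ≤ L k → V n = V' n) → (V ∈ B ↔ V' ∈ B)) →
      ∀ p : ℝ≥0∞, (∀ W : ℤ → ℝ, (∀ n, |W n| ≤ R) → PZ {x | (fun n => W n + ε k * x n) ∈ B} ≤ p) →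
      P {x | V m (x, ω) ∈ B} ≤ p := by
    intro m ω k B hB hdep p hp
    exact prob_bad hTr hεs hε0 (fun n => f₀ (ω + (m + n) • α))
      (fun j n => (QuotientAddGroup.mk (ω + (m + n) • α) : Ω ⧸ H j)) k (L k) (hinj m ω k) B hB hdep
      R (fun n => hw _) p hp
  -- summation over the scales
  have hsum : ∀ (m : ℤ) (B : ℕ → Set (ℤ → ℝ)) (b : ℕ → ℝ), (∀ k, MeasurableSet (B k)) →
      (∀ k, 0 ≤ b k) → Summable b → (∀ k ω, P {x | V m (x, ω) ∈ B k} ≤ ENNReal.ofReal (b k)) →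
      ∀ᵐ z ∂(P.prod μ), ∀ᶠ k in atTop, V m z ∉ B k := by
    intro m B b hB hb hbs hP
    have h1 : ∀ k, (P.prod μ) ((V m) ⁻¹' (B k)) ≤ ENNReal.ofReal (b k) * μ Set.univ := by
      intro k
      rw [Measure.prod_apply_symm ((hVm m) (hB k))]
      calc ∫⁻ ω, P ((fun x => (x, ω)) ⁻¹' ((V m) ⁻¹' (B k))) ∂μ ≤
          ∫⁻ _, ENNReal.ofReal (b k) ∂μ := lintegral_mono fun ω => hP k ω
        _ = ENNReal.ofReal (b k) * μ Set.univ := by rw [lintegral_const]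
    have h2 : (∑' k, (P.prod μ) ((V m) ⁻¹' (B k))) ≠ ∞ := by
      refine ne_top_of_le_ne_top ?_ (ENNReal.tsum_le_tsum h1)
      rw [ENNReal.tsum_mul_right, ← ENNReal.ofReal_tsum_of_nonneg hb hbs]
      exact ENNReal.mul_ne_top ENNReal.ofReal_ne_top (measure_ne_top μ _)
    filter_upwards [ae_eventually_notMem h2] with z hz using hz
  have hgood : ∀ᵐ z ∂(P.prod μ), ∀ m : ℤ, (∀ᶠ k in atTop, ¬ Bad1 (L k) (a k) (τ k) (V m z)) ∧
      (∀ᶠ k in atTop, ¬ Bad2 (L k) (d k) (V m z)) := by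
    rw [ae_all_iff]
    intro m
    have hA := hsum m (fun k => {V : ℤ → ℝ | Bad1 (L k) (a k) (τ k) V})
      (fun k => C * R ^ 2 / (ε k ^ 3 * a k ^ 2 * τ k) * (1 - c * ε k ^ 2) ^ (L k))
      (fun k => hM.1 (L k) (a k) (τ k)) (fun k => ?_) hs1 (fun k ω => ?_)
    · have hB := hsum m (fun k => {V : ℤ → ℝ | Bad2 (L k) (d k) V})
        (fun k => C' * ((L k : ℝ) + 1) ^ 4 * d k / ε k)
        (fun k => hM.2 (L k) (d k)) (fun k => ?_) hs2 (fun k ω => ?_)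
      · filter_upwards [hA, hB] with z hz1 hz2
        exact ⟨hz1, hz2⟩
      · have h1 := (hpos k).2.2
        have h2 := (hε k).1
        positivity
      · refine hone m ω k _ (hM.2 (L k) (d k)) (bad2_dep (L k) (d k)) _ fun W _ => ?_
        exact H2 (ε k) (d k) W (L k) (hε k).1 (hpos k).2.2
    · have h1 := (hpos k).1
      have h3 := (hpos k).2.1
      have h2 := (hε k).1
      have h4 : 0 ≤ 1 - c * ε k ^ 2 := by
        have : ε k ^ 2 ≤ 1 := pow_le_one₀ h2.le (hε k).2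
        nlinarith
      positivity
    · refine hone m ω k _ (hM.1 (L k) (a k) (τ k)) (bad1_dep (L k) (a k) (τ k)) _ fun W hW => ?_
      exact H1 (ε k) R (a k) (τ k) W (L k) (hε k).1 (hε k).2 hR1 hW (hpos k).1 (hpos k).2.1 (hL1 k)
  have hae := Measure.ae_ae_of_ae_prod hgood
  obtain ⟨x, hx⟩ := hae.exists
  refine ⟨⟨F f₀ ε H x, F_cont f₀ hεs hε0 H hH x⟩, ?_, ?_⟩
  · rw [Metric.mem_ball]
    refine lt_of_le_of_lt ((ContinuousMap.dist_le he.le).2 fun ω => ?_) her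
    rw [Real.dist_eq]
    change |f₀ ω + ∑' k, ε k * clip (x k (QuotientAddGroup.mk ω)) - f₀ ω| ≤ e₀
    rw [add_sub_cancel_left]
    exact (tsum_abs_le hεs hε0 x fun k => (QuotientAddGroup.mk ω : Ω ⧸ H k)).trans hεe
  · change ∀ᵐ ω ∂μ, (EigSpan fun n : ℤ => F f₀ ε H x (ω + n • α)).topologicalClosure = ⊤
    filter_upwards [hx] with ω hω
    refine hT _ fun m => ?_
    have h1 := (hω m).1
    have h2 := (hω m).2
    exact hD (fun n => F f₀ ε H x (ω + (m + n) • α)) L a τ d hL hpos h1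
      ((tendsto_add_atTop_nat 1).eventually h2) hd1 hd2 hsd hsτ ht1 ht2

end

end Pool.Agent.PP27
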