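import Pool.Agent.H695R3.PP.Stmts

set_option autoImplicit false

open scoped BigOperators ENNReal
open MeasureTheory Filter Topology

namespace Pool.Agent.PP27

open Pool.Agent.H695R3.PP

lemma params (hn : TaskNum) (c C C' R e₀ : ℝ) (hc : 0 < c) (hc1 : c ≤ 1 / 2) (hC : 0 < C)
    (hC' : 0 < C') (hR : 1 ≤ R) (he : 0 < e₀) (he1 : e₀ ≤ 1) :
    ∃ (L : ℕ → ℕ) (ε a τ d : ℕ → ℝ), StrictMono L ∧ (∀ k, 1 ≤ L k) ∧
      (∀ k, 0 < ε k ∧ ε k ≤ 1) ∧ Summable ε ∧ (∑' k, ε k ≤ e₀) ∧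
      (∀ k, 0 < a k ∧ 0 < τ k ∧ 0 < d k) ∧
      (Summable fun k => C * R ^ 2 / (ε k ^ 3 * a k ^ 2 * τ k) * (1 - c * ε k ^ 2) ^ (L k)) ∧
      (Summable fun k => C' * ((L k : ℝ) + 1) ^ 4 * d k / ε k) ∧
      (∀ᶠ k in atTop, 4 * τ k ≤ d (k + 1)) ∧
      (∀ᶠ k in atTop, a (k + 1) + 4 * τ k / d (k + 1) ≤ a k) ∧
      Summable (fun k => τ k / d (k + 1)) ∧ Summable τ ∧
      Tendsto (fun k => (2 * (L k : ℝ) + 1) * a k ^ 2) atTop (𝓝 0) ∧
      Tendsto (fun k => (2 * (L k : ℝ) + 1) * ∑' j, τ (k + j) / d (k + j + 1)) atTop (𝓝 0) := by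
  set κ : ℝ := c * e₀ ^ 2 / 8 with hκ
  have hκ0 : 0 < κ := by positivity
  set B : ℝ := 262144 with hB
  have hB0 : (0 : ℝ) < B := by norm_num [hB]
  have hB1 : (1 : ℝ) ≤ B := by norm_num [hB]
  have hLcast : ∀ k : ℕ, (((16 ^ k : ℕ)) : ℝ) = (16 : ℝ) ^ k := fun k => by push_cast; rfl
  have hpow : ∀ k : ℕ, (16 : ℝ) ^ k = (4 : ℝ) ^ k * (4 : ℝ) ^ k := fun k => by
    rw [← mul_pow]; norm_num
  refine ⟨fun k => 16 ^ k, fun k => e₀ / 2 ^ (k + 1), fun k => 1 / 5 ^ k,
    fun k => Real.exp (-(κ * 4 ^ k)), fun k => 1 / B ^ k, ?_, ?_, ?_, ?_, ?_, ?_, ?_, ?_, ?_, ?_,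
    ?_, ?_, ?_, ?_⟩
  · exact strictMono_nat_of_lt_succ fun k => Nat.pow_lt_pow_right (by norm_num) (Nat.lt_succ_self k)
  · intro k
    exact Nat.one_le_pow _ _ (by norm_num)
  · intro k
    refine ⟨by positivity, ?_⟩
    rw [div_le_one (by positivity)]
    exact he1.trans (one_le_pow₀ (by norm_num))
  · have h := (summable_geometric_two).mul_left (e₀ / 2)
    refine h.congr fun k => ?_
    rw [pow_succ, one_div, inv_pow]
    field_simp
  · have h1 : ∀ k : ℕ, e₀ / 2 ^ (k + 1) = (e₀ / 2) * (1 / 2 : ℝ) ^ k := fun k => by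
      rw [pow_succ, one_div, inv_pow]
      field_simp
    simp_rw [h1]
    rw [tsum_mul_left, tsum_geometric_two]
    linarith
  · intro k
    refine ⟨by positivity, Real.exp_pos _, by positivity⟩
  · -- first kind
    have hs := ((hn κ 200 hκ0 (by norm_num)).1).mul_left (8 * C * R ^ 2 / e₀ ^ 3)
    refine Summable.of_nonneg_of_le (fun k => ?_) (fun k => ?_) hs
    · have h0 : 0 ≤ 1 - c * (e₀ / 2 ^ (k + 1)) ^ 2 := by
        have h1 : (e₀ / 2 ^ (k + 1)) ≤ 1 := by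
          rw [div_le_one (by positivity)]
          exact he1.trans (one_le_pow₀ (by norm_num))
        have h2 : 0 ≤ e₀ / 2 ^ (k + 1) := by positivity
        have h3 : (e₀ / 2 ^ (k + 1)) ^ 2 ≤ 1 := pow_le_one₀ h2 h1
        nlinarith
      positivity
    · have h0 : 0 ≤ 1 - c * (e₀ / 2 ^ (k + 1)) ^ 2 := by
        have h1 : (e₀ / 2 ^ (k + 1)) ≤ 1 := by
          rw [div_le_one (by positivity)]
          exact he1.trans (one_le_pow₀ (by norm_num))
        have h2 : 0 ≤ e₀ / 2 ^ (k + 1) := by positivity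
        have h3 : (e₀ / 2 ^ (k + 1)) ^ 2 ≤ 1 := pow_le_one₀ h2 h1
        nlinarith
      have h4 : (1 - c * (e₀ / 2 ^ (k + 1)) ^ 2) ^ (16 ^ k) ≤ Real.exp (-(2 * κ * 4 ^ k)) := by
        have h5 : 1 - c * (e₀ / 2 ^ (k + 1)) ^ 2 ≤ Real.exp (-(c * (e₀ / 2 ^ (k + 1)) ^ 2)) := by
          have := Real.add_one_le_exp (-(c * (e₀ / 2 ^ (k + 1)) ^ 2))
          linarith
        refine (pow_le_pow_left₀ h0 h5 _).trans (le_of_eq ?_)
        rw [← Real.exp_nat_mul, hLcast]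
        congr 1
        rw [hpow, hκ]
        have h6 : ((2 : ℝ) ^ (k + 1)) ^ 2 = 4 * 4 ^ k := by
          rw [← pow_mul, mul_comm (k + 1) 2, pow_mul]
          norm_num
          ring
        rw [div_pow, h6]
        field_simp
        ring
      have h7 : C * R ^ 2 / ((e₀ / 2 ^ (k + 1)) ^ 3 * (1 / 5 ^ k) ^ 2 * Real.exp (-(κ * 4 ^ k))) =
          8 * C * R ^ 2 / e₀ ^ 3 * 200 ^ k * Real.exp (κ * 4 ^ k) := by
        have h8 : ((2 : ℝ) ^ (k + 1)) ^ 3 = 8 * 8 ^ k := by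
          rw [← pow_mul, mul_comm (k + 1) 3, pow_mul]
          norm_num
          ring
        have h9 : ((5 : ℝ) ^ k) ^ 2 = 25 ^ k := by
          rw [← pow_mul, mul_comm k 2, pow_mul]
          norm_num
        have h10 : (200 : ℝ) ^ k = 8 ^ k * 25 ^ k := by
          rw [← mul_pow]
          norm_num
        rw [div_pow, h8, div_pow, h9, h10, Real.exp_neg]
        field_simp
      rw [h7]
      have h11 : Real.exp (-(2 * κ * 4 ^ k)) =
          Real.exp (-(κ * 4 ^ k)) * Real.exp (-(κ * 4 ^ k)) := by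
        rw [← Real.exp_add]
        congr 1
        ring
      calc _ ≤ 8 * C * R ^ 2 / e₀ ^ 3 * 200 ^ k * Real.exp (κ * 4 ^ k) *
            Real.exp (-(2 * κ * 4 ^ k)) := by
            refine mul_le_mul_of_nonneg_left h4 ?_
            positivity
        _ = 8 * C * R ^ 2 / e₀ ^ 3 * (200 ^ k * Real.exp (-(κ * 4 ^ k))) := by
            rw [h11, Real.exp_neg]
            field_simp
  · -- second kind
    have hs := (summable_geometric_two).mul_left (32 * C' / e₀)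
    refine Summable.of_nonneg_of_le (fun k => by positivity) (fun k => ?_) hs
    have h1 : ((((16 ^ k : ℕ)) : ℝ) + 1) ^ 4 ≤ 16 * 65536 ^ k := by
      rw [hLcast]
      have h2 : (16 : ℝ) ^ k + 1 ≤ 2 * 16 ^ k := by
        have : (1 : ℝ) ≤ 16 ^ k := one_le_pow₀ (by norm_num)
        linarith
      refine (pow_le_pow_left₀ (by positivity) h2 4).trans (le_of_eq ?_)
      rw [mul_pow, ← pow_mul, mul_comm k 4, pow_mul]
      norm_num
    have h3 : C' * ((((16 ^ k : ℕ)) : ℝ) + 1) ^ 4 * (1 / B ^ k) / (e₀ / 2 ^ (k + 1)) ≤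
        C' * (16 * 65536 ^ k) * (1 / B ^ k) / (e₀ / 2 ^ (k + 1)) := by
      gcongr
    refine h3.trans (le_of_eq ?_)
    have h4 : B ^ k = 65536 ^ k * (2 ^ k * 2 ^ k) := by
      rw [← mul_pow, ← mul_pow, hB]
      norm_num
    rw [h4, one_div_pow, pow_succ]
    field_simp
    ring
  · -- 4 τ ≤ d
    have hs := ((hn κ B hκ0 hB1).1.mul_left (4 * B)).tendsto_atTop_zero
    filter_upwards [hs.eventually_le_const (show (0 : ℝ) < 1 by norm_num)] with k hk
    rw [le_div_iff₀ (by positivity), pow_succ]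
    calc 4 * Real.exp (-(κ * 4 ^ k)) * (B ^ k * B) = 4 * B * (B ^ k * Real.exp (-(κ * 4 ^ k))) := by
          ring
      _ ≤ 1 := hk
  · have hs := ((hn κ (5 * B) hκ0 (by linarith)).1.mul_left (4 * B)).tendsto_atTop_zero
    filter_upwards [hs.eventually_le_const (show (0 : ℝ) < 4 / 5 by norm_num)] with k hk
    have h1 : 4 * Real.exp (-(κ * 4 ^ k)) / (1 / B ^ (k + 1)) =
        (4 * B * ((5 * B) ^ k * Real.exp (-(κ * 4 ^ k)))) * (1 / 5 ^ k) := by
      rw [mul_pow, pow_succ]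
      field_simp
    have h2 : (1 : ℝ) / 5 ^ (k + 1) = 1 / 5 * (1 / 5 ^ k) := by
      rw [pow_succ]
      field_simp
    have h0 : (0 : ℝ) < 1 / 5 ^ k := by positivity
    rw [h1, h2]
    nlinarith
  · refine ((hn κ B hκ0 hB1).1.mul_left B).congr fun k => ?_
    change B * (B ^ k * Real.exp (-(κ * 4 ^ k))) = Real.exp (-(κ * 4 ^ k)) / (1 / B ^ (k + 1))
    rw [pow_succ]
    field_simp
  · refine (hn κ 1 hκ0 le_rfl).1.congr fun k => ?_
    rw [one_pow, one_mul]
  · -- sixteen over twenty five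
    have h1 : Tendsto (fun k : ℕ => 3 * ((16 / 25 : ℝ)) ^ k) atTop (𝓝 (3 * 0)) :=
      (tendsto_pow_atTop_nhds_zero_of_lt_one (by norm_num) (by norm_num)).const_mul 3
    rw [mul_zero] at h1
    refine squeeze_zero (fun k => by positivity) (fun k => ?_) h1
    rw [hLcast]
    have h2 : (1 : ℝ) ≤ 16 ^ k := one_le_pow₀ (by norm_num)
    have h3 : ((1 : ℝ) / 5 ^ k) ^ 2 = 1 / 25 ^ k := by
      rw [div_pow, one_pow, ← pow_mul, mul_comm k 2, pow_mul]
      norm_num
    rw [h3, div_pow]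
    rw [mul_one_div, ← mul_div_assoc]
    gcongr
    linarith
  · -- the tail
    have hM := (hn (κ / 2) B (by positivity) hB1).1
    obtain ⟨M, hM1⟩ := hM.tendsto_atTop_zero.bddAbove_range
    have hM2 : ∀ i : ℕ, B ^ i * Real.exp (-(κ / 2 * 4 ^ i)) ≤ M := fun i => hM1 ⟨i, rfl⟩
    have hM0 : 0 ≤ M := le_trans (by positivity) (hM2 0)
    have hs2 : Summable fun i : ℕ => Real.exp (-(κ / 2 * 4 ^ i)) :=
      (hn (κ / 2) 1 (by positivity) le_rfl).1.congr fun k => by rw [one_pow, one_mul]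
    have hterm : ∀ i : ℕ, Real.exp (-(κ * 4 ^ i)) / (1 / B ^ (i + 1)) ≤
        B * M * Real.exp (-(κ / 2 * 4 ^ i)) := by
      intro i
      have h1 : Real.exp (-(κ * 4 ^ i)) =
          Real.exp (-(κ / 2 * 4 ^ i)) * Real.exp (-(κ / 2 * 4 ^ i)) := by
        rw [← Real.exp_add]
        congr 1
        ring
      rw [h1, one_div, div_inv_eq_mul, pow_succ]
      calc Real.exp (-(κ / 2 * 4 ^ i)) * Real.exp (-(κ / 2 * 4 ^ i)) * (B ^ i * B) =
          B * (B ^ i * Real.exp (-(κ / 2 * 4 ^ i))) * Real.exp (-(κ / 2 * 4 ^ i)) := by ring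
        _ ≤ B * M * Real.exp (-(κ / 2 * 4 ^ i)) := by
          gcongr
          exact hM2 i
    have hl := ((hn (κ / 2) 16 (by positivity) (by norm_num)).2).const_mul (3 * (B * M))
    rw [mul_zero] at hl
    refine squeeze_zero (fun k => ?_) (fun k => ?_) hl
    · refine mul_nonneg (by positivity) (tsum_nonneg fun j => by positivity)
    · rw [hLcast]
      have hsk : Summable fun j : ℕ => Real.exp (-(κ / 2 * 4 ^ (k + j))) := by
        have := (summable_nat_add_iff k).2 hs2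
        refine this.congr fun j => by rw [add_comm j k]
      have h2 : ∑' j, Real.exp (-(κ * 4 ^ (k + j))) / (1 / B ^ (k + j + 1)) ≤
          B * M * ∑' j, Real.exp (-(κ / 2 * 4 ^ (k + j))) := by
        rw [← tsum_mul_left]
        refine Summable.tsum_le_tsum (fun j => hterm (k + j)) ?_ (hsk.mul_left _)
        exact Summable.of_nonneg_of_le (fun j => by positivity) (fun j => hterm (k + j))
          (hsk.mul_left _)
      have h3 : (1 : ℝ) ≤ 16 ^ k := one_le_pow₀ (by norm_num)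
      have h4 : 0 ≤ ∑' j, Real.exp (-(κ / 2 * 4 ^ (k + j))) := tsum_nonneg fun j => by positivity
      calc _ ≤ (3 * 16 ^ k) * (B * M * ∑' j, Real.exp (-(κ / 2 * 4 ^ (k + j)))) := by
            refine mul_le_mul (by linarith) h2 (tsum_nonneg fun j => by positivity) (by positivity)
        _ = _ := by ring

end Pool.Agent.PP27
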