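import Pool.Agent.H695R3.PP.Stmts

/-!
# An orthonormal eigenbasis of a box
-/

set_option autoImplicit false

open Pool.Agent.H695R3.PP

namespace Pool.Agent.PP27.Q258Box

/-- Extension by zero. -/
noncomputable def ext (a b : ℤ) (v : Finset.Icc a b → ℝ) (n : ℤ) : ℝ :=
  if h : n ∈ Finset.Icc a b then v ⟨n, h⟩ else 0

lemma ext_coe {a b : ℤ} (v : Finset.Icc a b → ℝ) (m : Finset.Icc a b) : ext a b v m = v m := by
  unfold ext
  rw [dif_pos m.2]

lemma ext_out {a b : ℤ} (v : Finset.Icc a b → ℝ) (n : ℤ) (h : n < a ∨ b < n) :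
    ext a b v n = 0 := by
  unfold ext
  rw [dif_neg]
  rw [Finset.mem_Icc]
  omega

/-- The matrix of the box. -/
noncomputable def M (V : ℤ → ℝ) (a b : ℤ) : Matrix (Finset.Icc a b) (Finset.Icc a b) ℝ :=
  fun m n => (if (n : ℤ) = m + 1 then 1 else 0) + (if (n : ℤ) = m - 1 then 1 else 0) +
    (if (n : ℤ) = m then V m else 0)

lemma herm (V : ℤ → ℝ) (a b : ℤ) : (M V a b).IsHermitian := by
  ext m n
  simp only [Matrix.conjTranspose_apply, M, star_trivial]
  have h1 : ((m : ℤ) = n + 1) ↔ ((n : ℤ) = m - 1) := by omega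
  have h2 : ((m : ℤ) = n - 1) ↔ ((n : ℤ) = m + 1) := by omega
  simp only [h1, h2]
  by_cases h : (m : ℤ) = n
  · have h' : m = n := Subtype.ext h
    subst h'
    simp
  · have h' : ¬ (n : ℤ) = m := fun h' => h h'.symm
    simp only [h, h', if_false]
    ring

lemma sum_ite {a b : ℤ} (v : Finset.Icc a b → ℝ) (k : ℤ) (c : ℝ) :
    ∑ n : Finset.Icc a b, (if (n : ℤ) = k then c else 0) * v n = c * ext a b v k := by
  by_cases hk : k ∈ Finset.Icc a b
  · rw [Finset.sum_eq_single (⟨k, hk⟩ : Finset.Icc a b)]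
    · rw [if_pos rfl]
      unfold ext
      rw [dif_pos hk]
    · intro n _ hn
      rw [if_neg, zero_mul]
      intro h
      exact hn (Subtype.ext h)
    · intro h
      exact absurd (Finset.mem_univ _) h
  · unfold ext
    rw [dif_neg hk, mul_zero]
    apply Finset.sum_eq_zero
    intro n _
    rw [if_neg, zero_mul]
    intro h
    exact hk (h ▸ n.2)

lemma mulVec_eq (V : ℤ → ℝ) (a b : ℤ) (v : Finset.Icc a b → ℝ) (m : Finset.Icc a b) :
    (M V a b).mulVec v m = ext a b v (m + 1) + ext a b v (m - 1) + V m * v m := by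
  unfold Matrix.mulVec dotProduct
  simp only [M, add_mul, Finset.sum_add_distrib]
  rw [sum_ite, sum_ite, sum_ite, ext_coe]
  ring

lemma nsq_ext {a b : ℤ} (v : Finset.Icc a b → ℝ) : nsq a b (ext a b v) = ∑ m, v m ^ 2 := by
  unfold nsq
  rw [← Finset.sum_coe_sort (Finset.Icc a b)]
  apply Finset.sum_congr rfl
  intro m _
  rw [ext_coe]

/-- An orthonormal basis of eigenvectors. -/
theorem basis (V : ℤ → ℝ) (a b : ℤ) : ∃ (e : Finset.Icc a b → ℝ) (φ : Finset.Icc a b → ℤ → ℝ),
    (∀ j, IsEig V a b (e j) (φ j)) ∧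
    (∀ f : ℤ → ℝ, (∀ n, n < a ∨ b < n → f n = 0) →
      ∃ c : Finset.Icc a b → ℝ, ∀ n, f n = ∑ j, c j * φ j n) ∧
    ∀ c : Finset.Icc a b → ℝ, nsq a b (fun n => ∑ j, c j * φ j n) = ∑ j, c j ^ 2 := by
  classical
  set B := (herm V a b).eigenvectorBasis with hB
  have hnorm : ∀ c : Finset.Icc a b → ℝ,
      nsq a b (fun n => ∑ j, c j * ext a b (B j) n) = ∑ j, c j ^ 2 := by
    intro c
    have h1 : (fun n => ∑ j, c j * ext a b (B j) n) =
        ext a b (fun m => (∑ j, c j • B j : EuclideanSpace ℝ (Finset.Icc a b)) m) := by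
      funext n
      unfold ext
      by_cases hn : n ∈ Finset.Icc a b
      · simp only [dif_pos hn]
        simp
      · simp only [dif_neg hn, mul_zero, Finset.sum_const_zero]
    rw [h1, nsq_ext]
    have h2 : ‖(∑ j, c j • B j : EuclideanSpace ℝ (Finset.Icc a b))‖ ^ 2 = ∑ j, c j ^ 2 := by
      have h3 := B.sum_sq_norm_inner_right (∑ j, c j • B j)
      rw [← h3]
      apply Finset.sum_congr rfl
      intro j _
      rw [B.orthonormal.inner_right_fintype]
      simp
    rw [← h2, EuclideanSpace.norm_sq_eq]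
    apply Finset.sum_congr rfl
    intro m _
    rw [Real.norm_eq_abs, sq_abs]
  refine ⟨(herm V a b).eigenvalues, fun j => ext a b (B j), ?_, ?_, hnorm⟩
  · intro j
    refine ⟨fun n hn => ext_out _ n hn, ?_, ?_⟩
    · have := hnorm (Pi.single j 1)
      simp only [Pi.single_apply, ite_mul, one_mul, zero_mul, Finset.sum_ite_eq', Finset.mem_univ,
        if_true] at this
      rw [this]
      simp
    · intro n ha hb
      have hn : n ∈ Finset.Icc a b := Finset.mem_Icc.2 ⟨ha, hb⟩
      have h1 := congrFun ((herm V a b).mulVec_eigenvectorBasis j) ⟨n, hn⟩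
      rw [mulVec_eq] at h1
      have h2 : ext a b (B j) n = B j ⟨n, hn⟩ := by
        unfold ext
        rw [dif_pos hn]
      show ext a b (B j) (n + 1) + ext a b (B j) (n - 1) + V n * ext a b (B j) n =
        (herm V a b).eigenvalues j * ext a b (B j) n
      rw [h2]
      simpa using h1
  · intro f hf
    set x : EuclideanSpace ℝ (Finset.Icc a b) := WithLp.toLp 2 (fun m => f m) with hx
    refine ⟨fun j => B.repr x j, fun n => ?_⟩
    have h1 := B.sum_repr x
    by_cases hn : n ∈ Finset.Icc a b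
    · have h2 : (∑ j, B.repr x j • B j : EuclideanSpace ℝ (Finset.Icc a b)) ⟨n, hn⟩ =
          x ⟨n, hn⟩ := by rw [h1]
      unfold ext
      simp only [dif_pos hn]
      rw [show f n = x ⟨n, hn⟩ from rfl, ← h2]
      simp only [WithLp.ofLp_sum, WithLp.ofLp_smul, Finset.sum_apply, Pi.smul_apply, smul_eq_mul]
    · have h3 : f n = 0 := by
        apply hf
        rw [Finset.mem_Icc] at hn
        omega
      rw [h3]
      unfold ext
      simp only [dif_neg hn, mul_zero, Finset.sum_const_zero]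

end Pool.Agent.PP27.Q258Box
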