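import Mathlib
import Pool.Agent.H695R3.PP.Stmts

set_option autoImplicit false

/-!
The spectral theorem for the box matrices.
-/

open scoped BigOperators
open Pool.Agent.H695R3.PP

namespace Pool.Agent.PP27.Spec

/-- the box matrix -/
noncomputable def mat (V : ℤ → ℝ) (a b : ℤ) :
    Matrix ↥(Finset.Icc a b) ↥(Finset.Icc a b) ℝ := fun i j =>
  (if (j : ℤ) = i + 1 then 1 else 0) + (if (j : ℤ) = i - 1 then 1 else 0) +
    (if (j : ℤ) = i then V i else 0)

/-- extension by zero -/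
noncomputable def ext0 {a b : ℤ} (v : ↥(Finset.Icc a b) → ℝ) (n : ℤ) : ℝ :=
  if h : n ∈ Finset.Icc a b then v ⟨n, h⟩ else 0

theorem ext0_mem {a b : ℤ} (v : ↥(Finset.Icc a b) → ℝ) (i : ↥(Finset.Icc a b)) :
    ext0 v i = v i := by
  unfold ext0
  rw [dif_pos i.2]

theorem ext0_out {a b : ℤ} (v : ↥(Finset.Icc a b) → ℝ) (n : ℤ) (h : n < a ∨ b < n) :
    ext0 v n = 0 := by
  unfold ext0
  rw [dif_neg]
  rw [Finset.mem_Icc]
  omega

theorem sum_ite {a b : ℤ} (v : ↥(Finset.Icc a b) → ℝ) (k : ℤ) :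
    ∑ j : ↥(Finset.Icc a b), (if (j : ℤ) = k then (1 : ℝ) else 0) * v j = ext0 v k := by
  by_cases h : k ∈ Finset.Icc a b
  · rw [Finset.sum_eq_single ⟨k, h⟩]
    · rw [if_pos rfl, one_mul]
      unfold ext0
      rw [dif_pos h]
    · intro j _ hj
      rw [if_neg, zero_mul]
      intro h1
      exact hj (Subtype.ext h1)
    · intro h1
      exact absurd (Finset.mem_univ _) h1
  · unfold ext0
    rw [dif_neg h]
    apply Finset.sum_eq_zero
    intro j _
    rw [if_neg, zero_mul]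
    intro h1
    exact h (h1 ▸ j.2)

theorem mulVec_mat (V : ℤ → ℝ) {a b : ℤ} (v : ↥(Finset.Icc a b) → ℝ) (i : ↥(Finset.Icc a b)) :
    Matrix.mulVec (mat V a b) v i = ext0 v (i + 1) + ext0 v (i - 1) + V i * v i := by
  have h1 : ∀ j : ↥(Finset.Icc a b), mat V a b i j * v j =
      (if (j : ℤ) = i + 1 then (1 : ℝ) else 0) * v j + (if (j : ℤ) = i - 1 then (1 : ℝ) else 0) * v j +
        V i * ((if (j : ℤ) = i then (1 : ℝ) else 0) * v j) := by
    intro j
    unfold mat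
    by_cases h : (j : ℤ) = i
    · rw [if_pos h, if_pos h]; ring
    · rw [if_neg h, if_neg h]; ring
  show ∑ j, mat V a b i j * v j = _
  simp_rw [h1]
  rw [Finset.sum_add_distrib, Finset.sum_add_distrib, ← Finset.mul_sum, sum_ite, sum_ite, sum_ite,
    ext0_mem]

theorem herm (V : ℤ → ℝ) (a b : ℤ) : (mat V a b).IsHermitian := by
  ext i j
  rw [Matrix.conjTranspose_apply]
  simp only [star_trivial]
  unfold mat
  have e1 : ((i : ℤ) = j + 1) ↔ ((j : ℤ) = i - 1) := by constructor <;> intro h <;> omega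
  have e2 : ((i : ℤ) = j - 1) ↔ ((j : ℤ) = i + 1) := by constructor <;> intro h <;> omega
  simp only [e1, e2]
  by_cases h : (i : ℤ) = j
  · rw [if_pos h, if_pos h.symm, h]; ring
  · rw [if_neg h, if_neg (Ne.symm h)]; ring

theorem sum_box {a b : ℤ} (F : ℤ → ℝ) : ∑ n ∈ Finset.Icc a b, F n = ∑ i : ↥(Finset.Icc a b), F i :=
  (Finset.sum_coe_sort (Finset.Icc a b) F).symm

/-- **The spectral theorem for boxes.** -/
theorem spec (V : ℤ → ℝ) (a b : ℤ) (N : ℕ) (hN : (Finset.Icc a b).card = N) :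
    ∃ (e : Fin N → ℝ) (ψ : Fin N → ℤ → ℝ), (∀ j, IsEig V a b (e j) (ψ j)) ∧
      (∀ i j, ∑ n ∈ Finset.Icc a b, ψ i n * ψ j n = if i = j then 1 else 0) ∧
      ∀ f : ℤ → ℝ, (∀ n, n < a ∨ b < n → f n = 0) →
        ∀ n, f n = ∑ j, (∑ m ∈ Finset.Icc a b, ψ j m * f m) * ψ j n := by
  classical
  have hA := herm V a b
  have hc : Fintype.card ↥(Finset.Icc a b) = N := by rw [Fintype.card_coe, hN]
  let σ : Fin N ≃ ↥(Finset.Icc a b) := (Fintype.equivFinOfCardEq hc).symm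
  let B := hA.eigenvectorBasis
  let w : Fin N → ↥(Finset.Icc a b) → ℝ := fun j => ⇑(B (σ j))
  have horth : ∀ i j, ∑ n ∈ Finset.Icc a b, ext0 (w i) n * ext0 (w j) n = if i = j then 1 else 0 := by
    intro i j
    rw [sum_box]
    have h1 := (orthonormal_iff_ite.1 B.orthonormal) (σ i) (σ j)
    rw [PiLp.inner_apply] at h1
    have h2 : (σ i = σ j) ↔ (i = j) := σ.injective.eq_iff
    simp only [h2] at h1
    rw [← h1]
    apply Finset.sum_congr rfl
    intro x _
    rw [ext0_mem, ext0_mem]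
    simp [w, mul_comm]
  refine ⟨fun j => hA.eigenvalues (σ j), fun j => ext0 (w j), ?_, horth, ?_⟩
  · intro j
    refine ⟨fun n hn => ext0_out _ n hn, ?_, ?_⟩
    · have h1 := horth j j
      rw [if_pos rfl] at h1
      unfold nsq
      rw [← h1]
      apply Finset.sum_congr rfl
      intro n _
      ring
    · intro n hn1 hn2
      have hm : n ∈ Finset.Icc a b := Finset.mem_Icc.2 ⟨hn1, hn2⟩
      have h1 := congrFun (hA.mulVec_eigenvectorBasis (σ j)) ⟨n, hm⟩
      have h2 := mulVec_mat V (w j) ⟨n, hm⟩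
      have h3 : Matrix.mulVec (mat V a b) (w j) ⟨n, hm⟩ = hA.eigenvalues (σ j) * w j ⟨n, hm⟩ := h1
      rw [h2] at h3
      have h4 : ext0 (w j) n = w j ⟨n, hm⟩ := ext0_mem (w j) ⟨n, hm⟩
      show ext0 (w j) (n + 1) + ext0 (w j) (n - 1) + V n * ext0 (w j) n =
        hA.eigenvalues (σ j) * ext0 (w j) n
      rw [h4]
      exact h3
  · intro f hf n
    by_cases hn : n ∈ Finset.Icc a b
    · let x : EuclideanSpace ℝ ↥(Finset.Icc a b) := WithLp.toLp 2 fun i => f i
      have h1 := B.sum_repr' x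
      have h2 := congrArg (fun y : EuclideanSpace ℝ ↥(Finset.Icc a b) => y ⟨n, hn⟩) h1
      have h3 : x ⟨n, hn⟩ = f n := rfl
      have h4 : ∀ k : Fin N, inner ℝ (B (σ k)) x = ∑ m ∈ Finset.Icc a b, ext0 (w k) m * f m := by
        intro k
        rw [sum_box, PiLp.inner_apply]
        apply Finset.sum_congr rfl
        intro i _
        rw [ext0_mem]
        simp [w, x, mul_comm]
      have h5 : (∑ i, inner ℝ (B i) x • B i) ⟨n, hn⟩ =
          ∑ j, (∑ m ∈ Finset.Icc a b, ext0 (w j) m * f m) * ext0 (w j) n := by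
        rw [← σ.sum_comp]
        have h6 : ∀ (F : Fin N → EuclideanSpace ℝ ↥(Finset.Icc a b)), (∑ k, F k) ⟨n, hn⟩ = ∑ k, F k ⟨n, hn⟩ := by
          intro F
          simp
        rw [h6]
        apply Finset.sum_congr rfl
        intro k _
        rw [h4 k]
        have h7 : ext0 (w k) n = w k ⟨n, hn⟩ := ext0_mem (w k) ⟨n, hn⟩
        rw [h7]
        rfl
      rw [← h5, ← h3]
      exact h2.symm
    · rw [Finset.mem_Icc] at hn
      have hn' : n < a ∨ b < n := by omega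
      rw [hf n hn']
      symm
      apply Finset.sum_eq_zero
      intro j _
      show _ * ext0 (w j) n = 0
      rw [ext0_out _ n hn', mul_zero]

/-- summation by parts -/
theorem shift {a b : ℤ} (f g : ℤ → ℝ) (hf : ∀ n, n < a ∨ b < n → f n = 0)
    (hg : ∀ n, n < a ∨ b < n → g n = 0) :
    ∑ n ∈ Finset.Icc a b, f (n + 1) * g n = ∑ n ∈ Finset.Icc a b, f n * g (n - 1) := by
  have h1 : ∑' n : ℤ, f (n + 1) * g n = ∑ n ∈ Finset.Icc a b, f (n + 1) * g n := by
    apply tsum_eq_sum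
    intro n hn
    rw [Finset.mem_Icc] at hn
    rw [hg n (by omega), mul_zero]
  have h2 : ∑' n : ℤ, f n * g (n - 1) = ∑ n ∈ Finset.Icc a b, f n * g (n - 1) := by
    apply tsum_eq_sum
    intro n hn
    rw [Finset.mem_Icc] at hn
    rw [hf n (by omega), zero_mul]
  rw [← h1, ← h2]
  rw [← (Equiv.addRight (1 : ℤ)).tsum_eq (fun n => f n * g (n - 1))]
  apply tsum_congr
  intro n
  simp

/-- the box operator -/
noncomputable def H (V f : ℤ → ℝ) (n : ℤ) : ℝ := f (n + 1) + f (n - 1) + V n * f n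

/-- symmetry -/
theorem symm {a b : ℤ} (V f g : ℤ → ℝ) (hf : ∀ n, n < a ∨ b < n → f n = 0)
    (hg : ∀ n, n < a ∨ b < n → g n = 0) :
    ∑ n ∈ Finset.Icc a b, H V f n * g n = ∑ n ∈ Finset.Icc a b, f n * H V g n := by
  have h1 := shift f g hf hg
  have h2 := shift g f hg hf
  have e1 : ∑ n ∈ Finset.Icc a b, H V f n * g n = ∑ n ∈ Finset.Icc a b, f (n + 1) * g n +
      ∑ n ∈ Finset.Icc a b, g n * f (n - 1) + ∑ n ∈ Finset.Icc a b, V n * f n * g n := by
    rw [← Finset.sum_add_distrib, ← Finset.sum_add_distrib]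
    apply Finset.sum_congr rfl
    intro n _
    unfold H
    ring
  have e2 : ∑ n ∈ Finset.Icc a b, f n * H V g n = ∑ n ∈ Finset.Icc a b, g (n + 1) * f n +
      ∑ n ∈ Finset.Icc a b, f n * g (n - 1) + ∑ n ∈ Finset.Icc a b, V n * f n * g n := by
    rw [← Finset.sum_add_distrib, ← Finset.sum_add_distrib]
    apply Finset.sum_congr rfl
    intro n _
    unfold H
    ring
  rw [e1, e2, h1, h2]
  ring

/-- coefficients -/
theorem coef {a b : ℤ} {V ψ f : ℤ → ℝ} {e : ℝ} (hψ : IsEig V a b e ψ)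
    (hf : ∀ n, n < a ∨ b < n → f n = 0) (E : ℝ) :
    ∑ n ∈ Finset.Icc a b, ψ n * (H V f n - E * f n) = (e - E) * ∑ n ∈ Finset.Icc a b, ψ n * f n := by
  have h1 := symm V ψ f hψ.1 hf
  have h2 : ∑ n ∈ Finset.Icc a b, H V ψ n * f n = e * ∑ n ∈ Finset.Icc a b, ψ n * f n := by
    rw [Finset.mul_sum]
    apply Finset.sum_congr rfl
    intro n hn
    rw [Finset.mem_Icc] at hn
    have h3 : H V ψ n = e * ψ n := hψ.2.2 n hn.1 hn.2
    rw [h3]
    ring
  have h3 : ∑ n ∈ Finset.Icc a b, ψ n * (H V f n - E * f n) =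
      ∑ n ∈ Finset.Icc a b, ψ n * H V f n - E * ∑ n ∈ Finset.Icc a b, ψ n * f n := by
    rw [Finset.mul_sum, ← Finset.sum_sub_distrib]
    apply Finset.sum_congr rfl
    intro n _
    ring
  rw [h3, ← h1, h2]
  ring

/-- Parseval for finite orthonormal systems -/
theorem parseval {a b : ℤ} {N : ℕ} {ψ : Fin N → ℤ → ℝ}
    (h : ∀ i j, ∑ n ∈ Finset.Icc a b, ψ i n * ψ j n = if i = j then 1 else 0) (c : Fin N → ℝ) :
    ∑ n ∈ Finset.Icc a b, (∑ j, c j * ψ j n) ^ 2 = ∑ j, c j ^ 2 := by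
  have h1 : ∀ n, (∑ j, c j * ψ j n) ^ 2 = ∑ i, ∑ j, c i * c j * (ψ i n * ψ j n) := by
    intro n
    rw [sq, Finset.sum_mul_sum]
    apply Finset.sum_congr rfl
    intro i _
    apply Finset.sum_congr rfl
    intro j _
    ring
  simp_rw [h1]
  rw [Finset.sum_comm]
  apply Finset.sum_congr rfl
  intro i _
  rw [Finset.sum_comm]
  simp_rw [← Finset.mul_sum, h i]
  simp [sq]

/-- the squared norm from the coefficients -/
theorem nsq_eq {a b : ℤ} {N : ℕ} {ψ : Fin N → ℤ → ℝ}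
    (h : ∀ i j, ∑ n ∈ Finset.Icc a b, ψ i n * ψ j n = if i = j then 1 else 0) {f : ℤ → ℝ}
    (hf : ∀ n, f n = ∑ j, (∑ m ∈ Finset.Icc a b, ψ j m * f m) * ψ j n) :
    nsq a b f = ∑ j, (∑ m ∈ Finset.Icc a b, ψ j m * f m) ^ 2 := by
  have h1 := parseval h (fun j => ∑ m ∈ Finset.Icc a b, ψ j m * f m)
  rw [← h1]
  unfold nsq
  apply Finset.sum_congr rfl
  intro n _
  rw [← hf n]

end Pool.Agent.PP27.Spec
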