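import Pool.Agent.PP27.Spec

set_option autoImplicit false

open scoped BigOperators
open Pool.Agent.H695R3.PP Pool.Agent.PP27.Spec

namespace Pool.Agent.PP27.TaskApprox

/-- Approximate eigenvectors give eigenvalues. -/
theorem main : Pool.Agent.H695R3.PP.TaskApprox := by
  classical
  intro V a b E δ f hδ hf hpos hle
  obtain ⟨e, ψ, h1, h2, h3⟩ := spec V a b (Finset.Icc a b).card rfl
  by_contra hcon
  push Not at hcon
  have hfar : ∀ j, δ < |e j - E| := fun j => hcon (e j) (ψ j) (h1 j)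
  let g : ℤ → ℝ := fun n => if n ∈ Finset.Icc a b then H V f n - E * f n else 0
  have hg : ∀ n, n < a ∨ b < n → g n = 0 := by
    intro n hn
    show (if n ∈ Finset.Icc a b then H V f n - E * f n else 0) = 0
    rw [if_neg]
    rw [Finset.mem_Icc]
    omega
  have hgc : ∀ j, ∑ m ∈ Finset.Icc a b, ψ j m * g m =
      (e j - E) * ∑ m ∈ Finset.Icc a b, ψ j m * f m := by
    intro j
    rw [← coef (h1 j) hf E]
    apply Finset.sum_congr rfl
    intro n hn
    show ψ j n * (if n ∈ Finset.Icc a b then H V f n - E * f n else 0) = _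
    rw [if_pos hn]
  have hg2 : nsq a b g = ∑ n ∈ Finset.Icc a b, (f (n + 1) + f (n - 1) + V n * f n - E * f n) ^ 2 := by
    unfold nsq
    apply Finset.sum_congr rfl
    intro n hn
    show (if n ∈ Finset.Icc a b then H V f n - E * f n else 0) ^ 2 = _
    rw [if_pos hn]
    rfl
  have e1 := nsq_eq h2 (h3 f hf)
  have e2 := nsq_eq h2 (h3 g hg)
  simp_rw [hgc] at e2
  rw [← hg2, e2, e1] at hle
  rw [e1] at hpos
  obtain ⟨j, _, hj⟩ : ∃ j ∈ (Finset.univ : Finset (Fin (Finset.Icc a b).card)),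
      0 < (∑ m ∈ Finset.Icc a b, ψ j m * f m) ^ 2 := by
    by_contra hno
    push Not at hno
    have := Finset.sum_nonpos hno
    linarith
  have hlt : δ ^ 2 * ∑ j, (∑ m ∈ Finset.Icc a b, ψ j m * f m) ^ 2 <
      ∑ j, ((e j - E) * ∑ m ∈ Finset.Icc a b, ψ j m * f m) ^ 2 := by
    rw [Finset.mul_sum]
    have hsq : ∀ j, δ ^ 2 < (e j - E) ^ 2 := by
      intro j
      rw [← sq_abs (e j - E)]
      exact pow_lt_pow_left₀ (hfar j) hδ (by norm_num)
    refine Finset.sum_lt_sum (fun i _ => ?_) ⟨j, Finset.mem_univ _, ?_⟩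
    · rw [mul_pow]
      exact mul_le_mul_of_nonneg_right (hsq i).le (sq_nonneg _)
    · rw [mul_pow]
      exact mul_lt_mul_of_pos_right (hsq j) hj
  linarith

end Pool.Agent.PP27.TaskApprox
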