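import Pool.Agent.PP27.Base333

/-!
# Simple properties of averages
-/

set_option autoImplicit false

open MeasureTheory Set
open scoped ENNReal

namespace Pool.Agent.PP27.TaskAvg

open Pool.Agent.H695R3.PP Pool.Agent.PP27.Base333

theorem ae_U : ∀ᵐ s ∂U, s ∈ Icc (-1 : ℝ) 1 := by
  unfold U
  apply Measure.ae_smul_measure
  exact ae_restrict_mem measurableSet_Icc

theorem main : TaskAvg := by
  intro ε g hε hε1 hg
  have hJ := fun x => sq_avg_le hg ε x
  have hloc : ∀ (s : ℝ), s ∈ Icc (-1 : ℝ) 1 → ∀ c : ℝ,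
      ∫⁻ y in Icc (c - 1) (c + 1), g (y + ε * s) ^ 2 ≤ ∫⁻ y in Icc (c - 2) (c + 2), g y ^ 2 := by
    intro s hs c
    have h2 : ∫⁻ y, (Icc (c - 2) (c + 2)).indicator (fun x => g x ^ 2) (y + ε * s) =
        ∫⁻ y, (Icc (c - 2) (c + 2)).indicator (fun x => g x ^ 2) y :=
      lintegral_add_right_eq_self _ (ε * s)
    rw [lintegral_indicator measurableSet_Icc] at h2
    rw [← h2, ← lintegral_indicator measurableSet_Icc]
    apply lintegral_mono
    intro y
    by_cases hy : y ∈ Icc (c - 1) (c + 1)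
    · have h3 : |ε * s| ≤ 1 := by
        rw [abs_mul, abs_of_pos hε]
        have : |s| ≤ 1 := abs_le.mpr hs
        nlinarith [abs_nonneg s]
      have h4 := abs_le.mp h3
      have hy' : y + ε * s ∈ Icc (c - 2) (c + 2) := ⟨by linarith [hy.1], by linarith [hy.2]⟩
      simp [indicator_of_mem hy, indicator_of_mem hy']
    · simp [indicator_of_notMem hy]
  refine ⟨measurable_avg hg ε, ?_, ?_, ?_⟩
  · have h := key hg ε
    have h2 : 2 * nsqL (avg ε g) ≤ 2 * nsqL g := by rw [h]; exact le_self_add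
    exact (ENNReal.mul_le_mul_iff_right (by norm_num) (by norm_num)).mp h2
  · intro c
    calc ∫⁻ y in Icc (c - 1) (c + 1), avg ε g y ^ 2
        ≤ ∫⁻ y in Icc (c - 1) (c + 1), ∫⁻ s, g (y + ε * s) ^ 2 ∂U := lintegral_mono fun y => hJ y
      _ = ∫⁻ s, (∫⁻ y in Icc (c - 1) (c + 1), g (y + ε * s) ^ 2) ∂U := by
          rw [lintegral_lintegral_swap]
          exact (by fun_prop : Measurable fun p : ℝ × ℝ => g (p.1 + ε * p.2) ^ 2).aemeasurable
      _ ≤ ∫⁻ _s : ℝ, (∫⁻ y in Icc (c - 2) (c + 2), g y ^ 2) ∂U := by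
          apply lintegral_mono_ae
          filter_upwards [ae_U] with s hs
          exact hloc s hs c
      _ = _ := by rw [lintegral_const, measure_univ, mul_one]
  · intro x
    have h1 : ∫⁻ s, g (x + ε * s) ^ 2 ∂U ≤ ENNReal.ofReal (1 / ε) * nsqL g := by
      have h2 : ∫⁻ s, g (x + ε * s) ^ 2 ∂U ≤ ENNReal.ofReal (1 / 2) * ∫⁻ s, g (x + ε * s) ^ 2 := by
        unfold U
        rw [lintegral_smul_measure, smul_eq_mul]
        gcongr
        exact Measure.restrict_le_self
      have h3 : ∫⁻ s, g (x + ε * s) ^ 2 = ENNReal.ofReal (1 / ε) * nsqL g := by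
        have h4 : Measure.map (fun s : ℝ => ε * s) volume = ENNReal.ofReal |ε⁻¹| • volume :=
          Real.map_volume_mul_left hε.ne'
        have h5 : ∫⁻ s, g (x + ε * s) ^ 2 = ∫⁻ s, (fun s => g (x + s) ^ 2) s
            ∂(Measure.map (fun s : ℝ => ε * s) volume) := by
          rw [lintegral_map (by fun_prop) (by fun_prop)]
        rw [h5, h4, lintegral_smul_measure, smul_eq_mul, abs_of_pos (inv_pos.mpr hε), one_div]
        congr 1
        exact lintegral_add_left_eq_self (fun s => g s ^ 2) x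
      refine h2.trans ?_
      rw [h3]
      calc ENNReal.ofReal (1 / 2) * (ENNReal.ofReal (1 / ε) * nsqL g)
          ≤ 1 * (ENNReal.ofReal (1 / ε) * nsqL g) := by
            gcongr
            rw [← ENNReal.ofReal_one]
            exact ENNReal.ofReal_le_ofReal (by norm_num)
        _ = _ := one_mul _
    have h2 : avg ε g x ^ 2 ≤ ENNReal.ofReal (1 / ε) * nsqL g := (hJ x).trans h1
    have h3 : avg ε g x = (avg ε g x ^ 2) ^ (1 / 2 : ℝ) := by
      rw [← ENNReal.rpow_natCast, ← ENNReal.rpow_mul]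
      norm_num
    rw [h3]
    refine (ENNReal.rpow_le_rpow h2 (by norm_num)).trans (le_of_eq ?_)
    rw [ENNReal.mul_rpow_of_nonneg _ _ (by norm_num)]
    congr 1
    rw [ENNReal.ofReal_rpow_of_pos (by positivity)]
    congr 1
    rw [← Real.sqrt_eq_rpow, Real.sqrt_div zero_le_one, Real.sqrt_one]

end Pool.Agent.PP27.TaskAvg
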