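import Pool.Agent.PP27.Spec

set_option autoImplicit false

open scoped BigOperators
open Pool.Agent.H695R3.PP Pool.Agent.PP27.Spec

namespace Pool.Agent.PP27.TaskCard

/-- The eigenvalues of a box are finitely many. -/
theorem main : Pool.Agent.H695R3.PP.TaskCard := by
  classical
  intro V a b hab
  obtain ⟨e, ψ, h1, h2, h3⟩ := spec V a b (Finset.Icc a b).card rfl
  refine ⟨Finset.univ.image e, ?_, ?_⟩
  · have h4 : (Finset.univ.image e).card ≤ (Finset.Icc a b).card := by
      refine Finset.card_image_le.trans ?_
      simp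
    have h5 : ((Finset.Icc a b).card : ℤ) = b - a + 1 := by
      rw [Int.card_Icc]
      omega
    rw [← h5]
    exact_mod_cast h4
  · intro E φ hφ
    by_contra hE
    have hz : ∀ j, ∑ m ∈ Finset.Icc a b, ψ j m * φ m = 0 := by
      intro j
      have h5 := coef (h1 j) hφ.1 E
      have h6 : ∑ n ∈ Finset.Icc a b, ψ j n * (H V φ n - E * φ n) = 0 := by
        apply Finset.sum_eq_zero
        intro n hn
        rw [Finset.mem_Icc] at hn
        have h7 : H V φ n = E * φ n := hφ.2.2 n hn.1 hn.2
        rw [h7, sub_self, mul_zero]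
      rw [h6] at h5
      have h7 : e j - E ≠ 0 := by
        intro h8
        apply hE
        rw [Finset.mem_image]
        exact ⟨j, Finset.mem_univ _, by linarith⟩
      exact (mul_eq_zero.1 h5.symm).resolve_left h7
    have h8 := nsq_eq h2 (h3 φ hφ.1)
    rw [hφ.2.1] at h8
    simp [hz] at h8

end Pool.Agent.PP27.TaskCard
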