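import Pool.Agent.PP27.TaskStep

set_option autoImplicit false

open Pool.Agent.H695R3.PP Filter Topology

namespace Pool.Agent.PP27.TaskChain

/-- A sequence from a step relation. -/
lemma exists_seq {α : Type} (P : ℕ → α → Prop) (R : ℕ → α → α → Prop)
    (h : ∀ j p, P j p → ∃ p', P (j + 1) p' ∧ R j p p') (p₀ : α) (h0 : P 0 p₀) :
    ∃ f : ℕ → α, f 0 = p₀ ∧ (∀ j, P j (f j)) ∧ ∀ j, R j (f j) (f (j + 1)) := by
  classical
  choose! g hg hR using h
  let f : ℕ → α := fun n => Nat.rec p₀ (fun j p => g j p) n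
  have hf : ∀ j, f (j + 1) = g j (f j) := fun j => rfl
  have hP : ∀ j, P j (f j) := by
    intro j
    induction j with
    | zero => exact h0
    | succ j ih => rw [hf]; exact hg j _ ih
  refine ⟨f, rfl, hP, fun j => ?_⟩
  rw [hf]
  exact hR j _ (hP j)

/-- The norm on a finite set. -/
noncomputable def nF (F : Finset ℤ) (g : ℤ → ℝ) : ℝ :=
  ‖(WithLp.toLp 2 (fun n : F => g n) : EuclideanSpace ℝ F)‖

lemma nF_sq (F : Finset ℤ) (g : ℤ → ℝ) : nF F g ^ 2 = ∑ n ∈ F, g n ^ 2 := by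
  unfold nF
  rw [EuclideanSpace.norm_sq_eq, ← Finset.sum_coe_sort F]
  apply Finset.sum_congr rfl
  intro n _
  rw [Real.norm_eq_abs, sq_abs]

lemma nF_nonneg (F : Finset ℤ) (g : ℤ → ℝ) : 0 ≤ nF F g := norm_nonneg _

lemma nF_add (F : Finset ℤ) (g h : ℤ → ℝ) : nF F (fun n => g n + h n) ≤ nF F g + nF F h := by
  unfold nF
  exact norm_add_le (WithLp.toLp 2 (fun n : F => g n) : EuclideanSpace ℝ F)
    (WithLp.toLp 2 (fun n : F => h n) : EuclideanSpace ℝ F)

lemma nF_le (F : Finset ℤ) (g : ℤ → ℝ) (c : ℝ) (hc : 0 ≤ c) (h : ∑ n ∈ F, g n ^ 2 ≤ c ^ 2) :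
    nF F g ≤ c := by
  rw [← nF_sq] at h
  exact (sq_le_sq₀ (nF_nonneg F g) hc).1 h

theorem main : Pool.Agent.H695R3.PP.TaskChain := by
  intro V L a τ d k₀ hL hpos hb1 hb2 h4 ha hsd hsτ E ψ hψ hψ0
  -- the sequence
  obtain ⟨f, hf0, hP, hR⟩ := exists_seq (α := ℝ × (ℤ → ℝ))
    (fun j p => IsEig V (-(L (k₀ + j) : ℤ)) (L (k₀ + j)) p.1 p.2 ∧ a (k₀ + j) ≤ |p.2 0|)
    (fun j p p' => |p'.1 - p.1| ≤ 2 * τ (k₀ + j) ∧
      ∑ n ∈ Finset.Icc (-(L (k₀ + (j + 1)) : ℤ)) (L (k₀ + (j + 1))), (p.2 n - p'.2 n) ^ 2 ≤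
        (4 * τ (k₀ + j) / d (k₀ + j + 1)) ^ 2)
    (by
      rintro j ⟨E', ψ'⟩ ⟨h1, h2⟩
      simp only at h1 h2
      have hk : k₀ ≤ k₀ + j := Nat.le_add_right _ _
      have hn1 := hb1 (k₀ + j) hk
      have hs1 : |ψ' (L (k₀ + j))| ≤ τ (k₀ + j) := by
        by_contra hcon
        push Not at hcon
        exact hn1 ⟨E', ψ', h1, h2, Or.inl hcon.le⟩
      have hs2 : |ψ' (-(L (k₀ + j) : ℤ))| ≤ τ (k₀ + j) := by
        by_contra hcon
        push Not at hcon
        exact hn1 ⟨E', ψ', h1, h2, Or.inr hcon.le⟩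
      obtain ⟨E'', φ, h3, h5, h6⟩ := TaskStep.main V (L (k₀ + j)) (L (k₀ + j + 1)) E'
        (τ (k₀ + j)) (d (k₀ + j + 1)) ψ' (hL (Nat.lt_succ_self _)) (hpos _).2.1 (h4 _ hk)
        (hb2 _ hk) h1 hs1 hs2
      refine ⟨(E'', φ), ⟨h3, ?_⟩, h5, h6⟩
      have hdp : 0 < d (k₀ + j + 1) := (hpos _).2.2
      have hτp : 0 < τ (k₀ + j) := (hpos _).2.1
      have h7 : (ψ' 0 - φ 0) ^ 2 ≤ (4 * τ (k₀ + j) / d (k₀ + j + 1)) ^ 2 := by
        refine le_trans ?_ h6
        apply Finset.single_le_sum (f := fun n => (ψ' n - φ n) ^ 2) (fun _ _ => sq_nonneg _)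
        rw [Finset.mem_Icc]
        omega
      have h8 : |ψ' 0 - φ 0| ≤ 4 * τ (k₀ + j) / d (k₀ + j + 1) :=
        abs_le_of_sq_le_sq h7 (by positivity)
      have h9 := ha (k₀ + j) hk
      have h10 : |ψ' 0| ≤ |ψ' 0 - φ 0| + |φ 0| := by
        have := abs_add_le (ψ' 0 - φ 0) (φ 0)
        rwa [sub_add_cancel] at this
      show a (k₀ + (j + 1)) ≤ |φ 0|
      rw [show k₀ + (j + 1) = k₀ + j + 1 from rfl]
      linarith)
    (E, ψ) ⟨hψ, hψ0⟩
  set δ : ℕ → ℝ := fun j => 4 * τ (k₀ + j) / d (k₀ + j + 1) with hδ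
  have hδ0 : ∀ j, 0 ≤ δ j := fun j => by
    have h1 : 0 < d (k₀ + j + 1) := (hpos _).2.2
    have h2 : 0 < τ (k₀ + j) := (hpos _).2.1
    rw [hδ]
    positivity
  have hδs' : Summable fun j => τ (k₀ + j) / d (k₀ + j + 1) := by
    have := (summable_nat_add_iff k₀).2 hsd
    refine this.congr fun j => ?_
    rw [add_comm j k₀]
  have hδs : Summable δ := by
    refine (hδs'.mul_left 4).congr fun j => ?_
    rw [hδ]
    ring
  have hδt : ∑' j, δ j = 4 * ∑' j, τ (k₀ + j) / d (k₀ + j + 1) := by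
    rw [← tsum_mul_left]
    apply tsum_congr
    intro j
    rw [hδ]
    ring
  -- differences on a finite set
  have hdiff : ∀ (F : Finset ℤ) (j : ℕ), nF F (fun n => (f j).2 n - (f (j + 1)).2 n) ≤ δ j := by
    intro F j
    apply nF_le _ _ _ (hδ0 j)
    refine le_trans ?_ (hR j).2
    have hz : ∀ n, n ∉ Finset.Icc (-(L (k₀ + (j + 1)) : ℤ)) (L (k₀ + (j + 1))) →
        ((f j).2 n - (f (j + 1)).2 n) ^ 2 = 0 := by
      intro n hn
      rw [Finset.mem_Icc] at hn
      have hLL : L (k₀ + j) < L (k₀ + (j + 1)) := hL (by omega)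
      rw [(hP j).1.1 n (by omega), (hP (j + 1)).1.1 n (by omega)]
      norm_num
    calc ∑ n ∈ F, ((f j).2 n - (f (j + 1)).2 n) ^ 2
        = ∑ n ∈ F.filter (fun n => n ∈ Finset.Icc (-(L (k₀ + (j + 1)) : ℤ)) (L (k₀ + (j + 1)))),
            ((f j).2 n - (f (j + 1)).2 n) ^ 2 := by
          rw [Finset.sum_filter]
          apply Finset.sum_congr rfl
          intro n _
          by_cases hn : n ∈ Finset.Icc (-(L (k₀ + (j + 1)) : ℤ)) (L (k₀ + (j + 1)))
          · rw [if_pos hn]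
          · rw [if_neg hn, hz n hn]
      _ ≤ _ := by
          apply Finset.sum_le_sum_of_subset_of_nonneg
          · intro n hn
            exact (Finset.mem_filter.1 hn).2
          · intro _ _ _
            exact sq_nonneg _
  have hcum : ∀ (F : Finset ℤ) (j : ℕ), nF F (fun n => ψ n - (f j).2 n) ≤
      ∑ i ∈ Finset.range j, δ i := by
    intro F j
    induction j with
    | zero =>
      rw [Finset.sum_range_zero, hf0]
      apply nF_le _ _ _ le_rfl
      simp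
    | succ j ih =>
      rw [Finset.sum_range_succ]
      have h1 : (fun n => ψ n - (f (j + 1)).2 n) =
          fun n => (ψ n - (f j).2 n) + ((f j).2 n - (f (j + 1)).2 n) := by
        funext n
        ring
      rw [h1]
      exact (nF_add F _ _).trans (add_le_add ih (hdiff F j))
  set Δ : ℝ := ∑' j, δ j with hΔ
  have hcum' : ∀ (F : Finset ℤ) (j : ℕ), ∑ n ∈ F, (ψ n - (f j).2 n) ^ 2 ≤ Δ ^ 2 := by
    intro F j
    rw [← nF_sq]
    apply pow_le_pow_left₀ (nF_nonneg _ _)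
    exact (hcum F j).trans (hδs.sum_le_tsum _ fun i _ => hδ0 i)
  -- limits
  have hE : CauchySeq fun j => (f j).1 := by
    apply cauchySeq_of_dist_le_of_summable (fun j => 2 * τ (k₀ + j))
    · intro j
      rw [Real.dist_eq, abs_sub_comm]
      exact (hR j).1
    · have := (summable_nat_add_iff k₀).2 hsτ
      exact (this.mul_left 2).congr fun j => by rw [add_comm j k₀]
  have hψc : ∀ n, CauchySeq fun j => (f j).2 n := by
    intro n
    apply cauchySeq_of_dist_le_of_summable δ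
    · intro j
      rw [Real.dist_eq]
      have h1 := hdiff {n} j
      have h2 := nF_sq {n} (fun n => (f j).2 n - (f (j + 1)).2 n)
      rw [Finset.sum_singleton] at h2
      apply abs_le_of_sq_le_sq _ (hδ0 j)
      rw [← h2]
      exact pow_le_pow_left₀ (nF_nonneg _ _) h1 2
    · exact hδs
  obtain ⟨e, he⟩ := cauchySeq_tendsto_of_complete hE
  choose φ hφ using fun n => cauchySeq_tendsto_of_complete (hψc n)
  have hbound : ∀ F : Finset ℤ, ∑ n ∈ F, (ψ n - φ n) ^ 2 ≤ Δ ^ 2 := by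
    intro F
    have h1 : Tendsto (fun j => ∑ n ∈ F, (ψ n - (f j).2 n) ^ 2) atTop
        (𝓝 (∑ n ∈ F, (ψ n - φ n) ^ 2)) := by
      apply tendsto_finsetSum
      intro n _
      exact (tendsto_const_nhds.sub (hφ n)).pow 2
    exact le_of_tendsto' h1 fun j => hcum' F j
  have hsum : Summable fun n => (ψ n - φ n) ^ 2 :=
    summable_of_sum_le (fun n => sq_nonneg _) hbound
  have hψsum : Summable fun n => ψ n ^ 2 := by
    apply summable_of_ne_finset_zero (s := Finset.Icc (-(L k₀ : ℤ)) (L k₀))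
    intro n hn
    rw [Finset.mem_Icc] at hn
    rw [hψ.1 n (by omega)]
    norm_num
  refine ⟨e, φ, ?_, ?_, hsum, ?_⟩
  · apply Summable.of_nonneg_of_le (fun n => sq_nonneg _) _
      ((hψsum.mul_left 2).add (hsum.mul_left 2))
    intro n
    nlinarith [sq_nonneg (2 * ψ n - φ n)]
  · intro n
    have h1 : Tendsto (fun j => (f j).2 (n + 1) + (f j).2 (n - 1) + V n * (f j).2 n) atTop
        (𝓝 (φ (n + 1) + φ (n - 1) + V n * φ n)) :=
      ((hφ (n + 1)).add (hφ (n - 1))).add ((hφ n).const_mul (V n))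
    have h2 : Tendsto (fun j => (f j).1 * (f j).2 n) atTop (𝓝 (e * φ n)) := he.mul (hφ n)
    apply tendsto_nhds_unique_of_eventuallyEq h1 h2
    filter_upwards [eventually_ge_atTop n.natAbs] with j hj
    have h3 : k₀ + j ≤ L (k₀ + j) := hL.le_apply
    apply (hP j).1.2.2 n
    · omega
    · omega
  · rw [← hδt]
    exact Real.tsum_le_of_sum_le (fun n => sq_nonneg _) hbound

end Pool.Agent.PP27.TaskChain
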