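import Pool.Agent.H695R3.PP.Stmts

set_option autoImplicit false

open scoped BigOperators ENNReal
open MeasureTheory

namespace Pool.Agent.PP27.TaskClosed

open Pool.Agent.H695R3.PP

/-- The eigenvector condition is closed. -/
theorem isClosed_isEig {X : Type*} [TopologicalSpace X] (a b : ℤ) (f : X → ℤ → ℝ) (g : X → ℝ)
    (h : X → ℤ → ℝ) (hf : Continuous f) (hg : Continuous g) (hh : Continuous h) :
    IsClosed {x : X | IsEig (f x) a b (g x) (h x)} := by
  have hf' : ∀ n, Continuous fun x => f x n := fun n => (continuous_apply n).comp hf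
  have hh' : ∀ n, Continuous fun x => h x n := fun n => (continuous_apply n).comp hh
  have h1 : IsClosed {x : X | ∀ n, n < a ∨ b < n → h x n = 0} := by
    simp only [Set.ofPred_forall]
    exact isClosed_iInter fun n => isClosed_iInter fun _ => isClosed_eq (hh' n) continuous_const
  have h2 : IsClosed {x : X | nsq a b (h x) = 1} := by
    refine isClosed_eq ?_ continuous_const
    unfold nsq
    exact continuous_finsetSum _ fun n _ => (hh' n).pow 2
  have h3 : IsClosed {x : X | ∀ n, a ≤ n → n ≤ b →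
      h x (n + 1) + h x (n - 1) + f x n * h x n = g x * h x n} := by
    simp only [Set.ofPred_forall]
    refine isClosed_iInter fun n => isClosed_iInter fun _ => isClosed_iInter fun _ => ?_
    exact isClosed_eq ((((hh' (n + 1)).add (hh' (n - 1)))).add ((hf' n).mul (hh' n)))
      (hg.mul (hh' n))
  have := (h1.inter h2).inter h3
  convert this using 1
  ext x
  simp only [IsEig, Set.mem_ofPred_eq, Set.mem_inter_iff]
  tauto

/-- The entries of a normalised eigenvector are at most one. -/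
theorem abs_le_one {V : ℤ → ℝ} {a b : ℤ} {E : ℝ} {ψ : ℤ → ℝ} (h : IsEig V a b E ψ) (n : ℤ) :
    ψ n ∈ Set.Icc (-1 : ℝ) 1 := by
  have key : ψ n ^ 2 ≤ 1 := by
    by_cases hn : n < a ∨ b < n
    · rw [h.1 n hn]; norm_num
    · push Not at hn
      have := h.2.1
      unfold nsq at this
      rw [← this]
      exact Finset.single_le_sum (f := fun n => ψ n ^ 2) (fun i _ => sq_nonneg _)
        (Finset.mem_Icc.2 hn)
  rw [Set.mem_Icc, ← abs_le]
  exact (sq_le_one_iff_abs_le_one _).1 key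

/-- The compact set of candidates. -/
def K (R : ℝ) : Set (ℝ × (ℤ → ℝ)) :=
  Set.Icc (-R) R ×ˢ Set.univ.pi (fun _ : ℤ => Set.Icc (-1 : ℝ) 1)

theorem isCompact_K (R : ℝ) : IsCompact (K R) :=
  isCompact_Icc.prod (isCompact_univ_pi fun _ => isCompact_Icc)

theorem mem_K {V : ℤ → ℝ} {a b : ℤ} {E R : ℝ} {ψ : ℤ → ℝ} (h : IsEig V a b E ψ) (hE : |E| ≤ R) :
    (E, ψ) ∈ K R :=
  ⟨abs_le.1 hE, fun n _ => abs_le_one h n⟩

theorem main : Pool.Agent.H695R3.PP.TaskClosed := by
  intro a b R C hC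
  haveI : CompactSpace (K R) := isCompact_iff_compactSpace.1 (isCompact_K R)
  have hcl : IsClosed {p : K R × (ℤ → ℝ) | IsEig p.2 a b p.1.1.1 p.1.1.2 ∧ (p.1.1, p.2) ∈ C} := by
    have h1 : IsClosed {p : K R × (ℤ → ℝ) | IsEig p.2 a b p.1.1.1 p.1.1.2} :=
      isClosed_isEig a b (fun p : K R × (ℤ → ℝ) => p.2) (fun p => p.1.1.1) (fun p => p.1.1.2)
        continuous_snd (continuous_fst.comp (continuous_subtype_val.comp continuous_fst))
        (continuous_snd.comp (continuous_subtype_val.comp continuous_fst))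
    have h2 : IsClosed {p : K R × (ℤ → ℝ) | (p.1.1, p.2) ∈ C} :=
      hC.preimage ((continuous_subtype_val.comp continuous_fst).prodMk continuous_snd)
    exact h1.inter h2
  have himg := isClosedMap_snd_of_compactSpace (X := K R) (Y := ℤ → ℝ) _ hcl
  convert himg using 1
  ext V
  simp only [Set.mem_ofPred_eq, Set.mem_image]
  constructor
  · rintro ⟨E, ψ, hE, hψ, hmem⟩
    exact ⟨(⟨(E, ψ), mem_K hψ hE⟩, V), ⟨hψ, hmem⟩, rfl⟩
  · rintro ⟨⟨⟨⟨E, ψ⟩, hK⟩, V'⟩, ⟨hψ, hmem⟩, rfl⟩
    exact ⟨E, ψ, abs_le.2 hK.1, hψ, hmem⟩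

end Pool.Agent.PP27.TaskClosed
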