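import Pool.Agent.PP27.TaskClosed

set_option autoImplicit false

open scoped BigOperators ENNReal
open MeasureTheory

namespace Pool.Agent.PP27.TaskClosed2

open Pool.Agent.H695R3.PP Pool.Agent.PP27.TaskClosed

theorem main : Pool.Agent.H695R3.PP.TaskClosed2 := by
  intro a b a' b' R C hC
  haveI : CompactSpace (K R) := isCompact_iff_compactSpace.1 (isCompact_K R)
  have c1 : Continuous fun p : (K R × K R) × (ℤ → ℝ) => p.1.1.1 :=
    continuous_subtype_val.comp (continuous_fst.comp continuous_fst)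
  have c2 : Continuous fun p : (K R × K R) × (ℤ → ℝ) => p.1.2.1 :=
    continuous_subtype_val.comp (continuous_snd.comp continuous_fst)
  have hcl : IsClosed {p : (K R × K R) × (ℤ → ℝ) | (IsEig p.2 a b p.1.1.1.1 p.1.1.1.2 ∧
      IsEig p.2 a' b' p.1.2.1.1 p.1.2.1.2) ∧ (p.1.1.1, p.1.2.1) ∈ C} := by
    have h1 : IsClosed {p : (K R × K R) × (ℤ → ℝ) | IsEig p.2 a b p.1.1.1.1 p.1.1.1.2} :=
      isClosed_isEig a b (fun p : (K R × K R) × (ℤ → ℝ) => p.2) (fun p => p.1.1.1.1)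
        (fun p => p.1.1.1.2) continuous_snd (continuous_fst.comp c1) (continuous_snd.comp c1)
    have h2 : IsClosed {p : (K R × K R) × (ℤ → ℝ) | IsEig p.2 a' b' p.1.2.1.1 p.1.2.1.2} :=
      isClosed_isEig a' b' (fun p : (K R × K R) × (ℤ → ℝ) => p.2) (fun p => p.1.2.1.1)
        (fun p => p.1.2.1.2) continuous_snd (continuous_fst.comp c2) (continuous_snd.comp c2)
    have h3 : IsClosed {p : (K R × K R) × (ℤ → ℝ) | (p.1.1.1, p.1.2.1) ∈ C} :=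
      hC.preimage (c1.prodMk c2)
    exact (h1.inter h2).inter h3
  have himg := isClosedMap_snd_of_compactSpace (X := K R × K R) (Y := ℤ → ℝ) _ hcl
  convert himg using 1
  ext V
  simp only [Set.mem_ofPred_eq, Set.mem_image]
  constructor
  · rintro ⟨E, ψ, E', ψ', hE, hE', hψ, hψ', hmem⟩
    exact ⟨((⟨(E, ψ), mem_K hψ hE⟩, ⟨(E', ψ'), mem_K hψ' hE'⟩), V), ⟨⟨hψ, hψ'⟩, hmem⟩, rfl⟩
  · rintro ⟨⟨⟨⟨⟨E, ψ⟩, hK⟩, ⟨⟨E', ψ'⟩, hK'⟩⟩, V'⟩, ⟨⟨hψ, hψ'⟩, hmem⟩, rfl⟩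
    exact ⟨E, ψ, E', ψ', abs_le.2 hK.1, abs_le.2 hK'.1, hψ, hψ', hmem⟩

end Pool.Agent.PP27.TaskClosed2
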