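import Pool.Agent.PP27.Spec

set_option autoImplicit false

open scoped BigOperators
open Pool.Agent.H695R3.PP Pool.Agent.PP27.Spec

namespace Pool.Agent.PP27.TaskCompl

/-- The eigenvectors of a box are complete. -/
theorem main : Pool.Agent.H695R3.PP.TaskCompl := by
  classical
  intro V L
  have hN : (Finset.Icc (-(L : ℤ)) L).card = 2 * L + 1 := by
    rw [Int.card_Icc]
    omega
  obtain ⟨e, ψ, h1, h2, h3⟩ := spec V (-(L : ℤ)) L (2 * L + 1) hN
  refine ⟨e, ψ, h1, ?_, fun c => parseval h2 c⟩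
  intro n
  have h4 := h3 (fun n => if n = 0 then 1 else 0) (by
    intro n hn
    rw [if_neg]
    omega) n
  have h5 : (if n = 0 then (1 : ℝ) else 0) =
      ∑ j, (∑ m ∈ Finset.Icc (-(L : ℤ)) L, ψ j m * (if m = 0 then (1 : ℝ) else 0)) * ψ j n := h4
  rw [h5]
  apply Finset.sum_congr rfl
  intro j _
  congr 1
  rw [Finset.sum_eq_single 0]
  · simp
  · intro m _ hm
    rw [if_neg hm, mul_zero]
  · intro h0
    exfalso
    apply h0
    rw [Finset.mem_Icc]
    omega

end Pool.Agent.PP27.TaskCompl
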