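import Pool.Agent.H695R3.PP.Stmts

/-!
# Project H695-LP, TaskContr: the contraction
-/

set_option autoImplicit false

open scoped BigOperators ENNReal
open MeasureTheory

namespace Pool.Agent.PP27.TaskContr

open Pool.Agent.H695R3.PP

theorem alg (n b a m1 m2 : ℝ≥0∞) (K : ℝ) (hK : 1 ≤ K) (hn : n ≠ ∞) (hb : b ≤ n) (ha : a ≤ b)
    (h1 : m1 + ENNReal.ofReal K * a ≤ ENNReal.ofReal (1 / 8) * b + ENNReal.ofReal K * b)
    (h2 : m2 + ENNReal.ofReal K * b ≤ ENNReal.ofReal (1 / 8) * n + ENNReal.ofReal K * n)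
    (h3 : b ≤ m2 + m1) : a ≤ ENNReal.ofReal (1 - 3 / (8 * K)) * n := by
  have hbt : b ≠ ∞ := ne_top_of_le_ne_top hn hb
  have hat : a ≠ ∞ := ne_top_of_le_ne_top hbt ha
  have hR : ∀ x : ℝ≥0∞, x ≠ ∞ → ENNReal.ofReal (1 / 8) * x + ENNReal.ofReal K * x ≠ ∞ :=
    fun x hx => ENNReal.add_ne_top.2 ⟨ENNReal.mul_ne_top ENNReal.ofReal_ne_top hx,
      ENNReal.mul_ne_top ENNReal.ofReal_ne_top hx⟩
  have hm1 : m1 ≠ ∞ := ne_top_of_le_ne_top (hR b hbt) (le_self_add.trans h1)
  have hm2 : m2 ≠ ∞ := ne_top_of_le_ne_top (hR n hn) (le_self_add.trans h2)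
  have e1 : m1.toReal + K * a.toReal ≤ 1 / 8 * b.toReal + K * b.toReal := by
    have := ENNReal.toReal_mono (hR b hbt) h1
    rw [ENNReal.toReal_add hm1 (ENNReal.mul_ne_top ENNReal.ofReal_ne_top hat),
      ENNReal.toReal_add (ENNReal.mul_ne_top ENNReal.ofReal_ne_top hbt)
        (ENNReal.mul_ne_top ENNReal.ofReal_ne_top hbt), ENNReal.toReal_mul, ENNReal.toReal_mul,
      ENNReal.toReal_mul, ENNReal.toReal_ofReal (by linarith),
      ENNReal.toReal_ofReal (by norm_num)] at this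
    exact this
  have e2 : m2.toReal + K * b.toReal ≤ 1 / 8 * n.toReal + K * n.toReal := by
    have := ENNReal.toReal_mono (hR n hn) h2
    rw [ENNReal.toReal_add hm2 (ENNReal.mul_ne_top ENNReal.ofReal_ne_top hbt),
      ENNReal.toReal_add (ENNReal.mul_ne_top ENNReal.ofReal_ne_top hn)
        (ENNReal.mul_ne_top ENNReal.ofReal_ne_top hn), ENNReal.toReal_mul, ENNReal.toReal_mul,
      ENNReal.toReal_mul, ENNReal.toReal_ofReal (by linarith),
      ENNReal.toReal_ofReal (by norm_num)] at this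
    exact this
  have e3 : b.toReal ≤ m2.toReal + m1.toReal := by
    have := ENNReal.toReal_mono (ENNReal.add_ne_top.2 ⟨hm2, hm1⟩) h3
    rwa [ENNReal.toReal_add hm2 hm1] at this
  have e4 : a.toReal ≤ b.toReal := ENNReal.toReal_mono hbt ha
  have e5 : b.toReal ≤ n.toReal := ENNReal.toReal_mono hn hb
  have hn0 : 0 ≤ n.toReal := ENNReal.toReal_nonneg
  have hK0 : 0 < K := by linarith
  have h38 : 3 / (8 * K) ≤ 1 := by
    rw [div_le_one (by positivity)]
    linarith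
  have key : a.toReal ≤ (1 - 3 / (8 * K)) * n.toReal := by
    have s1 : (K + 7 / 8) * a.toReal ≤ (K + 1 / 8) * n.toReal := by nlinarith
    have s2 : (K + 1 / 8) * n.toReal ≤ (K + 7 / 8) * ((1 - 3 / (8 * K)) * n.toReal) := by
      have : (K + 7 / 8) * ((1 - 3 / (8 * K)) * n.toReal) - (K + 1 / 8) * n.toReal =
          (3 / 8 - 21 / (64 * K)) * n.toReal := by
        field_simp
        ring
      have h4 : 21 / (64 * K) ≤ 3 / 8 := by
        rw [div_le_iff₀ (by positivity)]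
        linarith
      have h5 : 0 ≤ (3 / 8 - 21 / (64 * K)) * n.toReal :=
        mul_nonneg (by linarith) hn0
      linarith
    have s3 : (K + 7 / 8) * a.toReal ≤ (K + 7 / 8) * ((1 - 3 / (8 * K)) * n.toReal) :=
      s1.trans s2
    exact le_of_mul_le_mul_left s3 (by linarith)
  rw [← ENNReal.ofReal_toReal hat, ← ENNReal.ofReal_toReal hn,
    ← ENNReal.ofReal_mul (by linarith)]
  exact ENNReal.ofReal_le_ofReal key

theorem measurable_UR (c : ℝ) (g : ℝ → ℝ≥0∞) (hg : Measurable g) : Measurable (UR c g) := by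
  unfold UR
  have h1 : Measurable fun z : ℝ => ENNReal.ofReal |z|⁻¹ := by
    have : Measurable fun z : ℝ => |z|⁻¹ := (measurable_norm (α := ℝ)).inv
    exact ENNReal.measurable_ofReal.comp this
  have h2 : Measurable fun z : ℝ => g (c - z⁻¹) :=
    hg.comp (measurable_const.sub measurable_inv)
  exact h1.mul h2

theorem main (hI : TaskIso) (hA : TaskAvg) (hD : TaskDich) : TaskContr := by
  obtain ⟨C, hC, hD⟩ := hD
  have hC0 : 0 < C := by linarith
  refine ⟨3 / (8 * C), by positivity, ?_, ?_⟩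
  · rw [div_le_iff₀ (by positivity)]
    linarith
  intro ε c₁ g hε hε1 hg
  have hε2 : ε ^ 2 ≤ 1 := pow_le_one₀ hε.le hε1
  have hK : 1 ≤ C / ε ^ 2 := by
    rw [le_div_iff₀ (by positivity)]
    linarith
  have hc : 3 / (8 * C) * ε ^ 2 = 3 / (8 * (C / ε ^ 2)) := by
    field_simp
  rw [hc]
  by_cases hn : nsqL g = ∞
  · rw [hn, ENNReal.mul_top]
    · exact le_top
    · have h38 : 3 / (8 * (C / ε ^ 2)) < 1 := by
        rw [div_lt_one (by positivity)]
        linarith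
      exact (ENNReal.ofReal_pos.2 (by linarith)).ne'
  obtain ⟨hGm, hGn, hGl, -⟩ := hA ε g hε hε1 hg
  obtain ⟨hHn, hHl⟩ := hI c₁ (avg ε g) hGm
  have hHm : Measurable (UR c₁ (avg ε g)) := measurable_UR _ _ hGm
  obtain ⟨-, hAn, -, -⟩ := hA ε (UR c₁ (avg ε g)) hε hε1 hHm
  have hb : nsqL (UR c₁ (avg ε g)) ≤ nsqL g := hHn.le.trans hGn
  have h1 := hD ε (UR c₁ (avg ε g)) (-2) hε hε1 hHm
  have h2 := hD ε g (c₁ - 2) hε hε1 hg
  rw [← hHn] at h2
  refine alg _ _ _ _ _ _ hK hn hb hAn h1 h2 ?_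
  have hs : MeasurableSet {z : ℝ | 1 < |z|} :=
    measurableSet_lt measurable_const (measurable_norm (α := ℝ))
  have hsplit : nsqL (UR c₁ (avg ε g)) =
      (∫⁻ z in {z : ℝ | 1 < |z|}, UR c₁ (avg ε g) z ^ 2) +
        ∫⁻ z in {z : ℝ | 1 < |z|}ᶜ, UR c₁ (avg ε g) z ^ 2 := by
    unfold nsqL
    exact (lintegral_add_compl _ hs).symm
  rw [hsplit]
  refine add_le_add ?_ ?_
  · refine (hHl.trans (hGl c₁)).trans (le_of_eq ?_)
    congr 2
    ring_nf
  · refine lintegral_mono_set fun z hz => ?_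
    have hz' : |z| ≤ 1 := not_lt.1 hz
    have := abs_le.1 hz'
    exact ⟨by linarith [this.1], by linarith [this.2]⟩

end Pool.Agent.PP27.TaskContr
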