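import Pool.Agent.H695R3.PP.Stmts

/-!
# TaskDelta: `δ₀` is in the closed span of the eigenvectors
-/

set_option autoImplicit false

open Pool.Agent.H695R3.PP

namespace Pool.Agent.PP27.TaskDelta

noncomputable section

theorem toReal_two_pos : 0 < (2 : ENNReal).toReal := by norm_num

theorem norm_rpow_two (x : ℝ) : ‖(x : ℂ)‖ ^ (2 : ENNReal).toReal = x ^ 2 := by
  rw [Complex.norm_real, ENNReal.toReal_ofNat, Real.rpow_ofNat, Real.norm_eq_abs, sq_abs]

/-- A real square summable function as an element of `ℓ²`. -/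
def toL (f : ℤ → ℝ) (hf : Summable fun n => f n ^ 2) : lp (fun _ : ℤ => ℂ) 2 :=
  ⟨fun n => (f n : ℂ), memℓp_gen (by
    simp only [norm_rpow_two]
    exact hf)⟩

theorem toL_apply (f : ℤ → ℝ) (hf : Summable fun n => f n ^ 2) (n : ℤ) :
    (toL f hf) n = (f n : ℂ) := rfl

theorem toL_norm (f : ℤ → ℝ) (hf : Summable fun n => f n ^ 2) :
    ‖toL f hf‖ ^ 2 = ∑' n, f n ^ 2 := by
  have h := lp.norm_rpow_eq_tsum toReal_two_pos (toL f hf)
  rw [ENNReal.toReal_ofNat, Real.rpow_ofNat] at h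
  rw [h]
  refine tsum_congr fun n => ?_
  rw [toL_apply, Real.rpow_ofNat, Complex.norm_real, Real.norm_eq_abs, sq_abs]

theorem summable_of_zero (a b : ℤ) (f : ℤ → ℝ) (h : ∀ n, n < a ∨ b < n → f n = 0) :
    Summable fun n => f n ^ 2 := by
  apply summable_of_ne_finset_zero (s := Finset.Icc a b)
  intro n hn
  rw [Finset.mem_Icc, not_and_or, not_le, not_le] at hn
  rw [h n hn]
  norm_num

theorem tsum_of_zero (a b : ℤ) (f : ℤ → ℝ) (h : ∀ n, n < a ∨ b < n → f n = 0) :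
    ∑' n, f n ^ 2 = ∑ n ∈ Finset.Icc a b, f n ^ 2 := by
  apply tsum_eq_sum
  intro n hn
  rw [Finset.mem_Icc, not_and_or, not_le, not_le] at hn
  rw [h n hn]
  norm_num

theorem main (hC : TaskChain) (hP : TaskCompl) : TaskDelta := by
  intro V L a τ d hL hpos hB1 hB2 h4 ha hs1 hs2 hlim1 hlim2
  change _ ∈ closure (EigSpan V : Set (lp (fun _ : ℤ => ℂ) 2))
  rw [Metric.mem_closure_iff]
  intro ε hε
  obtain ⟨k₀, hk₀⟩ := (hB1.and (hB2.and (h4.and ha))).exists_forall_of_atTop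
  have e1 : ∀ᶠ k in Filter.atTop, (2 * (L k : ℝ) + 1) * a k ^ 2 < (ε / 2) ^ 2 :=
    hlim1.eventually (gt_mem_nhds (by positivity))
  have e2 : ∀ᶠ k in Filter.atTop,
      (2 * (L k : ℝ) + 1) * ∑' j, τ (k + j) / d (k + j + 1) < ε / 8 :=
    hlim2.eventually (gt_mem_nhds (by positivity))
  obtain ⟨k, hk1, hk2, hk⟩ := (e1.and (e2.and (Filter.eventually_ge_atTop k₀))).exists
  obtain ⟨e, ψ, hψ, hδ, hpars⟩ := hP V (L k)
  set T : ℝ := ∑' j, τ (k + j) / d (k + j + 1) with hT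
  have hT0 : 0 ≤ T := tsum_nonneg fun j => div_nonneg (hpos _).2.1.le (hpos _).2.2.le
  have hsum : ∀ j, Summable fun n => ψ j n ^ 2 := fun j =>
    summable_of_zero _ _ _ (hψ j).1
  -- the norm of combinations
  have hcomb : ∀ c : Fin (2 * L k + 1) → ℝ,
      ‖∑ j, (c j : ℂ) • toL (ψ j) (hsum j)‖ ^ 2 = ∑ j, c j ^ 2 := by
    intro c
    have hz : ∀ n, n < -(L k : ℤ) ∨ (L k : ℤ) < n → (∑ j, c j * ψ j n) = 0 := by
      intro n hn
      exact Finset.sum_eq_zero fun j _ => by rw [(hψ j).1 n hn, mul_zero]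
    have heq : ∑ j, (c j : ℂ) • toL (ψ j) (hsum j) =
        toL (fun n => ∑ j, c j * ψ j n) (summable_of_zero _ _ _ hz) := by
      apply lp.ext
      funext n
      rw [lp.coeFn_sum, Finset.sum_apply, toL_apply]
      push_cast
      refine Finset.sum_congr rfl fun j _ => ?_
      rw [lp.coeFn_smul, Pi.smul_apply, toL_apply, smul_eq_mul]
    rw [heq, toL_norm, tsum_of_zero _ _ _ hz]
    exact hpars c
  have hδ' : lp.single 2 (0 : ℤ) (1 : ℂ) = ∑ j, (ψ j 0 : ℂ) • toL (ψ j) (hsum j) := by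
    apply lp.ext
    funext n
    rw [lp.coeFn_sum, Finset.sum_apply]
    have h1 : ((if n = 0 then (1 : ℝ) else 0 : ℝ) : ℂ) = ((∑ j, ψ j 0 * ψ j n : ℝ) : ℂ) := by
      rw [hδ n]
    have h2 : (lp.single (E := fun _ : ℤ => ℂ) 2 (0 : ℤ) (1 : ℂ)) n =
        ((if n = 0 then (1 : ℝ) else 0 : ℝ) : ℂ) := by
      by_cases h : n = 0
      · subst h
        rw [lp.single_apply_self]
        simp
      · rw [lp.single_apply_ne _ _ _ h]
        simp [h]
    rw [h2, h1]
    push_cast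
    refine Finset.sum_congr rfl fun j _ => ?_
    rw [lp.coeFn_smul, Pi.smul_apply, toL_apply, smul_eq_mul]
  have hle1 : ∀ j, |ψ j 0| ≤ 1 := by
    intro j
    have h1 := (hψ j).2.1
    have h2 : ψ j 0 ^ 2 ≤ nsq (-(L k : ℤ)) (L k) (ψ j) := by
      unfold nsq
      exact Finset.single_le_sum (f := fun n => ψ j n ^ 2) (fun n _ => sq_nonneg _)
        (Finset.mem_Icc.mpr ⟨by omega, by omega⟩)
    rw [h1] at h2
    exact (sq_le_one_iff_abs_le_one _).mp h2
  -- the approximating eigenvectors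
  have hw : ∀ j, ∃ w ∈ EigSpan V, a k ≤ |ψ j 0| → ‖toL (ψ j) (hsum j) - w‖ ≤ 4 * T := by
    intro j
    by_cases hj : a k ≤ |ψ j 0|
    · obtain ⟨e', φ, h1, h2, h3, h4'⟩ := hC V L a τ d k hL hpos
        (fun k' hk' => (hk₀ k' (hk.trans hk')).1)
        (fun k' hk' => (hk₀ k' (hk.trans hk')).2.1)
        (fun k' hk' => (hk₀ k' (hk.trans hk')).2.2.1)
        (fun k' hk' => (hk₀ k' (hk.trans hk')).2.2.2) hs1 hs2 (e j) (ψ j) (hψ j) hj
      refine ⟨toL φ h1, Submodule.subset_span ⟨e', fun n => ?_⟩, fun _ => ?_⟩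
      · rw [toL_apply, toL_apply, toL_apply]
        have := congrArg (fun x : ℝ => (x : ℂ)) (h2 n)
        push_cast at this
        exact this
      · have heq : toL (ψ j) (hsum j) - toL φ h1 = toL (fun n => ψ j n - φ n) h3 := by
          apply lp.ext
          funext n
          rw [lp.coeFn_sub, Pi.sub_apply, toL_apply, toL_apply, toL_apply]
          push_cast
          rfl
        rw [heq]
        have h5 : ‖toL (fun n => ψ j n - φ n) h3‖ ^ 2 ≤ (4 * T) ^ 2 := by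
          rw [toL_norm]
          exact h4'
        exact (pow_le_pow_iff_left₀ (norm_nonneg _) (by positivity) two_ne_zero).mp h5
    · exact ⟨0, Submodule.zero_mem _, fun h => absurd h hj⟩
  choose w hwm hwn using hw
  classical
  set J : Finset (Fin (2 * L k + 1)) := Finset.univ.filter fun j => a k ≤ |ψ j 0| with hJ
  refine ⟨∑ j ∈ J, (ψ j 0 : ℂ) • w j,
    Submodule.sum_mem _ fun j _ => Submodule.smul_mem _ _ (hwm j), ?_⟩
  rw [dist_eq_norm]
  have hdec : lp.single 2 (0 : ℤ) (1 : ℂ) - ∑ j ∈ J, (ψ j 0 : ℂ) • w j =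
      ∑ j ∈ J, (ψ j 0 : ℂ) • (toL (ψ j) (hsum j) - w j) +
        ∑ j, (((if j ∈ J then 0 else ψ j 0 : ℝ)) : ℂ) • toL (ψ j) (hsum j) := by
    rw [hδ']
    have h1 : ∑ j, (ψ j 0 : ℂ) • toL (ψ j) (hsum j) =
        ∑ j ∈ J, (ψ j 0 : ℂ) • toL (ψ j) (hsum j) +
          ∑ j, (((if j ∈ J then 0 else ψ j 0 : ℝ)) : ℂ) • toL (ψ j) (hsum j) := by
      have h2 : ∑ j ∈ J, (ψ j 0 : ℂ) • toL (ψ j) (hsum j) =
          ∑ j, (if j ∈ J then (ψ j 0 : ℂ) • toL (ψ j) (hsum j) else 0) := by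
        rw [Finset.sum_ite_mem, Finset.univ_inter]
      rw [h2, ← Finset.sum_add_distrib]
      refine Finset.sum_congr rfl fun j _ => ?_
      by_cases hj : j ∈ J
      · simp [hj]
      · simp [hj]
    rw [h1]
    simp only [smul_sub, Finset.sum_sub_distrib]
    abel
  rw [hdec]
  have hA : ‖∑ j ∈ J, (ψ j 0 : ℂ) • (toL (ψ j) (hsum j) - w j)‖ ≤
      (2 * (L k : ℝ) + 1) * (4 * T) := by
    calc ‖∑ j ∈ J, (ψ j 0 : ℂ) • (toL (ψ j) (hsum j) - w j)‖
        ≤ ∑ j ∈ J, ‖(ψ j 0 : ℂ) • (toL (ψ j) (hsum j) - w j)‖ := norm_sum_le _ _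
      _ ≤ ∑ j ∈ J, 4 * T := by
          refine Finset.sum_le_sum fun j hj => ?_
          rw [norm_smul, Complex.norm_real, Real.norm_eq_abs]
          have h1 := hwn j (by simpa [hJ] using hj)
          calc |ψ j 0| * ‖toL (ψ j) (hsum j) - w j‖ ≤ 1 * (4 * T) :=
                mul_le_mul (hle1 j) h1 (norm_nonneg _) zero_le_one
            _ = 4 * T := one_mul _
      _ = (J.card : ℝ) * (4 * T) := by rw [Finset.sum_const, nsmul_eq_mul]
      _ ≤ (2 * (L k : ℝ) + 1) * (4 * T) := by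
          refine mul_le_mul_of_nonneg_right ?_ (by positivity)
          have : J.card ≤ 2 * L k + 1 := by
            simpa using Finset.card_le_univ J
          exact_mod_cast this
  have hB : ‖∑ j, (((if j ∈ J then 0 else ψ j 0 : ℝ)) : ℂ) • toL (ψ j) (hsum j)‖ < ε / 2 := by
    have h1 := hcomb fun j => if j ∈ J then 0 else ψ j 0
    have h2 : ∑ j, (if j ∈ J then 0 else ψ j 0) ^ 2 ≤ (2 * (L k : ℝ) + 1) * a k ^ 2 := by
      calc ∑ j, (if j ∈ J then 0 else ψ j 0) ^ 2 ≤ ∑ _j : Fin (2 * L k + 1), a k ^ 2 := by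
            refine Finset.sum_le_sum fun j _ => ?_
            by_cases hj : j ∈ J
            · rw [if_pos hj]
              have := sq_nonneg (a k)
              simpa using this
            · rw [if_neg hj]
              have hlt : |ψ j 0| < a k := by
                simpa [hJ] using hj
              exact sq_le_sq' (by have := neg_abs_le (ψ j 0); linarith)
                (by have := le_abs_self (ψ j 0); linarith)
        _ = (2 * (L k : ℝ) + 1) * a k ^ 2 := by
            rw [Finset.sum_const, Finset.card_univ, Fintype.card_fin, nsmul_eq_mul]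
            push_cast
            ring
    refine lt_of_pow_lt_pow_left₀ 2 (by positivity) ?_
    rw [h1]
    exact h2.trans_lt hk1
  calc ‖∑ j ∈ J, (ψ j 0 : ℂ) • (toL (ψ j) (hsum j) - w j) +
        ∑ j, (((if j ∈ J then 0 else ψ j 0 : ℝ)) : ℂ) • toL (ψ j) (hsum j)‖
      ≤ ‖∑ j ∈ J, (ψ j 0 : ℂ) • (toL (ψ j) (hsum j) - w j)‖ +
        ‖∑ j, (((if j ∈ J then 0 else ψ j 0 : ℝ)) : ℂ) • toL (ψ j) (hsum j)‖ := norm_add_le _ _
    _ < ε := by nlinarith

end

end Pool.Agent.PP27.TaskDelta
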