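import Pool.Agent.PP27.Base333

/-!
# Averaging loses a part of the norm unless the function is spread out
-/

set_option autoImplicit false

open MeasureTheory Set
open scoped ENNReal

namespace Pool.Agent.PP27.TaskDich

open Pool.Agent.H695R3.PP Pool.Agent.PP27.Base333

variable {g : ℝ → ℝ≥0∞}

theorem lintegral_U (f : ℝ → ℝ≥0∞) (s : Set ℝ) (hs : MeasurableSet s) (h : s ⊆ Icc (-1) 1) :
    ∫⁻ x in s, f x ∂U = ENNReal.ofReal (1 / 2) * ∫⁻ x in s, f x := by
  unfold U
  rw [Measure.restrict_smul, Measure.restrict_restrict hs, inter_eq_self_of_subset_left h,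
    lintegral_smul_measure, smul_eq_mul]

theorem U_half : U (Icc (-1 : ℝ) 0) = ENNReal.ofReal (1 / 2) := by
  unfold U
  rw [Measure.smul_apply, Measure.restrict_apply measurableSet_Icc, smul_eq_mul,
    inter_eq_self_of_subset_left (Icc_subset_Icc le_rfl (by norm_num)), Real.volume_Icc]
  norm_num

theorem shift_U (f : ℝ → ℝ≥0∞) (w : ℝ) (hw : 0 ≤ w) (hw1 : w ≤ 1) :
    ∫⁻ s in Icc (-1 : ℝ) 0, f (w + s) ∂U ≤ ∫⁻ s, f s ∂U := by
  rw [lintegral_U _ _ measurableSet_Icc (Icc_subset_Icc le_rfl (by norm_num))]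
  have h1 : ∫⁻ s in Icc (-1 : ℝ) 0, f (w + s) = ∫⁻ s in Icc (w - 1) w, f s := by
    have h2 : ∫⁻ s, (Icc (w - 1) w).indicator f (w + s) = ∫⁻ s, (Icc (w - 1) w).indicator f s :=
      lintegral_add_left_eq_self _ w
    rw [lintegral_indicator measurableSet_Icc] at h2
    rw [← h2, ← lintegral_indicator measurableSet_Icc]
    apply lintegral_congr
    intro s
    by_cases hs : s ∈ Icc (-1 : ℝ) 0
    · have hs' : w + s ∈ Icc (w - 1) w := ⟨by linarith [hs.1], by linarith [hs.2]⟩
      simp [indicator_of_mem hs, indicator_of_mem hs']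
    · have hs' : w + s ∉ Icc (w - 1) w := by
        intro h
        exact hs ⟨by linarith [h.1], by linarith [h.2]⟩
      simp [indicator_of_notMem hs, indicator_of_notMem hs']
  rw [h1]
  have h3 : ∫⁻ s, f s ∂U = ENNReal.ofReal (1 / 2) * ∫⁻ s in Icc (-1 : ℝ) 1, f s := by
    unfold U
    rw [lintegral_smul_measure, smul_eq_mul]
  rw [h3]
  gcongr
  · linarith

/-- small shifts -/
theorem D_small (hg : Measurable g) (ε w : ℝ) (hw : 0 ≤ w) (hw1 : w ≤ 1) :
    D g (ε * w) ≤ 8 * W g ε := by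
  have hD := measurable_D hg
  set G : ℝ → ℝ≥0∞ := fun s => ∫⁻ t, D g (ε * (t - s)) ∂U with hG
  have hGm : Measurable G := by
    apply Measurable.lintegral_prod_right' (f := fun p : ℝ × ℝ => D g (ε * (p.2 - p.1)))
    exact hD.comp (by fun_prop)
  have h1 : ∀ s : ℝ, D g (ε * w) ≤ 2 * G s + 2 * G (w + s) := by
    intro s
    have h2 : ∀ t : ℝ, D g (ε * w) ≤ 2 * D g (ε * (t - s)) + 2 * D g (ε * (t - (w + s))) := by
      intro t
      have h3 := D_add hg (ε * (t - s)) (-(ε * (t - (w + s))))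
      rw [D_neg] at h3
      refine le_trans (le_of_eq ?_) h3
      congr 1
      ring
    calc D g (ε * w) = ∫⁻ _t : ℝ, D g (ε * w) ∂U := by
          rw [lintegral_const, measure_univ, mul_one]
      _ ≤ ∫⁻ t, (2 * D g (ε * (t - s)) + 2 * D g (ε * (t - (w + s)))) ∂U :=
          lintegral_mono fun t => h2 t
      _ = 2 * G s + 2 * G (w + s) := by
          have m1 : Measurable fun t : ℝ => D g (ε * (t - s)) := hD.comp (by fun_prop)
          have m2 : Measurable fun t : ℝ => D g (ε * (t - (w + s))) := hD.comp (by fun_prop)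
          rw [lintegral_add_left (m1.const_mul _), lintegral_const_mul _ m1,
            lintegral_const_mul _ m2]
  have hGi : ∫⁻ s, G s ∂U = W g ε := rfl
  have h4 : ENNReal.ofReal (1 / 2) * D g (ε * w) ≤ 4 * W g ε := by
    calc ENNReal.ofReal (1 / 2) * D g (ε * w) = ∫⁻ _s in Icc (-1 : ℝ) 0, D g (ε * w) ∂U := by
          rw [lintegral_const, Measure.restrict_apply MeasurableSet.univ, univ_inter, U_half,
            mul_comm]
      _ ≤ ∫⁻ s in Icc (-1 : ℝ) 0, (2 * G s + 2 * G (w + s)) ∂U := lintegral_mono fun s => h1 s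
      _ = 2 * (∫⁻ s in Icc (-1 : ℝ) 0, G s ∂U) + 2 * ∫⁻ s in Icc (-1 : ℝ) 0, G (w + s) ∂U := by
          have m2 : Measurable fun s : ℝ => G (w + s) := hGm.comp (by fun_prop)
          rw [lintegral_add_left (hGm.const_mul _), lintegral_const_mul _ hGm,
            lintegral_const_mul _ m2]
      _ ≤ 2 * W g ε + 2 * W g ε := by
          gcongr
          · rw [← hGi]
            exact setLIntegral_le_lintegral _ _
          · rw [← hGi]
            exact shift_U G w hw hw1
      _ = 4 * W g ε := by ring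
  have h5 : D g (ε * w) = 2 * (ENNReal.ofReal (1 / 2) * D g (ε * w)) := by
    rw [← mul_assoc]
    have : (2 : ℝ≥0∞) * ENNReal.ofReal (1 / 2) = 1 := by
      rw [show (2 : ℝ≥0∞) = ENNReal.ofReal 2 by simp, ← ENNReal.ofReal_mul (by norm_num)]
      norm_num
    rw [this, one_mul]
  rw [h5]
  calc 2 * (ENNReal.ofReal (1 / 2) * D g (ε * w)) ≤ 2 * (4 * W g ε) := by gcongr
    _ = 8 * W g ε := by ring

/-- larger shifts -/
theorem D_large (hg : Measurable g) (ε : ℝ) (hε : 0 < ε) (hε1 : ε ≤ 1) (h : ℝ) (h0 : 0 ≤ h)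
    (h80 : h ≤ 80) : D g h ≤ ENNReal.ofReal (204800 / ε ^ 2) * W g ε := by
  have ex : ∃ k : ℕ, 80 / ε ≤ (2 : ℝ) ^ k := by
    obtain ⟨k, hk⟩ := pow_unbounded_of_one_lt (80 / ε) (one_lt_two : (1 : ℝ) < 2)
    exact ⟨k, hk.le⟩
  classical
  obtain ⟨k, hk, hmin⟩ : ∃ k : ℕ, 80 / ε ≤ 2 ^ k ∧ ∀ j < k, ¬ (80 / ε ≤ (2 : ℝ) ^ j) :=
    ⟨Nat.find ex, Nat.find_spec ex, fun j hj => Nat.find_min ex hj⟩
  have hk1 : 1 ≤ k := by
    by_contra hc
    have : k = 0 := by omega
    subst this
    have h1 : (80 : ℝ) ≤ 80 / ε := by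
      rw [le_div_iff₀ hε]; nlinarith
    norm_num at hk
    linarith
  have hup : (2 : ℝ) ^ k ≤ 160 / ε := by
    have h1 := hmin (k - 1) (by omega)
    push Not at h1
    have h2 : (2 : ℝ) ^ k = 2 * 2 ^ (k - 1) := by
      rw [← pow_succ']
      congr 1
      omega
    rw [h2]
    have h3 : (160 : ℝ) / ε = 2 * (80 / ε) := by ring
    rw [h3]
    linarith
  have h2k : (0 : ℝ) < 2 ^ k := by positivity
  have e1 : h = 2 ^ k * (ε * (h / (ε * 2 ^ k))) := by
    field_simp
  have hw0 : 0 ≤ h / (ε * 2 ^ k) := by positivity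
  have hw1 : h / (ε * 2 ^ k) ≤ 1 := by
    rw [div_le_one (by positivity)]
    have := (div_le_iff₀ hε).mp hk
    linarith
  rw [e1]
  refine (D_pow hg _ k).trans ?_
  have h3 := D_small hg ε _ hw0 hw1
  calc (4 : ℝ≥0∞) ^ k * D g (ε * (h / (ε * 2 ^ k))) ≤ 4 ^ k * (8 * W g ε) := by gcongr
    _ = (4 ^ k * 8) * W g ε := by ring
    _ ≤ ENNReal.ofReal (204800 / ε ^ 2) * W g ε := by
        gcongr
        have e4 : (4 : ℝ≥0∞) ^ k * 8 = ENNReal.ofReal (4 ^ k * 8) := by
          rw [ENNReal.ofReal_mul (by positivity), ENNReal.ofReal_pow (by norm_num)]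
          norm_num
        rw [e4]
        apply ENNReal.ofReal_le_ofReal
        have h5 : (4 : ℝ) ^ k = (2 ^ k) ^ 2 := by
          rw [← pow_mul, mul_comm k 2, pow_mul]; norm_num
        rw [h5]
        have h6 : ((2 : ℝ) ^ k) ^ 2 ≤ (160 / ε) ^ 2 := by gcongr
        calc ((2 : ℝ) ^ k) ^ 2 * 8 ≤ (160 / ε) ^ 2 * 8 := by gcongr
          _ = 204800 / ε ^ 2 := by rw [div_pow]; ring

/-- masses of translates -/
theorem mass_shift (hg : Measurable g) (y h : ℝ) :
    ∫⁻ x in Icc y (y + 4), g x ^ 2 ≤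
      2 * (∫⁻ x in Icc (y + h) (y + h + 4), g x ^ 2) + 2 * D g h := by
  have h1 : ∫⁻ x in Icc y (y + 4), g (x + h) ^ 2 = ∫⁻ x in Icc (y + h) (y + h + 4), g x ^ 2 := by
    have h2 : ∫⁻ s, (Icc (y + h) (y + h + 4)).indicator (fun x => g x ^ 2) (s + h) =
        ∫⁻ s, (Icc (y + h) (y + h + 4)).indicator (fun x => g x ^ 2) s :=
      lintegral_add_right_eq_self _ h
    rw [lintegral_indicator measurableSet_Icc] at h2
    rw [← h2, ← lintegral_indicator measurableSet_Icc]
    apply lintegral_congr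
    intro s
    by_cases hs : s ∈ Icc y (y + 4)
    · have hs' : s + h ∈ Icc (y + h) (y + h + 4) := ⟨by linarith [hs.1], by linarith [hs.2]⟩
      simp [indicator_of_mem hs, indicator_of_mem hs']
    · have hs' : s + h ∉ Icc (y + h) (y + h + 4) := by
        intro h
        exact hs ⟨by linarith [h.1], by linarith [h.2]⟩
      simp [indicator_of_notMem hs, indicator_of_notMem hs']
  rw [← h1]
  calc ∫⁻ x in Icc y (y + 4), g x ^ 2
      ≤ ∫⁻ x in Icc y (y + 4), (2 * g (x + h) ^ 2 + 2 * df (g x) (g (x + h)) ^ 2) := by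
        apply lintegral_mono
        intro x
        exact (pow_le_pow_left' (le_add_df (g x) (g (x + h))) 2).trans (add_sq_le _ _)
    _ = 2 * (∫⁻ x in Icc y (y + 4), g (x + h) ^ 2) +
        2 * ∫⁻ x in Icc y (y + 4), df (g x) (g (x + h)) ^ 2 := by
        rw [lintegral_add_left (by fun_prop), lintegral_const_mul _ (by fun_prop),
          lintegral_const_mul _ (by fun_prop)]
    _ ≤ _ := by
        gcongr
        exact setLIntegral_le_lintegral _ _

theorem sum_mass (hg : Measurable g) (y : ℝ) :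
    ∑ i ∈ Finset.Icc 1 16, ∫⁻ x in Icc (y + 5 * (i : ℕ)) (y + 5 * (i : ℕ) + 4), g x ^ 2 ≤ nsqL g := by
  rw [← lintegral_biUnion_finset]
  · exact setLIntegral_le_lintegral _ _
  · intro i _ j _ hij
    apply Set.disjoint_left.mpr
    intro x hx hx'
    have hi := hx.1
    have hi' := hx.2
    have hj := hx'.1
    have hj' := hx'.2
    rcases lt_or_gt_of_ne hij with h | h
    · have : (i : ℝ) + 1 ≤ j := by exact_mod_cast h
      linarith
    · have : (j : ℝ) + 1 ≤ i := by exact_mod_cast h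
      linarith
  · intro i _
    exact measurableSet_Icc

theorem main : TaskDich := by
  refine ⟨819200, by norm_num, ?_⟩
  intro ε g y hε hε1 hg
  set B : ℝ≥0∞ := ENNReal.ofReal (204800 / ε ^ 2) * W g ε with hB
  set M : ℝ≥0∞ := ∫⁻ x in Icc y (y + 4), g x ^ 2 with hM
  have h16 : 16 * M ≤ 2 * nsqL g + 32 * B := by
    calc 16 * M = ∑ _i ∈ Finset.Icc 1 16, M := by
          rw [Finset.sum_const, Nat.card_Icc]; simp
      _ ≤ ∑ i ∈ Finset.Icc 1 16,
          (2 * (∫⁻ x in Icc (y + 5 * (i : ℕ)) (y + 5 * (i : ℕ) + 4), g x ^ 2) + 2 * B) := by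
          apply Finset.sum_le_sum
          intro i hi
          rw [Finset.mem_Icc] at hi
          refine (mass_shift hg y (5 * (i : ℕ))).trans ?_
          gcongr
          apply D_large hg ε hε hε1
          · positivity
          · have : (i : ℝ) ≤ 16 := by exact_mod_cast hi.2
            linarith
      _ = 2 * (∑ i ∈ Finset.Icc 1 16,
            ∫⁻ x in Icc (y + 5 * (i : ℕ)) (y + 5 * (i : ℕ) + 4), g x ^ 2) + 32 * B := by
          rw [Finset.sum_add_distrib, ← Finset.mul_sum, Finset.sum_const, Nat.card_Icc]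
          simp only [Nat.add_sub_cancel, nsmul_eq_mul]
          congr 1
          rw [← mul_assoc]
          norm_num
      _ ≤ _ := by
          gcongr
          exact sum_mass hg y
  have hc : (16 : ℝ≥0∞)⁻¹ = ENNReal.ofReal (1 / 16) := by
    rw [one_div, ENNReal.ofReal_inv_of_pos (by norm_num)]; norm_num
  have hM2 : M ≤ ENNReal.ofReal (1 / 8) * nsqL g + 2 * B := by
    calc M = ENNReal.ofReal (1 / 16) * (16 * M) := by
          rw [← mul_assoc, show (16 : ℝ≥0∞) = ENNReal.ofReal 16 by norm_num,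
            ← ENNReal.ofReal_mul (by norm_num)]
          norm_num
      _ ≤ ENNReal.ofReal (1 / 16) * (2 * nsqL g + 32 * B) := by gcongr
      _ = (ENNReal.ofReal (1 / 16) * ENNReal.ofReal 2) * nsqL g +
          (ENNReal.ofReal (1 / 16) * ENNReal.ofReal 32) * B := by
          rw [show ENNReal.ofReal 2 = 2 by norm_num, show ENNReal.ofReal 32 = 32 by norm_num]
          ring
      _ = _ := by
          rw [← ENNReal.ofReal_mul (by norm_num), ← ENNReal.ofReal_mul (by norm_num)]
          norm_num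
  have hkey := key hg ε
  have hK : ENNReal.ofReal (819200 / ε ^ 2) = ENNReal.ofReal (409600 / ε ^ 2) * 2 := by
    rw [show (2 : ℝ≥0∞) = ENNReal.ofReal 2 by norm_num, ← ENNReal.ofReal_mul (by positivity)]
    congr 1
    ring
  have hB2 : 2 * B = ENNReal.ofReal (409600 / ε ^ 2) * W g ε := by
    rw [hB, ← mul_assoc, show (2 : ℝ≥0∞) = ENNReal.ofReal 2 by norm_num,
      ← ENNReal.ofReal_mul (by norm_num)]
    congr 2
    ring
  calc M + ENNReal.ofReal (819200 / ε ^ 2) * nsqL (avg ε g)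
      ≤ (ENNReal.ofReal (1 / 8) * nsqL g + 2 * B) +
        ENNReal.ofReal (819200 / ε ^ 2) * nsqL (avg ε g) := by gcongr
    _ = ENNReal.ofReal (1 / 8) * nsqL g +
        ENNReal.ofReal (409600 / ε ^ 2) * (2 * nsqL (avg ε g) + W g ε) := by
        rw [hB2, hK]; ring
    _ = _ := by
        rw [← hkey, hK]; ring

end Pool.Agent.PP27.TaskDich
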