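import Pool.Agent.H695R3.PP.Stmts
import Pool.Agent.H853R3.PP.TaskResample

/-!
# Project H695-LP, TaskFE: the fixed energy estimate
-/

set_option autoImplicit false

open scoped BigOperators ENNReal
open MeasureTheory Pool.Agent.H695R3.PP

namespace Pool.Agent.PP27.TaskFE

theorem rsol_congr (V V' : ℤ → ℝ) (E : ℝ) (b : ℤ) (j : ℕ)
    (h : ∀ n, b - j < n → n ≤ b → V n = V' n) : rsol V E b j = rsol V' E b j := by
  induction j with
  | zero => rfl
  | succ j ih =>
    have h1 := ih (fun n h1 h2 => h n (by push_cast; omega) h2)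
    have h2 := h (b - j) (by push_cast; omega) (by omega)
    simp only [rsol]
    rw [h1, h2]

theorem rsol_pos (V : ℤ → ℝ) (E : ℝ) (b : ℤ) (j : ℕ) :
    0 < (rsol V E b j).1 ^ 2 + (rsol V E b j).2 ^ 2 := by
  induction j with
  | zero => simp [rsol]
  | succ j ih =>
    simp only [rsol]
    rcases eq_or_ne (rsol V E b j).1 0 with h | h
    · rw [h] at ih ⊢
      have : 0 < (rsol V E b j).2 ^ 2 := by simpa using ih
      nlinarith
    · positivity

theorem rlen_pos (V : ℤ → ℝ) (E : ℝ) (b : ℤ) (j : ℕ) : 0 < rlen V E b j :=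
  Real.sqrt_pos.mpr (rsol_pos V E b j)

theorem rsol_meas (W : ℤ → ℝ) (ε E : ℝ) (b : ℤ) (j : ℕ) :
    Measurable (fun x : ℤ → ℝ => rsol (fun n => W n + ε * x n) E b j) := by
  induction j with
  | zero => exact measurable_const
  | succ j ih =>
    simp only [rsol]
    refine Measurable.prodMk ?_ (measurable_fst.comp ih)
    refine Measurable.sub (Measurable.mul ?_ (measurable_fst.comp ih)) (measurable_snd.comp ih)
    exact measurable_const.sub (measurable_const.add (measurable_const.mul (measurable_pi_apply _)))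

theorem U_le (T : Set ℝ) : U T ≤ ENNReal.ofReal (1 / 2) * volume T := by
  unfold U
  rw [Measure.smul_apply, smul_eq_mul]
  gcongr
  exact Measure.restrict_le_self

theorem U_zero (T : Set ℝ) (h : ∀ s ∈ Set.Icc (-1 : ℝ) 1, s ∉ T) : U T = 0 := by
  unfold U
  rw [Measure.smul_apply, smul_eq_mul, Measure.restrict_apply' measurableSet_Icc]
  have : T ∩ Set.Icc (-1 : ℝ) 1 = ∅ := by
    rw [Set.eq_empty_iff_forall_notMem]
    rintro s ⟨h1, h2⟩
    exact h s h2 h1
  rw [this, measure_empty, mul_zero]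

theorem one_site (α β γ ε R t : ℝ) (hε : 0 < ε) (hε1 : ε ≤ 1) (hR : 1 ≤ R) (hα : |α| ≤ 2 * R)
    (ht : 0 < t) (hρ : 0 < β ^ 2 + γ ^ 2) :
    U {s : ℝ | |(α - ε * s) * β - γ| ≤ t} ≤
      ENNReal.ofReal (8 * R * t / ε * (1 / Real.sqrt (β ^ 2 + γ ^ 2))) := by
  set ρ := Real.sqrt (β ^ 2 + γ ^ 2) with hρd
  have hρ0 : 0 < ρ := Real.sqrt_pos.mpr hρ
  have hρ2 : ρ ^ 2 = β ^ 2 + γ ^ 2 := Real.sq_sqrt hρ.le
  by_cases hex : ∃ s ∈ Set.Icc (-1 : ℝ) 1, |(α - ε * s) * β - γ| ≤ t
  swap
  · push Not at hex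
    have h0 : U {s : ℝ | |(α - ε * s) * β - γ| ≤ t} = 0 :=
      U_zero _ (fun s hs h => absurd h (not_le.mpr (hex s hs)))
    rw [h0]
    exact zero_le
  obtain ⟨s, hs, hst⟩ := hex
  rcases lt_or_ge ρ (2 * t) with h2t | h2t
  · refine (prob_le_one).trans ?_
    rw [ENNReal.one_le_ofReal]
    rw [mul_one_div, div_div, le_div_iff₀ (by positivity)]
    nlinarith
  · have hs1 : |s| ≤ 1 := abs_le.mpr hs
    have h1 : |α - ε * s| ≤ 3 * R := by
      have h3 : |ε * s| ≤ 1 := by
        rw [abs_mul, abs_of_pos hε]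
        nlinarith [abs_nonneg s]
      calc |α - ε * s| ≤ |α| + |ε * s| := abs_sub _ _
        _ ≤ 3 * R := by linarith
    have h2 : |γ| ≤ 3 * R * |β| + t := by
      have e1 : γ = (α - ε * s) * β - ((α - ε * s) * β - γ) := by ring
      calc |γ| = |(α - ε * s) * β - ((α - ε * s) * β - γ)| := by rw [← e1]
        _ ≤ |(α - ε * s) * β| + |(α - ε * s) * β - γ| := abs_sub _ _
        _ ≤ 3 * R * |β| + t := by
          rw [abs_mul]
          have := mul_le_mul_of_nonneg_right h1 (abs_nonneg β)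
          linarith
    have h3 : ρ ≤ |β| + |γ| := by
      rw [hρd]
      apply Real.sqrt_le_iff.mpr
      constructor
      · positivity
      · nlinarith [sq_abs β, sq_abs γ, abs_nonneg β, abs_nonneg γ,
          mul_nonneg (abs_nonneg β) (abs_nonneg γ)]
    have h4 : ρ ≤ 8 * R * |β| := by
      have : |β| ≤ R * |β| := le_mul_of_one_le_left (abs_nonneg β) hR
      nlinarith
    have hβ : 0 < |β| := by
      rcases (abs_nonneg β).eq_or_lt with h | h
      · rw [← h] at h4
        simp only [mul_zero] at h4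
        linarith
      · exact h
    have hβ0 : β ≠ 0 := abs_pos.mp hβ
    set r := t / (ε * |β|) with hr
    set s0 := (α * β - γ) / (ε * β) with hs0
    have hsub : {s : ℝ | |(α - ε * s) * β - γ| ≤ t} ⊆ Set.Icc (s0 - r) (s0 + r) := by
      intro u hu
      have hu' : |(α - ε * u) * β - γ| ≤ t := hu
      have e1 : (α - ε * u) * β - γ = ε * β * (s0 - u) := by
        rw [hs0]
        field_simp
        ring
      rw [e1, abs_mul, abs_mul, abs_of_pos hε] at hu'
      have e2 : |s0 - u| ≤ r := by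
        rw [hr, le_div_iff₀ (by positivity)]
        linarith
      have e3 := abs_le.mp e2
      constructor <;> linarith [e3.1, e3.2]
    calc U {s : ℝ | |(α - ε * s) * β - γ| ≤ t}
        ≤ ENNReal.ofReal (1 / 2) * volume {s : ℝ | |(α - ε * s) * β - γ| ≤ t} := U_le _
      _ ≤ ENNReal.ofReal (1 / 2) * volume (Set.Icc (s0 - r) (s0 + r)) := by gcongr
      _ = ENNReal.ofReal r := by
        rw [Real.volume_Icc, ← ENNReal.ofReal_mul (by norm_num)]
        congr 1
        ring
      _ ≤ ENNReal.ofReal (8 * R * t / ε * (1 / ρ)) := by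
        apply ENNReal.ofReal_le_ofReal
        rw [hr, mul_one_div, div_div, div_le_div_iff₀ (by positivity) (by positivity)]
        have := mul_le_mul_of_nonneg_left h4 (by positivity : 0 ≤ t * ε)
        nlinarith

theorem main (hJ : TaskJ) : Pool.Agent.H695R3.PP.TaskFE := by
  obtain ⟨c, C, hc, hc2, hC, hJ⟩ := hJ
  refine ⟨c, 16 * C, hc, hc2, by positivity, ?_⟩
  intro ε R E t W L hε hε1 hR hE hW ht hL
  obtain ⟨K, rfl⟩ : ∃ K, L = K + 1 := ⟨L - 1, by omega⟩
  have hres : Measure.map (fun p : (ℤ → ℝ) × ℝ => Function.update p.1 (1 : ℤ) p.2)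
      (PZ.prod U) = PZ :=
    Pool.Agent.H853R3.PP.Resample.taskResample ℤ (fun _ => ℝ) (fun _ => U) (1 : ℤ)
  set S : Set (ℤ → ℝ) :=
    {x | |(rsol (fun n => W n + ε * x n) E ((K + 1 : ℕ) : ℤ) (K + 1)).1| ≤ t} with hS
  have hSm : MeasurableSet S := by
    apply measurableSet_le _ measurable_const
    exact (measurable_fst.comp (rsol_meas W ε E _ _)).abs
  have hupd : Measurable (fun p : (ℤ → ℝ) × ℝ => Function.update p.1 (1 : ℤ) p.2) :=
    Pool.Agent.H853R3.PP.Resample.measurable_upd (X := fun _ : ℤ => ℝ) (1 : ℤ)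
  have h1 : PZ S = ∫⁻ x, U {s | Function.update x (1 : ℤ) s ∈ S} ∂PZ := by
    conv_lhs => rw [← hres]
    rw [Measure.map_apply hupd hSm, Measure.prod_apply (hupd hSm)]
    rfl
  have h2 : ∀ x : ℤ → ℝ, U {s | Function.update x (1 : ℤ) s ∈ S} ≤
      ENNReal.ofReal (8 * R * t / ε) *
        ENNReal.ofReal (1 / rlen (fun n => W n + ε * x n) E ((K + 1 : ℕ) : ℤ) K) := by
    intro x
    rw [← ENNReal.ofReal_mul (by positivity)]
    have hα : |E - W 1| ≤ 2 * R := by
      have := hW 1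
      calc |E - W 1| ≤ |E| + |W 1| := abs_sub _ _
        _ ≤ 2 * R := by linarith
    refine le_trans (le_of_eq ?_) (one_site (E - W 1)
      (rsol (fun n => W n + ε * x n) E ((K + 1 : ℕ) : ℤ) K).1
      (rsol (fun n => W n + ε * x n) E ((K + 1 : ℕ) : ℤ) K).2 ε R t hε hε1 hR hα ht
      (rsol_pos _ _ _ _))
    congr 1
    ext s
    have e1 : rsol (fun n => W n + ε * (Function.update x 1 s) n) E ((K + 1 : ℕ) : ℤ) K =
        rsol (fun n => W n + ε * x n) E ((K + 1 : ℕ) : ℤ) K := by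
      apply rsol_congr
      intro n hn _
      have : n ≠ 1 := by
        push_cast at hn
        omega
      simp only [Function.update_of_ne this]
    have e2 : ((K + 1 : ℕ) : ℤ) - (K : ℤ) = 1 := by push_cast; ring
    simp only [hS, Set.mem_ofPred_eq, rsol]
    rw [e1, e2, Function.update_self]
    have e3 : E - (W 1 + ε * s) = E - W 1 - ε * s := by ring
    rw [e3]
  rw [h1]
  calc ∫⁻ x, U {s | Function.update x (1 : ℤ) s ∈ S} ∂PZ
      ≤ ∫⁻ x, ENNReal.ofReal (8 * R * t / ε) *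
        ENNReal.ofReal (1 / rlen (fun n => W n + ε * x n) E ((K + 1 : ℕ) : ℤ) K) ∂PZ :=
        lintegral_mono h2
    _ = ENNReal.ofReal (8 * R * t / ε) * ∫⁻ x,
        ENNReal.ofReal (1 / rlen (fun n => W n + ε * x n) E ((K + 1 : ℕ) : ℤ) K) ∂PZ :=
        lintegral_const_mul' _ _ ENNReal.ofReal_ne_top
    _ ≤ ENNReal.ofReal (8 * R * t / ε) * ENNReal.ofReal (C / ε * (1 - c * ε ^ 2) ^ K) := by
        gcongr
        exact hJ ε E W _ K hε hε1
    _ ≤ ENNReal.ofReal (16 * C * R / ε ^ 2 * t * (1 - c * ε ^ 2) ^ (K + 1)) := by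
        rw [← ENNReal.ofReal_mul (by positivity)]
        apply ENNReal.ofReal_le_ofReal
        have hx : 1 / 2 ≤ 1 - c * ε ^ 2 := by
          have : c * ε ^ 2 ≤ 1 / 2 * 1 := by
            apply mul_le_mul hc2 _ (by positivity) (by norm_num)
            nlinarith
          linarith
        have hq : 0 ≤ (1 - c * ε ^ 2) ^ K := pow_nonneg (by linarith) K
        have e1 : 8 * R * t / ε * (C / ε * (1 - c * ε ^ 2) ^ K) =
            (8 * C * R / ε ^ 2 * t) * (1 - c * ε ^ 2) ^ K := by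
          field_simp
        have e2 : 16 * C * R / ε ^ 2 * t * (1 - c * ε ^ 2) ^ (K + 1) =
            (8 * C * R / ε ^ 2 * t) * (2 * (1 - c * ε ^ 2)) * (1 - c * ε ^ 2) ^ K := by
          ring
        rw [e1, e2]
        apply mul_le_mul_of_nonneg_right _ hq
        apply le_mul_of_one_le_right (by positivity)
        linarith

end Pool.Agent.PP27.TaskFE
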