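import Pool.Agent.H695R3.PP.Stmts

/-!
# `TaskG1`: the probability of the first bad event (helper151)
-/

set_option autoImplicit false

open scoped BigOperators ENNReal
open MeasureTheory
open Pool.Agent.H695R3.PP

namespace Pool.Agent.PP27.G1

lemma rsol_congr {V V' : ℤ → ℝ} (E : ℝ) (b : ℤ) (j : ℕ)
    (h : ∀ i : ℕ, i < j → V (b - i) = V' (b - i)) : rsol V E b j = rsol V' E b j := by
  induction j with
  | zero => rfl
  | succ j ih =>
    have h1 := ih (fun i hi => h i (by omega))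
    simp only [rsol]
    rw [h1, h j (by omega)]

lemma rsol_cont (W : ℤ → ℝ) (ε : ℝ) (b : ℤ) (j : ℕ) :
    Continuous (fun p : (ℤ → ℝ) × ℝ => rsol (fun n => W n + ε * p.1 n) p.2 b j) := by
  induction j with
  | zero => simp only [rsol]; exact continuous_const
  | succ j ih =>
    simp only [rsol]
    fun_prop

lemma rsol_eq {V : ℤ → ℝ} {a b : ℤ} {E : ℝ} {ψ : ℤ → ℝ} (h : IsEig V a b E ψ) (j : ℕ)
    (hj : (j : ℤ) ≤ b - a) :
    ψ (b - j) = ψ b * (rsol V E b j).1 ∧ ψ (b - j + 1) = ψ b * (rsol V E b j).2 := by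
  induction j with
  | zero =>
    simp only [rsol, Nat.cast_zero, sub_zero, mul_one, mul_zero, true_and]
    exact h.1 _ (Or.inr (by omega))
  | succ j ih =>
    obtain ⟨h1, h2⟩ := ih (by push_cast at hj; omega)
    have h3 := h.2.2 (b - j) (by push_cast at hj; omega) (by omega)
    have e1 : b - ((j + 1 : ℕ) : ℤ) = b - j - 1 := by push_cast; ring
    rw [e1]
    have e2 : b - (j : ℤ) - 1 + 1 = b - j := by ring
    rw [e2]
    simp only [rsol]
    refine ⟨?_, h1⟩
    have : ψ (b - j - 1) = (E - V (b - j)) * ψ (b - j) - ψ (b - j + 1) := by linarith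
    rw [this, h1, h2]
    ring

lemma eig_le_one {V : ℤ → ℝ} {a b : ℤ} {E : ℝ} {ψ : ℤ → ℝ} (h : IsEig V a b E ψ) (n : ℤ) :
    |ψ n| ≤ 1 := by
  by_cases hn : n < a ∨ b < n
  · rw [h.1 n hn]; simp
  · push Not at hn
    have h1 : ψ n ^ 2 ≤ nsq a b ψ :=
      Finset.single_le_sum (f := fun n => ψ n ^ 2) (fun i _ => sq_nonneg _)
        (Finset.mem_Icc.mpr hn)
    rw [h.2.1] at h1
    exact abs_le_one_iff_mul_self_le_one.mpr (by nlinarith)

lemma eig_energy {V : ℤ → ℝ} {a b : ℤ} {E M : ℝ} {ψ : ℤ → ℝ} (h : IsEig V a b E ψ)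
    (hV : ∀ n, |V n| ≤ M) : |E| ≤ M + 2 := by
  have hne : (Finset.Icc a b).Nonempty := by
    by_contra hne
    rw [Finset.not_nonempty_iff_eq_empty] at hne
    have := h.2.1
    unfold nsq at this
    rw [hne] at this
    simp at this
  obtain ⟨n, hn, hmax⟩ := Finset.exists_max_image (Finset.Icc a b) (fun n => |ψ n|) hne
  have hall : ∀ k, |ψ k| ≤ |ψ n| := by
    intro k
    by_cases hk : k < a ∨ b < k
    · rw [h.1 k hk]; simp
    · push Not at hk
      exact hmax k (Finset.mem_Icc.mpr hk)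
  have hpos : 0 < |ψ n| := by
    by_contra hcon
    have hz : ∀ k, ψ k = 0 := by
      intro k
      have := hall k
      have h2 : |ψ k| ≤ 0 := by linarith
      exact abs_nonpos_iff.mp h2
    have := h.2.1
    unfold nsq at this
    simp [hz] at this
  have hn' := Finset.mem_Icc.mp hn
  have heq := h.2.2 n hn'.1 hn'.2
  have h1 : |E| * |ψ n| ≤ (M + 2) * |ψ n| := by
    rw [← abs_mul, ← heq]
    calc |ψ (n + 1) + ψ (n - 1) + V n * ψ n|
        ≤ |ψ (n + 1)| + |ψ (n - 1)| + |V n * ψ n| := abs_add_three _ _ _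
      _ ≤ |ψ n| + |ψ n| + M * |ψ n| := by
          rw [abs_mul]
          have g1 := hall (n + 1)
          have g2 := hall (n - 1)
          have g3 : |V n| * |ψ n| ≤ M * |ψ n| :=
            mul_le_mul_of_nonneg_right (hV n) (abs_nonneg _)
          linarith
      _ = (M + 2) * |ψ n| := by ring
  exact le_of_mul_le_mul_right h1 hpos

lemma eig_neg {V : ℤ → ℝ} {L : ℤ} {E : ℝ} {ψ : ℤ → ℝ} (h : IsEig V (-L) L E ψ) :
    IsEig (fun n => V (-n)) (-L) L E (fun n => ψ (-n)) := by
  refine ⟨fun n hn => h.1 _ (by omega), ?_, fun n h1 h2 => ?_⟩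
  · rw [← h.2.1]
    unfold nsq
    refine Finset.sum_nbij' (fun n => -n) (fun n => -n) ?_ ?_ ?_ ?_ ?_
    · intro n hn; simp only [Finset.mem_Icc] at hn ⊢; omega
    · intro n hn; simp only [Finset.mem_Icc] at hn ⊢; omega
    · intro n _; simp
    · intro n _; simp
    · intro n _; rfl
  · have := h.2.2 (-n) (by omega) (by omega)
    have e1 : -(n + 1) = -n - 1 := by ring
    have e2 : -(n - 1) = -n + 1 := by ring
    simp only [e1, e2]
    linarith

lemma ae_le_one : ∀ᵐ x ∂PZ, ∀ n : ℤ, |x n| ≤ 1 := by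
  rw [ae_all_iff]
  intro n
  have hU : ∀ᵐ y ∂U, |y| ≤ 1 := by
    unfold U
    refine Measure.ae_smul_measure ?_ _
    filter_upwards [ae_restrict_mem measurableSet_Icc] with y hy
    exact abs_le.mpr hy
  have := (measurePreserving_eval_infinitePi (fun _ : ℤ => U) n).quasiMeasurePreserving.ae hU
  exact this

lemma mp_neg : MeasurePreserving (fun (x : ℤ → ℝ) (n : ℤ) => x (-n)) PZ PZ := by
  have h := Measure.infinitePi_map_piCongrLeft (fun _ : ℤ => U) (Equiv.neg ℤ)
  refine ⟨by fun_prop, ?_⟩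
  have e : (fun (x : ℤ → ℝ) (n : ℤ) => x (-n)) =
      MeasurableEquiv.piCongrLeft (fun _ : ℤ => ℝ) (Equiv.neg ℤ) := by
    funext x n
    have h2 := MeasurableEquiv.piCongrLeft_apply_apply (Equiv.neg ℤ) (β := fun _ : ℤ => ℝ) x (-n)
    simp only [Equiv.neg_apply, neg_neg] at h2
    exact h2.symm
  rw [e]
  exact h

/-- The set of the energies. -/
def AS (W : ℤ → ℝ) (ε R t : ℝ) (L : ℕ) (x : ℤ → ℝ) : Set ℝ :=
  {E | |E| ≤ R ∧ |(rsol (fun n => W n + ε * x n) E L L).1| ≤ t}

lemma meas_graph (W : ℤ → ℝ) (ε R t : ℝ) (L : ℕ) :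
    MeasurableSet {p : (ℤ → ℝ) × ℝ | p.2 ∈ AS W ε R t L p.1} := by
  have h1 : Continuous (fun p : (ℤ → ℝ) × ℝ => |p.2|) := by fun_prop
  have h2 : Continuous
      (fun p : (ℤ → ℝ) × ℝ => |(rsol (fun n => W n + ε * p.1 n) p.2 L L).1|) :=
    (continuous_fst.comp (rsol_cont W ε L L)).abs
  exact ((isClosed_le h1 continuous_const).inter
    (isClosed_le h2 continuous_const)).measurableSet

lemma meas_vol (W : ℤ → ℝ) (ε R t : ℝ) (L : ℕ) :
    Measurable (fun x => volume (AS W ε R t L x)) :=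
  measurable_measure_prodMk_left (ν := (volume : Measure ℝ)) (meas_graph W ε R t L)

lemma int_vol (W : ℤ → ℝ) (ε R t : ℝ) (L : ℕ) (K : ℝ≥0∞)
    (hK : ∀ E : ℝ, |E| ≤ R → PZ {x | |(rsol (fun n => W n + ε * x n) E L L).1| ≤ t} ≤ K) :
    ∫⁻ x, volume (AS W ε R t L x) ∂PZ ≤ K * ENNReal.ofReal (2 * R) := by
  have h1 := Measure.prod_apply (μ := PZ) (ν := (volume : Measure ℝ)) (meas_graph W ε R t L)
  have h2 := Measure.prod_apply_symm (μ := PZ) (ν := (volume : Measure ℝ)) (meas_graph W ε R t L)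
  have h3 : ∫⁻ x, volume (AS W ε R t L x) ∂PZ =
      ∫⁻ E, PZ ((fun x => (x, E)) ⁻¹' {p : (ℤ → ℝ) × ℝ | p.2 ∈ AS W ε R t L p.1}) := by
    rw [← h2, h1]
    rfl
  rw [h3]
  calc ∫⁻ E, PZ ((fun x => (x, E)) ⁻¹' {p : (ℤ → ℝ) × ℝ | p.2 ∈ AS W ε R t L p.1})
      ≤ ∫⁻ E, (Set.Icc (-R) R).indicator (fun _ => K) E := by
        refine lintegral_mono fun E => ?_
        by_cases hE : |E| ≤ R
        · rw [Set.indicator_of_mem (by exact abs_le.mp hE)]
          refine le_trans (measure_mono ?_) (hK E hE)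
          intro x hx
          exact hx.2
        · have : ((fun x => (x, E)) ⁻¹' {p : (ℤ → ℝ) × ℝ | p.2 ∈ AS W ε R t L p.1}) = ∅ := by
            ext x
            simp only [Set.mem_preimage, Set.mem_setOf_eq, Set.mem_empty_iff_false, iff_false]
            intro hx
            exact hE hx.1
          rw [this]
          simp
    _ = K * ENNReal.ofReal (2 * R) := by
        rw [lintegral_indicator_const measurableSet_Icc, Real.volume_Icc]
        congr 2
        ring

end Pool.Agent.PP27.G1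

namespace Pool.Agent.PP27.TaskG1

open Pool.Agent.PP27.G1

theorem main (hFE : TaskFE) (hSAP : TaskSAP) (hMeas : TaskMeas) :
    Pool.Agent.H695R3.PP.TaskG1 := by
  obtain ⟨c, C, hc, hc2, hC, hFE⟩ := hFE
  refine ⟨c, 32 * C, hc, hc2, by positivity, ?_⟩
  intro ε R a τ W L hε hε1 hR hW ha hτ hL
  have hq : 0 < 1 - c * ε ^ 2 := by
    have : ε ^ 2 ≤ 1 := by nlinarith
    nlinarith
  -- the good event
  set B : Set (ℤ → ℝ) :=
    {x | (∀ n, |x n| ≤ 1) ∧ Bad1 L a τ (fun n => W n + ε * x n)} with hB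
  have hBm : MeasurableSet B := by
    have h1 : MeasurableSet {x : ℤ → ℝ | ∀ n, |x n| ≤ 1} := by
      rw [Set.setOf_forall]
      refine MeasurableSet.iInter fun n => ?_
      exact (isClosed_le (by fun_prop) continuous_const).measurableSet
    have h2 : Measurable (fun (x : ℤ → ℝ) (n : ℤ) => W n + ε * x n) := by fun_prop
    exact h1.inter (h2 (hMeas.1 L a τ))
  have hle : PZ {x | Bad1 L a τ (fun n => W n + ε * x n)} ≤ PZ B := by
    refine measure_mono_ae ?_
    filter_upwards [ae_le_one] with x hx hx2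
    exact ⟨hx, hx2⟩
  refine le_trans hle ?_
  set A : (ℤ → ℝ) → Set ℝ := fun x =>
    AS W ε (R + 3) (1 / τ) L x ∪ AS (fun n => W (-n)) ε (R + 3) (1 / τ) L (fun n => x (-n))
    with hA
  have hAup : ∀ x s, A (Function.update x 0 s) = A x := by
    intro x s
    have e1 : ∀ E : ℝ, rsol (fun n => W n + ε * Function.update x 0 s n) E L L =
        rsol (fun n => W n + ε * x n) E L L := by
      intro E
      refine rsol_congr E _ _ fun i hi => ?_
      have : (L : ℤ) - i ≠ 0 := by omega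
      simp only [Function.update_of_ne this]
    have e2 : ∀ E : ℝ, rsol (fun n => W (-n) + ε * Function.update x 0 s (-n)) E L L =
        rsol (fun n => W (-n) + ε * x (-n)) E L L := by
      intro E
      refine rsol_congr E _ _ fun i hi => ?_
      have : -((L : ℤ) - i) ≠ 0 := by omega
      simp only [Function.update_of_ne this]
    simp only [hA, AS, e1, e2]
  have hex : ∀ x ∈ B, ∃ E ∈ A x, ∃ ψ,
      IsEig (fun n => W n + ε * x n) (-(L : ℤ)) L E ψ ∧ a ^ 2 ≤ ψ 0 ^ 2 := by
    rintro x ⟨hx1, E, ψ, hψ, hψ0, hψτ⟩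
    have hE : |E| ≤ R + 3 := by
      have := eig_energy (M := R + 1) hψ (fun n => by
        calc |W n + ε * x n| ≤ |W n| + |ε * x n| := abs_add_le _ _
          _ ≤ R + 1 := by
              rw [abs_mul, abs_of_pos hε]
              have h1 := hW n
              have h2 := hx1 n
              have h3 : ε * |x n| ≤ 1 * 1 := mul_le_mul hε1 h2 (abs_nonneg _) (by norm_num)
              linarith)
      linarith
    refine ⟨E, ?_, ψ, hψ, ?_⟩
    · rcases hψτ with h | h
      · refine Or.inl ⟨hE, ?_⟩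
        have h1 := (rsol_eq hψ L (by omega)).1
        rw [sub_self] at h1
        have h2 := eig_le_one hψ 0
        rw [h1, abs_mul] at h2
        rw [le_div_iff₀ hτ]
        calc |(rsol (fun n => W n + ε * x n) E L L).1| * τ
            ≤ |(rsol (fun n => W n + ε * x n) E L L).1| * |ψ L| := by gcongr
          _ = |ψ L| * |(rsol (fun n => W n + ε * x n) E L L).1| := mul_comm _ _
          _ ≤ 1 := h2
      · refine Or.inr ⟨hE, ?_⟩
        have hψ' := eig_neg hψ
        have h1 := (rsol_eq hψ' L (by omega)).1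
        rw [sub_self] at h1
        have h2 := eig_le_one hψ' 0
        rw [h1, abs_mul] at h2
        rw [le_div_iff₀ hτ]
        calc |(rsol (fun n => W (-n) + ε * x (-n)) E L L).1| * τ
            ≤ |(rsol (fun n => W (-n) + ε * x (-n)) E L L).1| * |ψ (-L)| := by gcongr
          _ = |ψ (-L)| * |(rsol (fun n => W (-n) + ε * x (-n)) E L L).1| := mul_comm _ _
          _ ≤ 1 := h2
    · rw [← sq_abs (ψ 0)]
      exact pow_le_pow_left₀ ha.le hψ0 2
  have hSA := hSAP W ε (a ^ 2) (-(L : ℤ)) L 0 A B hε (by positivity) hBm hAup hex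
  refine le_trans hSA ?_
  set K : ℝ := C * (R + 3) / ε ^ 2 * (1 / τ) * (1 - c * ε ^ 2) ^ L with hK
  have hK0 : 0 ≤ K := by
    have : 0 ≤ R + 3 := by linarith
    positivity
  have i1 : ∫⁻ x, volume (AS W ε (R + 3) (1 / τ) L x) ∂PZ ≤
      ENNReal.ofReal K * ENNReal.ofReal (2 * (R + 3)) := by
    refine int_vol W ε (R + 3) (1 / τ) L _ fun E hE => ?_
    exact hFE ε (R + 3) E (1 / τ) W L hε hε1 (by linarith) hE
      (fun n => by have := hW n; linarith) (by positivity) hL
  have i2 : ∫⁻ x, volume (AS (fun n => W (-n)) ε (R + 3) (1 / τ) L (fun n => x (-n))) ∂PZ ≤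
      ENNReal.ofReal K * ENNReal.ofReal (2 * (R + 3)) := by
    rw [mp_neg.lintegral_comp (meas_vol (fun n => W (-n)) ε (R + 3) (1 / τ) L)]
    refine int_vol (fun n => W (-n)) ε (R + 3) (1 / τ) L _ fun E hE => ?_
    exact hFE ε (R + 3) E (1 / τ) (fun n => W (-n)) L hε hε1 (by linarith) hE
      (fun n => by have := hW (-n); linarith) (by positivity) hL
  calc ∫⁻ x, ENNReal.ofReal (1 / (2 * ε * a ^ 2)) * volume (A x) ∂PZ
      ≤ ∫⁻ x, ENNReal.ofReal (1 / (2 * ε * a ^ 2)) *
          (volume (AS W ε (R + 3) (1 / τ) L x) +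
            volume (AS (fun n => W (-n)) ε (R + 3) (1 / τ) L (fun n => x (-n)))) ∂PZ := by
        refine lintegral_mono fun x => ?_
        gcongr
        exact measure_union_le _ _
    _ = ENNReal.ofReal (1 / (2 * ε * a ^ 2)) *
          (∫⁻ x, volume (AS W ε (R + 3) (1 / τ) L x) ∂PZ +
            ∫⁻ x, volume (AS (fun n => W (-n)) ε (R + 3) (1 / τ) L (fun n => x (-n))) ∂PZ) := by
        have m1 := meas_vol W ε (R + 3) (1 / τ) L
        have m2 : Measurable (fun x : ℤ → ℝ =>
            volume (AS (fun n => W (-n)) ε (R + 3) (1 / τ) L (fun n => x (-n)))) :=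
          (meas_vol (fun n => W (-n)) ε (R + 3) (1 / τ) L).comp mp_neg.measurable
        rw [← lintegral_add_left m1]
        exact lintegral_const_mul _ (m1.add m2)
    _ ≤ ENNReal.ofReal (1 / (2 * ε * a ^ 2)) *
          (ENNReal.ofReal K * ENNReal.ofReal (2 * (R + 3)) +
            ENNReal.ofReal K * ENNReal.ofReal (2 * (R + 3))) := by gcongr
    _ = ENNReal.ofReal (1 / (2 * ε * a ^ 2) * (2 * (K * (2 * (R + 3))))) := by
        rw [← ENNReal.ofReal_mul hK0, ← ENNReal.ofReal_add (by positivity) (by positivity),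
          ← ENNReal.ofReal_mul (by positivity)]
        congr 1
        ring
    _ ≤ ENNReal.ofReal (32 * C * R ^ 2 / (ε ^ 3 * a ^ 2 * τ) * (1 - c * ε ^ 2) ^ L) := by
        refine ENNReal.ofReal_le_ofReal ?_
        have e : 1 / (2 * ε * a ^ 2) * (2 * (K * (2 * (R + 3)))) =
            2 * C * (R + 3) ^ 2 / (ε ^ 3 * a ^ 2 * τ) * (1 - c * ε ^ 2) ^ L := by
          rw [hK]
          field_simp
        rw [e]
        have h1 : (R + 3) ^ 2 ≤ 16 * R ^ 2 := by nlinarith
        have h2 : 2 * C * (R + 3) ^ 2 ≤ 32 * C * R ^ 2 := by nlinarith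
        gcongr

end Pool.Agent.PP27.TaskG1
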