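import Mathlib
import Pool.Agent.H695R3.PP.Stmts

set_option autoImplicit false

/-!
Spectral averaging.
-/

namespace Pool.Agent.PP27.TaskSA

open MeasureTheory Set Filter Topology
open Pool.Agent.H695R3.PP

/-- solution of the difference equation from one end -/
def sol (w : ℕ → ℝ) : ℕ → ℝ → ℝ
  | 0, _ => 0
  | 1, _ => 1
  | (j + 2), E => (E - w j) * sol w (j + 1) E - sol w j E

/-- its derivative -/
def dsol (w : ℕ → ℝ) : ℕ → ℝ → ℝ
  | 0, _ => 0
  | 1, _ => 0
  | (j + 2), E => sol w (j + 1) E + (E - w j) * dsol w (j + 1) E - dsol w j E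

theorem sol_deriv (w : ℕ → ℝ) (E : ℝ) : ∀ j, HasDerivAt (sol w j) (dsol w j E) E
  | 0 => by
    have h : sol w 0 = fun _ => (0:ℝ) := by funext x; rw [sol]
    rw [h, dsol]
    exact hasDerivAt_const E (0:ℝ)
  | 1 => by
    have h : sol w 1 = fun _ => (1:ℝ) := by funext x; rw [sol]
    rw [h, dsol]
    exact hasDerivAt_const E (1:ℝ)
  | (j + 2) => by
    have h1 := sol_deriv w E (j + 1)
    have h0 := sol_deriv w E j
    have h2 := (((hasDerivAt_id E).sub_const (w j)).mul h1).sub h0
    have h : sol w (j + 2) = fun E => (E - w j) * sol w (j + 1) E - sol w j E := by funext x; rw [sol]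
    rw [h, dsol]
    refine HasDerivAt.congr_deriv h2 ?_
    simp only [id]
    ring

theorem sol_cont (w : ℕ → ℝ) (j : ℕ) : Continuous (sol w j) :=
  continuous_iff_continuousAt.2 (fun E => (sol_deriv w E j).continuousAt)

theorem wron (w : ℕ → ℝ) (E : ℝ) (j : ℕ) :
    sol w j E * dsol w (j + 1) E - sol w (j + 1) E * dsol w j E = ∑ k ∈ Finset.range (j + 1), sol w k E ^ 2 := by
  induction j with
  | zero => simp [sol, dsol]
  | succ j ih =>
    rw [Finset.sum_range_succ, ← ih]
    have h1 : dsol w (j + 1 + 1) E = sol w (j + 1) E + (E - w j) * dsol w (j + 1) E - dsol w j E := by rw [dsol]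
    have h2 : sol w (j + 1 + 1) E = (E - w j) * sol w (j + 1) E - sol w j E := by rw [sol]
    rw [h1, h2]
    ring

theorem ratio_deriv (w : ℕ → ℝ) (p : ℕ) (E : ℝ) (h : sol w (p + 1) E ≠ 0) :
    HasDerivAt (fun E => sol w p E / sol w (p + 1) E)
      (-((∑ k ∈ Finset.range (p + 1), sol w k E ^ 2) / sol w (p + 1) E ^ 2)) E := by
  have h1 := (sol_deriv w E p).div (sol_deriv w E (p + 1)) h
  refine HasDerivAt.congr_deriv h1 ?_
  rw [← wron, ← neg_div]
  congr 1
  ring

theorem sum_left (F : ℤ → ℝ) (a : ℤ) (k : ℕ) :
    ∑ n ∈ Finset.Icc a (a + k - 1), F n = ∑ j ∈ Finset.range k, F (a + j) := by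
  induction k with
  | zero => simp
  | succ k ih =>
    rw [Finset.sum_range_succ, ← ih]
    have h : Finset.Icc a (a + ((k + 1 : ℕ) : ℤ) - 1) = insert (a + (k : ℤ)) (Finset.Icc a (a + k - 1)) := by
      ext n
      simp only [Finset.mem_Icc, Finset.mem_insert]
      push_cast
      omega
    rw [h, Finset.sum_insert (by simp only [Finset.mem_Icc]; omega)]
    ring

theorem sum_right (F : ℤ → ℝ) (b : ℤ) (k : ℕ) :
    ∑ n ∈ Finset.Icc (b - k + 1) b, F n = ∑ j ∈ Finset.range k, F (b - j) := by
  induction k with
  | zero => simp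
  | succ k ih =>
    rw [Finset.sum_range_succ, ← ih]
    have h : Finset.Icc (b - ((k + 1 : ℕ) : ℤ) + 1) b = insert (b - (k : ℤ)) (Finset.Icc (b - k + 1) b) := by
      ext n
      simp only [Finset.mem_Icc, Finset.mem_insert]
      push_cast
      omega
    rw [h, Finset.sum_insert (by simp only [Finset.mem_Icc]; omega)]
    ring

theorem sum_shift (w : ℕ → ℝ) (E : ℝ) (p : ℕ) :
    ∑ k ∈ Finset.range (p + 1), sol w k E ^ 2 = ∑ j ∈ Finset.range p, sol w (j + 1) E ^ 2 := by
  rw [Finset.sum_range_succ']
  simp [sol]

theorem main : TaskSA := by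
  intro V a b m A κ hκ
  by_cases hm : a ≤ m ∧ m ≤ b
  swap
  · have hempty : {t : ℝ | ∃ E ∈ A, ∃ ψ, IsEig (Function.update V m t) a b E ψ ∧ κ ≤ ψ m ^ 2} = ∅ := by
      ext t
      simp only [mem_ofPred_eq, mem_empty_iff_false, iff_false]
      rintro ⟨E, _, ψ, h, h2⟩
      have h3 : ψ m = 0 := h.1 m (by omega)
      rw [h3] at h2
      norm_num at h2
      linarith
    rw [hempty]
    simp
  obtain ⟨ham, hmb⟩ := hm
  obtain ⟨p, hp⟩ := Int.eq_ofNat_of_zero_le (show 0 ≤ m - a by omega)
  obtain ⟨q, hq⟩ := Int.eq_ofNat_of_zero_le (show 0 ≤ b - m by omega)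
  set wL : ℕ → ℝ := fun j => V (a + j) with hwL
  set wR : ℕ → ℝ := fun j => V (b - j) with hwR
  set SL : ℝ → ℝ := fun E => ∑ k ∈ Finset.range (p + 1), sol wL k E ^ 2 with hSL
  set SRr : ℝ → ℝ := fun E => ∑ k ∈ Finset.range (q + 1), sol wR k E ^ 2 with hSR
  set g : ℝ → ℝ := fun E => E - sol wL p E / sol wL (p + 1) E - sol wR q E / sol wR (q + 1) E with hg
  set g' : ℝ → ℝ := fun E => 1 + SL E / sol wL (p + 1) E ^ 2 + SRr E / sol wR (q + 1) E ^ 2 with hg'
  have hSLc : Measurable SL := Finset.measurable_sum _ (fun k _ => (sol_cont wL k).measurable.pow_const 2)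
  have hSRc : Measurable SRr := Finset.measurable_sum _ (fun k _ => (sol_cont wR k).measurable.pow_const 2)
  have hg'm : Measurable g' :=
    (measurable_const.add (hSLc.div ((sol_cont wL (p + 1)).measurable.pow_const 2))).add
      (hSRc.div ((sol_cont wR (q + 1)).measurable.pow_const 2))
  set D : Set ℝ := {E | sol wL (p + 1) E ≠ 0} ∩ ({E | sol wR (q + 1) E ≠ 0} ∩ {E | g' E ≤ 1 / κ}) with hD
  have hDm : MeasurableSet D := by
    refine MeasurableSet.inter ?_ (MeasurableSet.inter ?_ ?_)
    · exact ((sol_cont wL (p + 1)).measurable (measurableSet_singleton 0)).compl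
    · exact ((sol_cont wR (q + 1)).measurable (measurableSet_singleton 0)).compl
    · exact measurableSet_le hg'm measurable_const
  set S : Set ℝ := toMeasurable volume A ∩ D with hS
  have hSm : MeasurableSet S := (measurableSet_toMeasurable _ _).inter hDm
  have hder : ∀ E ∈ D, HasDerivAt g (g' E) E := by
    rintro E ⟨h1, h2, _⟩
    have h3 := ((hasDerivAt_id E).sub (ratio_deriv wL p E h1)).sub (ratio_deriv wR q E h2)
    refine HasDerivAt.congr_deriv h3 ?_
    show 1 - -(SL E / sol wL (p + 1) E ^ 2) - -(SRr E / sol wR (q + 1) E ^ 2) = _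
    rw [hg']
    ring
  have hg'0 : ∀ E, 0 ≤ g' E := by
    intro E
    have h1 : 0 ≤ SL E := Finset.sum_nonneg (fun _ _ => sq_nonneg _)
    have h2 : 0 ≤ SRr E := Finset.sum_nonneg (fun _ _ => sq_nonneg _)
    show 0 ≤ 1 + SL E / sol wL (p + 1) E ^ 2 + SRr E / sol wR (q + 1) E ^ 2
    positivity
  have hsub : {t : ℝ | ∃ E ∈ A, ∃ ψ, IsEig (Function.update V m t) a b E ψ ∧ κ ≤ ψ m ^ 2} ⊆ g '' S := by
    rintro t ⟨E, hEA, ψ, ⟨hz, hn, heq⟩, hk⟩
    have hψm : ψ m ≠ 0 := by
      intro h
      rw [h] at hk
      norm_num at hk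
      linarith
    have hL : ∀ j : ℕ, j ≤ p + 1 → ψ (a - 1 + j) = ψ a * sol wL j E := by
      intro j
      induction j using Nat.strong_induction_on with
      | _ j ih =>
        intro hj
        match j, ih, hj with
        | 0, _, _ =>
          rw [sol, mul_zero]
          exact hz _ (by left; push_cast; omega)
        | 1, _, _ =>
          rw [sol, mul_one]
          congr 1
          push_cast
          ring
        | (j + 2), ih, hj =>
          have h1 := ih (j + 1) (by omega) (by omega)
          have h0 := ih j (by omega) (by omega)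
          have h2 := heq (a + j) (by omega) (by omega)
          have h3 : Function.update V m t (a + j) = wL j := by
            rw [Function.update_of_ne (by omega)]
          rw [h3] at h2
          have e1 : a - 1 + ((j + 2 : ℕ) : ℤ) = a + j + 1 := by push_cast; ring
          have e2 : a - 1 + ((j + 1 : ℕ) : ℤ) = a + j := by push_cast; ring
          have e3 : a - 1 + (j : ℤ) = a + j - 1 := by ring
          rw [e2] at h1
          rw [e3] at h0
          rw [h1, h0] at h2
          rw [e1, sol]
          linarith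
    have hR : ∀ j : ℕ, j ≤ q + 1 → ψ (b + 1 - j) = ψ b * sol wR j E := by
      intro j
      induction j using Nat.strong_induction_on with
      | _ j ih =>
        intro hj
        match j, ih, hj with
        | 0, _, _ =>
          rw [sol, mul_zero]
          exact hz _ (by right; push_cast; omega)
        | 1, _, _ =>
          rw [sol, mul_one]
          congr 1
          push_cast
          ring
        | (j + 2), ih, hj =>
          have h1 := ih (j + 1) (by omega) (by omega)
          have h0 := ih j (by omega) (by omega)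
          have h2 := heq (b - j) (by omega) (by omega)
          have h3 : Function.update V m t (b - j) = wR j := by
            rw [Function.update_of_ne (by omega)]
          rw [h3] at h2
          have e1 : b + 1 - ((j + 2 : ℕ) : ℤ) = b - j - 1 := by push_cast; ring
          have e2 : b + 1 - ((j + 1 : ℕ) : ℤ) = b - j := by push_cast; ring
          have e3 : b + 1 - (j : ℤ) = b - j + 1 := by ring
          rw [e2] at h1
          rw [e3] at h0
          rw [h1, h0] at h2
          rw [e1, sol]
          linarith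
    have hmL : ψ m = ψ a * sol wL (p + 1) E := by
      rw [← hL (p + 1) le_rfl]
      congr 1
      push_cast
      omega
    have hmR : ψ m = ψ b * sol wR (q + 1) E := by
      rw [← hR (q + 1) le_rfl]
      congr 1
      push_cast
      omega
    have hL1 : ψ (m - 1) = ψ a * sol wL p E := by
      rw [← hL p (by omega)]
      congr 1
      omega
    have hR1 : ψ (m + 1) = ψ b * sol wR q E := by
      rw [← hR q (by omega)]
      congr 1
      omega
    have hsL : sol wL (p + 1) E ≠ 0 := by
      intro h
      rw [h, mul_zero] at hmL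
      exact hψm hmL
    have hsR : sol wR (q + 1) E ≠ 0 := by
      intro h
      rw [h, mul_zero] at hmR
      exact hψm hmR
    have hψa : ψ a ≠ 0 := by
      intro h
      rw [h, zero_mul] at hmL
      exact hψm hmL
    have hψb : ψ b ≠ 0 := by
      intro h
      rw [h, zero_mul] at hmR
      exact hψm hmR
    have hgt : g E = t := by
      have h2 := heq m ham hmb
      rw [Function.update_self, hL1, hR1] at h2
      have h4 : sol wL p E / sol wL (p + 1) E = ψ a * sol wL p E / ψ m := by
        rw [hmL]
        field_simp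
      have h5 : sol wR q E / sol wR (q + 1) E = ψ b * sol wR q E / ψ m := by
        rw [hmR]
        field_simp
      show E - sol wL p E / sol wL (p + 1) E - sol wR q E / sol wR (q + 1) E = t
      rw [h4, h5]
      field_simp
      linarith
    have hnorm : g' E * ψ m ^ 2 = 1 := by
      have h1 : nsq a b ψ = ∑ j ∈ Finset.range p, ψ (a + j) ^ 2 + ψ m ^ 2 + ∑ j ∈ Finset.range q, ψ (b - j) ^ 2 := by
        rw [← sum_left (fun n => ψ n ^ 2) a p, ← sum_right (fun n => ψ n ^ 2) b q]
        have e1 : a + (p : ℤ) - 1 = m - 1 := by omega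
        have e2 : b - (q : ℤ) + 1 = m + 1 := by omega
        rw [e1, e2]
        unfold nsq
        have e3 : Finset.Icc a b = (insert m (Finset.Icc a (m - 1))) ∪ Finset.Icc (m + 1) b := by
          ext n
          simp only [Finset.mem_Icc, Finset.mem_insert, Finset.mem_union]
          omega
        rw [e3, Finset.sum_union, Finset.sum_insert (by simp only [Finset.mem_Icc]; omega)]
        · ring
        · rw [Finset.disjoint_left]
          intro n hn hn'
          simp only [Finset.mem_Icc, Finset.mem_insert] at hn hn'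
          omega
      have h2 : ∑ j ∈ Finset.range p, ψ (a + j) ^ 2 = ψ a ^ 2 * SL E := by
        rw [hSL]
        beta_reduce
        rw [sum_shift, Finset.mul_sum]
        apply Finset.sum_congr rfl
        intro j hj
        rw [Finset.mem_range] at hj
        rw [← mul_pow, ← hL (j + 1) (by omega)]
        congr 2
        push_cast
        ring
      have h3 : ∑ j ∈ Finset.range q, ψ (b - j) ^ 2 = ψ b ^ 2 * SRr E := by
        rw [hSR]
        beta_reduce
        rw [sum_shift, Finset.mul_sum]
        apply Finset.sum_congr rfl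
        intro j hj
        rw [Finset.mem_range] at hj
        rw [← mul_pow, ← hR (j + 1) (by omega)]
        congr 2
        push_cast
        ring
      rw [hn, h2, h3] at h1
      have h4 : SL E / sol wL (p + 1) E ^ 2 * ψ m ^ 2 = ψ a ^ 2 * SL E := by
        rw [hmL]
        field_simp
      have h5 : SRr E / sol wR (q + 1) E ^ 2 * ψ m ^ 2 = ψ b ^ 2 * SRr E := by
        rw [hmR]
        field_simp
      show (1 + SL E / sol wL (p + 1) E ^ 2 + SRr E / sol wR (q + 1) E ^ 2) * ψ m ^ 2 = 1
      rw [add_mul, add_mul, h4, h5, one_mul]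
      linarith
    have hle : g' E ≤ 1 / κ := by
      rw [le_div_iff₀ hκ]
      nlinarith [hg'0 E]
    exact ⟨E, ⟨subset_toMeasurable _ _ hEA, hsL, hsR, hle⟩, hgt⟩
  refine le_trans (measure_mono hsub) ?_
  refine le_trans (addHaar_image_le_lintegral_abs_det_fderiv volume hSm
    (f' := fun x => ContinuousLinearMap.toSpanSingleton ℝ (g' x)) (fun x hx => ?_)) ?_
  · exact (hder x hx.2).hasFDerivAt.hasFDerivWithinAt
  calc ∫⁻ x in S, ENNReal.ofReal |(ContinuousLinearMap.toSpanSingleton ℝ (g' x)).det| ∂volume ≤
      ∫⁻ x in S, ENNReal.ofReal (1 / κ) ∂volume := by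
        apply setLIntegral_mono' hSm
        intro x hx
        apply ENNReal.ofReal_le_ofReal
        have : (ContinuousLinearMap.toSpanSingleton ℝ (g' x)).det = g' x := by
          simp
        rw [this, abs_of_nonneg (hg'0 x)]
        exact hx.2.2.2
    _ = ENNReal.ofReal (1 / κ) * volume S := by
        rw [setLIntegral_const]
    _ ≤ ENNReal.ofReal (1 / κ) * volume A := by
        have h : volume S ≤ volume A :=
          le_trans (measure_mono inter_subset_left) (le_of_eq (measure_toMeasurable A))
        exact mul_le_mul' le_rfl h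

end Pool.Agent.PP27.TaskSA
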