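import Mathlib
import Pool.Agent.H695R3.PP.Stmts
import Pool.Agent.H853R3.PP.TaskResample
import Pool.Agent.PP27.TaskSA

set_option autoImplicit false

/-!
Spectral averaging, in probability.
-/

namespace Pool.Agent.PP27.TaskSAP

open MeasureTheory Set Filter Topology
open scoped ENNReal
open Pool.Agent.H695R3.PP

theorem U_affine (c ε : ℝ) (hε : 0 < ε) (T : Set ℝ) :
    U {s | c + ε * s ∈ T} ≤ ENNReal.ofReal (1 / (2 * ε)) * volume T := by
  unfold U
  rw [Measure.smul_apply, smul_eq_mul]
  have h1 : (volume.restrict (Icc (-1:ℝ) 1)) {s | c + ε * s ∈ T} ≤ volume {s | c + ε * s ∈ T} :=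
    Measure.restrict_apply_le _ _
  have h2 : volume {s | c + ε * s ∈ T} = ENNReal.ofReal |ε⁻¹| * volume T := by
    have h3 : {s | c + ε * s ∈ T} = (ε * ·) ⁻¹' ((c + ·) ⁻¹' T) := rfl
    rw [h3, Real.volume_preimage_mul_left hε.ne', measure_preimage_add]
  calc ENNReal.ofReal (1 / 2) * (volume.restrict (Icc (-1:ℝ) 1)) {s | c + ε * s ∈ T} ≤
      ENNReal.ofReal (1 / 2) * (ENNReal.ofReal |ε⁻¹| * volume T) := by
        rw [← h2]
        exact mul_le_mul' le_rfl h1
    _ = ENNReal.ofReal (1 / (2 * ε)) * volume T := by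
        rw [← mul_assoc, ← ENNReal.ofReal_mul (by norm_num), abs_of_pos (inv_pos.2 hε)]
        congr 2
        field_simp

theorem PZ_prod (m : ℤ) (B : Set (ℤ → ℝ)) (hB : MeasurableSet B) :
    PZ B = ∫⁻ x, U {s | Function.update x m s ∈ B} ∂PZ := by
  have h1 := Pool.Agent.H853R3.PP.Resample.taskResample ℤ (fun _ => ℝ) (fun _ => U) m
  have hm : Measurable (fun p : (ℤ → ℝ) × ℝ => Function.update p.1 m p.2) :=
    Pool.Agent.H853R3.PP.Resample.measurable_upd m
  have h2 : PZ B = Measure.map (fun p : (ℤ → ℝ) × ℝ => Function.update p.1 m p.2) (PZ.prod U) B := by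
    unfold PZ
    rw [h1]
  rw [h2, Measure.map_apply hm hB, Measure.prod_apply (hm hB)]
  rfl

theorem main : TaskSAP := by
  intro W ε κ a b m A B hε hκ hB hA hE
  rw [PZ_prod m B hB]
  apply lintegral_mono
  intro x
  beta_reduce
  have h1 : {s | Function.update x m s ∈ B} ⊆
      {s | W m + ε * s ∈ {t : ℝ | ∃ E ∈ A x, ∃ ψ, IsEig (Function.update (fun n => W n + ε * x n) m t) a b E ψ ∧ κ ≤ ψ m ^ 2}} := by
    intro s hs
    obtain ⟨E, hEA, ψ, h2, h3⟩ := hE _ hs
    rw [hA] at hEA
    refine ⟨E, hEA, ψ, ?_, h3⟩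
    have h4 : (fun n => W n + ε * Function.update x m s n) = Function.update (fun n => W n + ε * x n) m (W m + ε * s) := by
      funext n
      by_cases h : n = m
      · subst h
        rw [Function.update_self, Function.update_self]
      · rw [Function.update_of_ne h, Function.update_of_ne h]
    rw [← h4]
    exact h2
  refine le_trans (measure_mono h1) ?_
  refine le_trans (U_affine (W m) ε hε _) ?_
  refine le_trans (mul_le_mul' le_rfl (TaskSA.main (fun n => W n + ε * x n) a b m (A x) κ hκ)) ?_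
  rw [← mul_assoc, ← ENNReal.ofReal_mul (by positivity)]
  apply le_of_eq
  congr 2
  field_simp

end Pool.Agent.PP27.TaskSAP
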