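import Mathlib
import Pool.Agent.H695R3.PP.Stmts
import Pool.Agent.PP27.TaskSAP

set_option autoImplicit false

/-!
The probability of the second bad event.
-/

namespace Pool.Agent.PP27.TaskG2

open MeasureTheory Set Filter Topology
open scoped ENNReal
open Pool.Agent.H695R3.PP

theorem exists_site (V : ℤ → ℝ) (a b : ℤ) (E : ℝ) (φ : ℤ → ℝ) (h : IsEig V a b E φ) (M : ℕ)
    (hM : b - a + 1 ≤ M) (hM0 : 0 < M) : ∃ s, a ≤ s ∧ s ≤ b ∧ 1 / (M : ℝ) ≤ φ s ^ 2 := by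
  by_contra hcon
  push Not at hcon
  have h1 : nsq a b φ = 1 := h.2.1
  unfold nsq at h1
  have hMr : (0 : ℝ) < M := by exact_mod_cast hM0
  rcases (Finset.Icc a b).eq_empty_or_nonempty with he | hne
  · rw [he] at h1
    simp at h1
  · have h2 : ∑ n ∈ Finset.Icc a b, φ n ^ 2 < ∑ n ∈ Finset.Icc a b, 1 / (M : ℝ) :=
      Finset.sum_lt_sum_of_nonempty hne (fun n hn => by
        rw [Finset.mem_Icc] at hn
        exact hcon n hn.1 hn.2)
    rw [h1, Finset.sum_const, nsmul_eq_mul, Int.card_Icc] at h2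
    have h3 : (((b + 1 - a).toNat : ℕ) : ℝ) ≤ M := by
      have : (b + 1 - a).toNat ≤ M := by omega
      exact_mod_cast this
    rw [mul_one_div, lt_div_iff₀ hMr] at h2
    linarith

theorem eig_congr {V V' : ℤ → ℝ} {a b : ℤ} {E : ℝ} {ψ : ℤ → ℝ} (h : ∀ n, a ≤ n → n ≤ b → V n = V' n)
    (h2 : IsEig V a b E ψ) : IsEig V' a b E ψ :=
  ⟨h2.1, h2.2.1, fun n h3 h4 => by rw [← h n h3 h4]; exact h2.2.2 n h3 h4⟩

theorem main (hS : TaskSplit) (hC : TaskCard) (hCl : TaskClosed2) : TaskG2 := by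
  refine ⟨48, by norm_num, fun ε d W L hε hd => ?_⟩
  classical
  set M : ℕ := 2 * L + 1 with hM
  have hMr : (0 : ℝ) < M := by rw [hM]; positivity
  set κ : ℝ := 1 / (M : ℝ) with hκ
  have hκ0 : 0 < κ := by rw [hκ]; positivity
  let Vx : (ℤ → ℝ) → ℤ → ℝ := fun x n => W n + ε * x n
  let B : ℤ × ℤ → Set (ℤ → ℝ) := fun r => {x | ∃ lam φ lam' φ', IsEig (Vx x) (-(L : ℤ)) (r.1 - 1) lam φ ∧
    IsEig (Vx x) r.1 L lam' φ' ∧ |lam - lam'| ≤ 3 * d ∧ κ ≤ φ r.2 ^ 2}
  let J : Finset (ℤ × ℤ) := (Finset.Icc (-(L : ℤ) + 1) L ×ˢ Finset.Icc (-(L : ℤ)) L).filter (fun r => r.2 ≤ r.1 - 1)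
  have hsub : {x | Bad2 L d (fun n => W n + ε * x n)} ⊆ ⋃ r ∈ J, B r := by
    rintro x ⟨E, ψ, E', ψ', h1, h2, h3, h4⟩
    obtain ⟨m, hm1, hm2, lam, φ, lam', φ', h5, h6, h7⟩ := hS (Vx x) (-(L : ℤ)) L E E' d ψ ψ' (by omega) h1 h2 h3 h4
    obtain ⟨s, hs1, hs2, hs3⟩ := exists_site (Vx x) (-(L : ℤ)) (m - 1) lam φ h5 M (by rw [hM]; push_cast; omega) (by omega)
    simp only [mem_iUnion]
    refine ⟨(m, s), ?_, lam, φ, lam', φ', h5, h6, h7, hs3⟩
    simp only [J, Finset.mem_filter, Finset.mem_product, Finset.mem_Icc]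
    omega
  have hcont : Continuous Vx := by
    refine continuous_pi fun n => ?_
    exact continuous_const.add (continuous_const.mul (continuous_apply n))
  have hBm : ∀ r, MeasurableSet (B r) := by
    intro r
    let C : Set ((ℝ × (ℤ → ℝ)) × (ℝ × (ℤ → ℝ))) := {p | |p.1.1 - p.2.1| ≤ 3 * d} ∩ {p | κ ≤ p.1.2 r.2 ^ 2}
    have hCc : IsClosed C := by
      refine IsClosed.inter (isClosed_le ?_ continuous_const) (isClosed_le continuous_const ?_)
      · exact ((continuous_fst.comp continuous_fst).sub (continuous_fst.comp continuous_snd)).abs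
      · exact ((continuous_apply r.2).comp (continuous_snd.comp continuous_fst)).pow 2
    have h1 : B r = ⋃ R : ℕ, Vx ⁻¹' {V : ℤ → ℝ | ∃ E ψ E' ψ', |E| ≤ (R : ℝ) ∧ |E'| ≤ (R : ℝ) ∧
        IsEig V (-(L : ℤ)) (r.1 - 1) E ψ ∧ IsEig V r.1 L E' ψ' ∧ ((E, ψ), (E', ψ')) ∈ C} := by
      ext x
      simp only [mem_iUnion, mem_preimage, mem_ofPred_eq]
      constructor
      · rintro ⟨lam, φ, lam', φ', h5, h6, h7, h8⟩
        obtain ⟨R, hR⟩ := exists_nat_ge (max |lam| |lam'|)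
        exact ⟨R, lam, φ, lam', φ', le_trans (le_max_left _ _) hR, le_trans (le_max_right _ _) hR, h5, h6, h7, h8⟩
      · rintro ⟨R, lam, φ, lam', φ', _, _, h5, h6, h7, h8⟩
        exact ⟨lam, φ, lam', φ', h5, h6, h7, h8⟩
    rw [h1]
    exact MeasurableSet.iUnion (fun R => ((hCl (-(L : ℤ)) (r.1 - 1) r.1 L R C hCc).preimage hcont).measurableSet)
  have hB : ∀ r ∈ J, PZ (B r) ≤ ENNReal.ofReal (3 * (M : ℝ) ^ 2 * d / ε) := by
    rintro ⟨m, s⟩ hr
    simp only [J, Finset.mem_filter, Finset.mem_product, Finset.mem_Icc] at hr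
    obtain ⟨⟨⟨hm1, hm2⟩, hs1, hs2⟩, hsm⟩ := hr
    let A : (ℤ → ℝ) → Set ℝ := fun x => {E | ∃ lam' φ', IsEig (Vx x) m L lam' φ' ∧ |E - lam'| ≤ 3 * d}
    have hA : ∀ x t, A (Function.update x s t) = A x := by
      intro x t
      have h1 : ∀ n, m ≤ n → n ≤ L → Vx (Function.update x s t) n = Vx x n := by
        intro n h1 h2
        show W n + ε * Function.update x s t n = W n + ε * x n
        rw [Function.update_of_ne (by omega)]
      ext E
      constructor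
      · rintro ⟨lam', φ', h2, h3⟩
        exact ⟨lam', φ', eig_congr h1 h2, h3⟩
      · rintro ⟨lam', φ', h2, h3⟩
        exact ⟨lam', φ', eig_congr (fun n h4 h5 => (h1 n h4 h5).symm) h2, h3⟩
    have h2 := TaskSAP.main W ε κ (-(L : ℤ)) (m - 1) s A (B (m, s)) hε hκ0 (hBm _) hA (fun x hx => by
      obtain ⟨lam, φ, lam', φ', h5, h6, h7, h8⟩ := hx
      exact ⟨lam, ⟨lam', φ', h6, h7⟩, φ, h5, h8⟩)
    refine le_trans h2 ?_
    have h3 : ∀ x, volume (A x) ≤ ENNReal.ofReal ((M : ℝ) * (6 * d)) := by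
      intro x
      obtain ⟨F, hF1, hF2⟩ := hC (Vx x) m L hm2
      have h4 : A x ⊆ ⋃ e ∈ F, Icc (e - 3 * d) (e + 3 * d) := by
        rintro E ⟨lam', φ', h5, h6⟩
        simp only [mem_iUnion]
        rw [abs_le] at h6
        exact ⟨lam', hF2 lam' φ' h5, by constructor <;> linarith [h6.1, h6.2]⟩
      refine le_trans (measure_mono h4) ?_
      refine le_trans (measure_biUnion_finset_le _ _) ?_
      have h5 : ∀ e ∈ F, volume (Icc (e - 3 * d) (e + 3 * d)) = ENNReal.ofReal (6 * d) := by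
        intro e _
        rw [Real.volume_Icc]
        congr 1
        ring
      rw [Finset.sum_congr rfl h5, Finset.sum_const, nsmul_eq_mul]
      have h6 : (F.card : ℝ≥0∞) ≤ ENNReal.ofReal (M : ℝ) := by
        rw [ENNReal.ofReal_natCast]
        have : F.card ≤ M := by rw [hM]; omega
        exact_mod_cast this
      refine le_trans (mul_le_mul' h6 le_rfl) ?_
      rw [← ENNReal.ofReal_mul hMr.le]
    refine le_trans (lintegral_mono (fun x => mul_le_mul' le_rfl (h3 x))) ?_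
    rw [lintegral_const, measure_univ, mul_one, ← ENNReal.ofReal_mul (by positivity)]
    apply ENNReal.ofReal_le_ofReal
    apply le_of_eq
    rw [hκ]
    field_simp
    ring
  refine le_trans (measure_mono hsub) ?_
  refine le_trans (measure_biUnion_finset_le _ _) ?_
  refine le_trans (Finset.sum_le_sum hB) ?_
  rw [Finset.sum_const, nsmul_eq_mul]
  have hcard : (J.card : ℝ≥0∞) ≤ ENNReal.ofReal ((M : ℝ) ^ 2) := by
    have h1 : J.card ≤ M ^ 2 := by
      refine le_trans (Finset.card_filter_le _ _) ?_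
      rw [Finset.card_product, Int.card_Icc, Int.card_Icc, sq]
      apply Nat.mul_le_mul
      · rw [hM]; omega
      · rw [hM]; omega
    have h2 : ENNReal.ofReal ((M : ℝ) ^ 2) = ((M ^ 2 : ℕ) : ℝ≥0∞) := by
      rw [← ENNReal.ofReal_natCast]
      congr 1
      push_cast
      ring
    rw [h2]
    exact_mod_cast h1
  refine le_trans (mul_le_mul' hcard le_rfl) ?_
  rw [← ENNReal.ofReal_mul (by positivity)]
  apply ENNReal.ofReal_le_ofReal
  have h1 : (M : ℝ) = 2 * L + 1 := by rw [hM]; push_cast; ring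
  have h2 : (M : ℝ) ^ 4 ≤ 16 * ((L : ℝ) + 1) ^ 4 := by
    have h3 : (M : ℝ) ≤ 2 * ((L : ℝ) + 1) := by rw [h1]; linarith
    calc (M : ℝ) ^ 4 ≤ (2 * ((L : ℝ) + 1)) ^ 4 := by gcongr
      _ = 16 * ((L : ℝ) + 1) ^ 4 := by ring
  have h4 : (M : ℝ) ^ 2 * (3 * (M : ℝ) ^ 2 * d / ε) = 3 * (M : ℝ) ^ 4 * d / ε := by ring
  rw [h4]
  have h5 : 3 * (M : ℝ) ^ 4 ≤ 48 * ((L : ℝ) + 1) ^ 4 := by linarith
  exact div_le_div_of_nonneg_right (mul_le_mul_of_nonneg_right h5 hd.le) hε.le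

end Pool.Agent.PP27.TaskG2
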