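import Pool.Agent.H695R3.PP.Stmts

/-!
# Project H695-LP, TaskGroup: small open subgroups
-/

set_option autoImplicit false

namespace Pool.Agent.PP27.TaskGroup

open Pool.Agent.H695R3.PP

theorem main : TaskGroup := by
  intro Ω _ _ _ _ _ _ _ α hα N
  have hne : ∀ j : ℤ, j ≠ 0 → j • α ≠ 0 := by
    intro j hj h0
    have hfin : (Set.range fun n : ℤ => n • α).Finite := by
      have hsub : (Set.range fun n : ℤ => n • α) ⊆
          (fun n : ℤ => n • α) '' (Set.Ico 0 |j|) := by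
        rintro _ ⟨n, rfl⟩
        refine ⟨n % |j|, ⟨Int.emod_nonneg _ (abs_ne_zero.2 hj),
          Int.emod_lt_of_pos _ (abs_pos.2 hj)⟩, ?_⟩
        have h1 : |j| • α = 0 := by
          rcases abs_choice j with h | h
          · rw [h, h0]
          · rw [h, neg_smul, h0, neg_zero]
        have h2 : n = n % |j| + |j| * (n / |j|) := (Int.emod_add_mul_ediv n |j|).symm
        change (n % |j|) • α = n • α
        conv_rhs => rw [h2]
        rw [add_smul, mul_comm, mul_smul, h1, smul_zero, add_zero]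
      exact ((Set.finite_Ico _ _).image _).subset hsub
    have huniv : (Set.range fun n : ℤ => n • α) = Set.univ := by
      rw [← hα.closure_eq, hfin.isClosed.closure_eq]
    rw [huniv] at hfin
    exact Set.infinite_univ hfin
  set F : Set Ω := (fun n : ℤ => n • α) '' {j : ℤ | j ≠ 0 ∧ |j| ≤ N} with hF
  have hFfin : F.Finite := by
    refine Set.Finite.image _ ((Set.finite_Icc (-(N : ℤ)) N).subset ?_)
    rintro j ⟨_, hj⟩
    exact abs_le.1 hj
  have h0F : (0 : Ω) ∈ Fᶜ := by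
    rintro ⟨j, ⟨hj, _⟩, h⟩
    exact hne j hj h
  obtain ⟨W, hW, hWF⟩ : ∃ W : Set Ω, (0 ∈ W ∧ IsClopen W) ∧ W ⊆ Fᶜ :=
    (Filter.HasBasis.mem_iff' (nhds_basis_clopen (0 : Ω)) Fᶜ).mp
      (hFfin.isClosed.isOpen_compl.mem_nhds h0F)
  obtain ⟨H, hH⟩ := IsTopologicalAddGroup.exist_openAddSubgroup_sub_clopen_nhds_of_zero hW.2 hW.1
  refine ⟨H.toAddSubgroup, H.isOpen, ?_, ?_⟩
  · exact AddSubgroup.quotient_finite_of_isOpen _ H.isOpen
  · intro j hj hjN hmem
    exact hWF (hH hmem) ⟨j, ⟨hj, hjN⟩, rfl⟩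

end Pool.Agent.PP27.TaskGroup
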