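import Pool.Agent.H695R3.PP.Stmts

/-!
# TaskIso: inversion is an isometry of `L²`
-/

set_option autoImplicit false

open scoped BigOperators ENNReal
open MeasureTheory

namespace Pool.Agent.PP27.TaskIso

open Pool.Agent.H695R3.PP

lemma UR_sq (c : ℝ) (g : ℝ → ℝ≥0∞) (z : ℝ) :
    UR c g z ^ 2 = ENNReal.ofReal |(z ^ 2)⁻¹| * (g (c - z⁻¹)) ^ 2 := by
  unfold UR
  rw [mul_pow, ← ENNReal.ofReal_pow (by positivity)]
  congr 2
  rw [abs_inv, abs_pow, inv_pow]

lemma hderiv (c z : ℝ) (hz : z ≠ 0) (s : Set ℝ) :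
    HasDerivWithinAt (fun z : ℝ => c - z⁻¹) ((z ^ 2)⁻¹) s z := by
  have h := ((hasDerivAt_inv hz).const_sub c).hasDerivWithinAt (s := s)
  simpa using h

lemma hinj (c : ℝ) (s : Set ℝ) : Set.InjOn (fun z : ℝ => c - z⁻¹) s := by
  intro x _ y _ h
  have h' : x⁻¹ = y⁻¹ := by
    have : c - x⁻¹ = c - y⁻¹ := h
    linarith
  exact inv_injective h'

lemma key (c : ℝ) (g : ℝ → ℝ≥0∞) (s : Set ℝ) (hs : MeasurableSet s) (h0 : (0 : ℝ) ∉ s) :
    ∫⁻ z in s, UR c g z ^ 2 = ∫⁻ y in (fun z : ℝ => c - z⁻¹) '' s, g y ^ 2 := by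
  rw [lintegral_image_eq_lintegral_abs_deriv_mul hs
    (fun z hz => hderiv c z (fun h => h0 (h ▸ hz)) s) (hinj c s) (fun y => g y ^ 2)]
  refine lintegral_congr fun z => ?_
  exact UR_sq c g z

lemma image_compl (c : ℝ) : (fun z : ℝ => c - z⁻¹) '' ({0}ᶜ : Set ℝ) = {c}ᶜ := by
  ext y
  constructor
  · rintro ⟨z, hz, rfl⟩ h
    have hz' : z ≠ 0 := hz
    have h' : c - z⁻¹ = c := h
    have : z⁻¹ = 0 := by linarith
    exact hz' (inv_eq_zero.mp this)
  · intro hy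
    have hy' : y ≠ c := hy
    refine ⟨(c - y)⁻¹, ?_, ?_⟩
    · show (c - y)⁻¹ ≠ 0
      exact inv_ne_zero (sub_ne_zero.mpr (Ne.symm hy'))
    · show c - ((c - y)⁻¹)⁻¹ = y
      rw [inv_inv]
      ring

lemma setLIntegral_compl_singleton' (a : ℝ) (f : ℝ → ℝ≥0∞) :
    ∫⁻ x in ({a}ᶜ : Set ℝ), f x = ∫⁻ x, f x := by
  have : (volume : Measure ℝ).restrict ({a}ᶜ : Set ℝ) = volume := by
    rw [Measure.restrict_eq_self_of_ae_mem]
    exact compl_mem_ae_iff.mpr (by simp)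
  rw [this]

theorem main : Pool.Agent.H695R3.PP.TaskIso := by
  intro c g _
  constructor
  · unfold nsqL
    rw [← setLIntegral_compl_singleton' 0 (fun z => UR c g z ^ 2),
      ← setLIntegral_compl_singleton' c (fun z => g z ^ 2),
      key c g _ (MeasurableSet.compl (measurableSet_singleton 0)) (by simp), image_compl]
  · have hs : MeasurableSet {z : ℝ | 1 < |z|} := (isOpen_lt continuous_const continuous_abs).measurableSet
    rw [key c g _ hs (by simp)]
    refine lintegral_mono_set ?_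
    rintro y ⟨z, hz, rfl⟩
    have hz' : 1 < |z| := hz
    have hz0 : |z⁻¹| ≤ 1 := by
      rw [abs_inv]
      exact inv_le_one_of_one_le₀ hz'.le
    rw [abs_le] at hz0
    constructor
    · show c - 1 ≤ c - z⁻¹
      linarith [hz0.2]
    · show c - z⁻¹ ≤ c + 1
      linarith [hz0.1]

end Pool.Agent.PP27.TaskIso
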