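import Pool.Agent.H853R3.PP.TaskResample

/-!
# Project H695-LP, TaskJ: the first negative moment of the length decays exponentially
-/

set_option autoImplicit false

open scoped BigOperators ENNReal
open MeasureTheory Pool.Agent.H695R3.PP

namespace Pool.Agent.PP27.TaskJ

theorem U_ac : U ≪ (volume : Measure ℝ) := by
  unfold U
  exact (Measure.AbsolutelyContinuous.smul_left (Measure.restrict_le_self.absolutelyContinuous) _)

theorem U_neg (f : ℝ → ℝ≥0∞) : ∫⁻ s, f (-s) ∂U = ∫⁻ s, f s ∂U := by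
  unfold U
  rw [lintegral_smul_measure, lintegral_smul_measure]
  congr 1
  have h := (Measure.measurePreserving_neg (volume : Measure ℝ)).setLIntegral_comp_preimage_emb
    (MeasurableEquiv.neg ℝ).measurableEmbedding f (Set.Icc (-1) 1)
  have e : (Neg.neg : ℝ → ℝ) ⁻¹' (Set.Icc (-1) 1) = Set.Icc (-1) 1 := by
    ext x
    simp only [Set.mem_preimage, Set.mem_Icc]
    constructor
    · rintro ⟨h1, h2⟩
      constructor <;> linarith
    · rintro ⟨h1, h2⟩
      constructor <;> linarith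
  rw [e] at h
  exact h

/-- the average of `1 / |M v|` over the remaining steps -/
noncomputable def Phi (ε : ℝ) : ℕ → (ℕ → ℝ) → ℝ × ℝ → ℝ≥0∞
  | 0, _, v => ENNReal.ofReal (1 / Real.sqrt (v.1 ^ 2 + v.2 ^ 2))
  | i + 1, c, v => ∫⁻ s, Phi ε i (fun n => c (n + 1)) ((c 0 - ε * s) * v.1 - v.2, v.1) ∂U

/-- the same function in the projective coordinate -/
noncomputable def G (ε : ℝ) : ℕ → (ℕ → ℝ) → ℝ → ℝ≥0∞
  | 0, _ => fun x => ENNReal.ofReal (1 / Real.sqrt (x ^ 2 + 1))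
  | i + 1, c => UR (c 0) (avg ε (G ε i (fun n => c (n + 1))))

theorem measurable_Phi (ε : ℝ) (i : ℕ) : ∀ c : ℕ → ℝ, Measurable (Phi ε i c) := by
  induction i with
  | zero =>
    intro c
    show Measurable (fun v : ℝ × ℝ => ENNReal.ofReal (1 / Real.sqrt (v.1 ^ 2 + v.2 ^ 2)))
    fun_prop
  | succ i ih =>
    intro c
    show Measurable (fun v : ℝ × ℝ =>
      ∫⁻ s, Phi ε i (fun n => c (n + 1)) ((c 0 - ε * s) * v.1 - v.2, v.1) ∂U)
    have h1 : Measurable (fun p : (ℝ × ℝ) × ℝ =>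
        Phi ε i (fun n => c (n + 1)) ((c 0 - ε * p.2) * p.1.1 - p.1.2, p.1.1)) := by
      refine (ih _).comp ?_
      fun_prop
    exact h1.lintegral_prod_right'

theorem measurable_UR (c : ℝ) (g : ℝ → ℝ≥0∞) (hg : Measurable g) : Measurable (UR c g) := by
  unfold UR
  fun_prop

theorem measurable_G (hA : TaskAvg) (ε : ℝ) (hε : 0 < ε) (hε1 : ε ≤ 1) (i : ℕ) :
    ∀ c : ℕ → ℝ, Measurable (G ε i c) := by
  induction i with
  | zero =>
    intro c
    unfold G
    fun_prop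
  | succ i ih =>
    intro c
    exact measurable_UR _ _ (hA ε _ hε hε1 (ih _)).1

/-- one point is negligible -/
theorem ae_ne (ε a : ℝ) (hε : 0 < ε) (p : ℝ) (hp : p ≠ 0) (q : ℝ) :
    ∀ᵐ s ∂U, (a - ε * s) * p - q ≠ 0 := by
  have h : ∀ᵐ s ∂(volume : Measure ℝ), (a - ε * s) * p - q ≠ 0 := by
    have h0 : ∀ᵐ s ∂(volume : Measure ℝ), s ≠ (a - q / p) / ε := by
      rw [ae_iff]
      simp
    filter_upwards [h0] with s hs hc
    apply hs
    field_simp
    linarith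
  exact U_ac.ae_le h

theorem Phi_eq (ε : ℝ) (hε : 0 < ε) (i : ℕ) : ∀ (c : ℕ → ℝ) (p q : ℝ), p ≠ 0 → q ≠ 0 →
    Phi ε i c (p, q) = ENNReal.ofReal |q|⁻¹ * G ε i c (p / q) := by
  induction i with
  | zero =>
    intro c p q hp hq
    unfold Phi G
    rw [← ENNReal.ofReal_mul (by positivity)]
    congr 1
    show 1 / Real.sqrt (p ^ 2 + q ^ 2) = |q|⁻¹ * (1 / Real.sqrt ((p / q) ^ 2 + 1))
    have h1 : p ^ 2 + q ^ 2 = |q| ^ 2 * ((p / q) ^ 2 + 1) := by
      rw [sq_abs]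
      field_simp
    rw [h1, Real.sqrt_mul (by positivity), Real.sqrt_sq (abs_nonneg q)]
    field_simp
  | succ i ih =>
    intro c p q hp hq
    have h1 : Phi ε (i + 1) c (p, q) =
        ∫⁻ s, ENNReal.ofReal |p|⁻¹ *
          G ε i (fun n => c (n + 1)) ((c 0 - (p / q)⁻¹) + ε * (-s)) ∂U := by
      show ∫⁻ s, Phi ε i (fun n => c (n + 1)) ((c 0 - ε * s) * p - q, p) ∂U = _
      refine lintegral_congr_ae ?_
      filter_upwards [ae_ne ε (c 0) hε p hp q] with s hs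
      rw [ih _ _ _ hs hp]
      congr 2
      field_simp
      ring
    rw [h1, U_neg (fun s => ENNReal.ofReal |p|⁻¹ *
          G ε i (fun n => c (n + 1)) ((c 0 - (p / q)⁻¹) + ε * s)),
      lintegral_const_mul' _ _ ENNReal.ofReal_ne_top]
    show _ = ENNReal.ofReal |q|⁻¹ * (ENNReal.ofReal |p / q|⁻¹ *
      ∫⁻ s, G ε i (fun n => c (n + 1)) ((c 0 - (p / q)⁻¹) + ε * s) ∂U)
    rw [← mul_assoc, ← ENNReal.ofReal_mul (by positivity)]
    congr 2
    rw [abs_div]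
    have : |p| ≠ 0 := abs_ne_zero.2 hp
    have : |q| ≠ 0 := abs_ne_zero.2 hq
    field_simp

theorem Phi_start (ε : ℝ) (hε : 0 < ε) (i : ℕ) (c : ℕ → ℝ) :
    Phi ε (i + 1) c (1, 0) = avg ε (G ε i (fun n => c (n + 1))) (c 0) := by
  have h1 : Phi ε (i + 1) c (1, 0) =
      ∫⁻ s, G ε i (fun n => c (n + 1)) (c 0 + ε * (-s)) ∂U := by
    show ∫⁻ s, Phi ε i (fun n => c (n + 1)) ((c 0 - ε * s) * 1 - 0, 1) ∂U = _
    refine lintegral_congr_ae ?_
    filter_upwards [ae_ne ε (c 0) hε 1 one_ne_zero 0] with s hs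
    rw [Phi_eq ε hε i _ _ _ hs one_ne_zero]
    simp only [abs_one, inv_one, ENNReal.ofReal_one, one_mul, div_one, mul_one, sub_zero]
    congr 1
    ring
  rw [h1, U_neg (fun s => G ε i (fun n => c (n + 1)) (c 0 + ε * s))]
  rfl

theorem measurable_rsol (ε E : ℝ) (W : ℤ → ℝ) (b : ℤ) (j : ℕ) :
    Measurable (fun x : ℤ → ℝ => rsol (fun n => W n + ε * x n) E b j) := by
  induction j with
  | zero => exact measurable_const
  | succ j ih =>
    unfold rsol
    have h1 : Measurable (fun x : ℤ → ℝ => x (b - j)) := measurable_pi_apply _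
    have h2 : Measurable (fun x : ℤ → ℝ => (rsol (fun n => W n + ε * x n) E b j).1) := ih.fst
    have h3 : Measurable (fun x : ℤ → ℝ => (rsol (fun n => W n + ε * x n) E b j).2) := ih.snd
    fun_prop

theorem rsol_update (V : ℤ → ℝ) (E : ℝ) (b : ℤ) (k : ℤ) (t : ℝ) (j : ℕ) (hk : k ≤ b - j) :
    rsol (Function.update V k t) E b j = rsol V E b j := by
  induction j with
  | zero => rfl
  | succ j ih =>
    push_cast at hk
    unfold rsol
    rw [ih (by omega), Function.update_of_ne (by omega)]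

theorem rsol_step (ε E : ℝ) (W : ℤ → ℝ) (b : ℤ) (j : ℕ) (x : ℤ → ℝ) (s : ℝ) :
    rsol (fun n => W n + ε * (Function.update x (b - j) s) n) E b (j + 1) =
      (((E - W (b - j)) - ε * s) * (rsol (fun n => W n + ε * x n) E b j).1 -
        (rsol (fun n => W n + ε * x n) E b j).2, (rsol (fun n => W n + ε * x n) E b j).1) := by
  have h : (fun n => W n + ε * (Function.update x (b - j) s) n) =
      Function.update (fun n => W n + ε * x n) (b - j) (W (b - j) + ε * s) := by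
    funext n
    by_cases hn : n = b - j
    · subst hn
      simp
    · rw [Function.update_of_ne hn, Function.update_of_ne hn]
  rw [h]
  show ((E - Function.update (fun n => W n + ε * x n) (b - j) (W (b - j) + ε * s) (b - j)) *
    (rsol (Function.update (fun n => W n + ε * x n) (b - j) (W (b - j) + ε * s)) E b j).1 -
    (rsol (Function.update (fun n => W n + ε * x n) (b - j) (W (b - j) + ε * s)) E b j).2,
    (rsol (Function.update (fun n => W n + ε * x n) (b - j) (W (b - j) + ε * s)) E b j).1) = _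
  rw [rsol_update _ _ _ _ _ _ le_rfl, Function.update_self]
  congr 1
  ring

theorem resample (f : (ℤ → ℝ) → ℝ≥0∞) (hf : Measurable f) (k : ℤ) :
    ∫⁻ x, f x ∂PZ = ∫⁻ x, ∫⁻ s, f (Function.update x k s) ∂U ∂PZ := by
  have h := Pool.Agent.H853R3.PP.Resample.taskResample ℤ (fun _ => ℝ) (fun _ => U) k
  have hm := Pool.Agent.H853R3.PP.Resample.measurable_upd (ι := ℤ) (X := fun _ => ℝ) k
  calc ∫⁻ x, f x ∂PZ = ∫⁻ x, f x ∂(Measure.map
        (fun p : (ℤ → ℝ) × ℝ => Function.update p.1 k p.2) (PZ.prod U)) := by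
        unfold PZ
        rw [h]
    _ = ∫⁻ p : (ℤ → ℝ) × ℝ, f (Function.update p.1 k p.2) ∂(PZ.prod U) := lintegral_map hf hm
    _ = _ := lintegral_prod _ (hf.comp hm).aemeasurable

theorem unfold_steps (ε E : ℝ) (W : ℤ → ℝ) (b : ℤ) (i : ℕ) : ∀ j : ℕ,
    ∫⁻ x, Phi ε i (fun n => E - W (b - ((j + n : ℕ) : ℤ)))
        (rsol (fun n => W n + ε * x n) E b j) ∂PZ =
      ∫⁻ x, ENNReal.ofReal (1 / rlen (fun n => W n + ε * x n) E b (j + i)) ∂PZ := by
  induction i with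
  | zero => intro j; rfl
  | succ i ih =>
    intro j
    have h1 := ih (j + 1)
    rw [resample (fun x => Phi ε i (fun n => E - W (b - ((j + 1 + n : ℕ) : ℤ)))
      (rsol (fun n => W n + ε * x n) E b (j + 1)))
      ((measurable_Phi ε i _).comp (measurable_rsol ε E W b (j + 1))) (b - j)] at h1
    rw [show j + (i + 1) = j + 1 + i by ring, ← h1]
    refine lintegral_congr fun x => ?_
    show ∫⁻ s, Phi ε i (fun n => E - W (b - ((j + (n + 1) : ℕ) : ℤ)))
      (((E - W (b - ((j + 0 : ℕ) : ℤ))) - ε * s) * (rsol (fun n => W n + ε * x n) E b j).1 -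
        (rsol (fun n => W n + ε * x n) E b j).2, (rsol (fun n => W n + ε * x n) E b j).1) ∂U = _
    refine lintegral_congr fun s => ?_
    rw [rsol_step, Nat.add_zero]
    have e : (fun n : ℕ => E - W (b - ((j + (n + 1) : ℕ) : ℤ))) =
        (fun n : ℕ => E - W (b - ((j + 1 + n : ℕ) : ℤ))) := by
      funext n
      rw [show j + (n + 1) = j + 1 + n by ring]
    rw [e]

theorem nsqL_G0 (ε : ℝ) (c : ℕ → ℝ) : nsqL (G ε 0 c) ≤ ENNReal.ofReal 4 := by
  unfold nsqL G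
  have h1 : ∀ x : ℝ, ENNReal.ofReal (1 / Real.sqrt (x ^ 2 + 1)) ^ 2 =
      ENNReal.ofReal ((1 + x ^ 2)⁻¹) := by
    intro x
    rw [← ENNReal.ofReal_pow (by positivity), div_pow, Real.sq_sqrt (by positivity)]
    congr 1
    rw [one_pow, one_div, add_comm]
  simp only [h1]
  rw [← ofReal_integral_eq_lintegral_ofReal integrable_inv_one_add_sq
    (Filter.Eventually.of_forall fun x => by positivity), integral_univ_inv_one_add_sq]
  exact ENNReal.ofReal_le_ofReal Real.pi_le_four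

theorem nsqL_G_le (hA : TaskAvg) (hI : TaskIso) (k : ℝ) (hk : 0 < k) (hk2 : k ≤ 1 / 2)
    (ε : ℝ) (hε : 0 < ε) (hε1 : ε ≤ 1)
    (hC : ∀ (c₁ : ℝ) (g : ℝ → ℝ≥0∞), Measurable g →
      nsqL (avg ε (UR c₁ (avg ε g))) ≤ ENNReal.ofReal (1 - k * ε ^ 2) * nsqL g) (i : ℕ) :
    ∀ c : ℕ → ℝ, nsqL (G ε (2 * i) c) ≤ ENNReal.ofReal ((1 - k * ε ^ 2) ^ i * 4) ∧
      nsqL (G ε (2 * i + 1) c) ≤ ENNReal.ofReal ((1 - k * ε ^ 2) ^ i * 4) := by
  have hpos : 0 ≤ 1 - k * ε ^ 2 := by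
    have : ε ^ 2 ≤ 1 := pow_le_one₀ hε.le hε1
    nlinarith
  have hstep : ∀ (n : ℕ) (c : ℕ → ℝ), nsqL (G ε (n + 2) c) ≤
      ENNReal.ofReal (1 - k * ε ^ 2) * nsqL (G ε n (fun m => c (m + 1 + 1))) := by
    intro n c
    have hm := measurable_G hA ε hε hε1 n (fun m => c (m + 1 + 1))
    have hm2 := (hA ε _ hε hε1 (measurable_UR (c (0 + 1)) _ (hA ε _ hε hε1 hm).1)).1
    show nsqL (UR (c 0) (avg ε (UR (c (0 + 1)) (avg ε (G ε n (fun m => c (m + 1 + 1))))))) ≤ _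
    rw [(hI _ _ hm2).1]
    exact hC _ _ hm
  induction i with
  | zero =>
    intro c
    refine ⟨?_, ?_⟩
    · simpa using nsqL_G0 ε c
    · have hm := measurable_G hA ε hε hε1 0 (fun m => c (m + 1))
      show nsqL (UR (c 0) (avg ε (G ε 0 (fun m => c (m + 1))))) ≤ _
      rw [(hI _ _ (hA ε _ hε hε1 hm).1).1]
      refine (hA ε _ hε hε1 hm).2.1.trans ?_
      simpa using nsqL_G0 ε (fun m => c (m + 1))
  | succ i ih =>
    intro c
    have e : ENNReal.ofReal ((1 - k * ε ^ 2) ^ (i + 1) * 4) =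
        ENNReal.ofReal (1 - k * ε ^ 2) * ENNReal.ofReal ((1 - k * ε ^ 2) ^ i * 4) := by
      rw [← ENNReal.ofReal_mul hpos]
      congr 1
      ring
    rw [e]
    refine ⟨?_, ?_⟩
    · exact (hstep (2 * i) c).trans (mul_le_mul_right (ih _).1 _)
    · exact (hstep (2 * i + 1) c).trans (mul_le_mul_right (ih _).2 _)

theorem numeric (k ε : ℝ) (hk : 0 < k) (hk2 : k ≤ 1 / 2) (hε : 0 < ε) (hε1 : ε ≤ 1) (L i : ℕ)
    (hL : L ≤ 2 * i + 2) :
    1 / Real.sqrt ε * Real.sqrt ((1 - k * ε ^ 2) ^ i * 4) ≤ 4 / ε * (1 - k / 4 * ε ^ 2) ^ L := by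
  have hε2 : ε ^ 2 ≤ 1 := pow_le_one₀ hε.le hε1
  have hε3 : 0 < ε ^ 2 := by positivity
  set θ := 1 - k / 4 * ε ^ 2 with hθ
  have hθ1 : θ ≤ 1 := by
    rw [hθ]
    have : 0 ≤ k / 4 * ε ^ 2 := by positivity
    linarith
  have hθ0 : 7 / 8 ≤ θ := by
    rw [hθ]
    nlinarith
  have hpos : 0 ≤ 1 - k * ε ^ 2 := by nlinarith
  have hb : 1 - k * ε ^ 2 ≤ θ ^ 4 := by
    have h := one_add_mul_le_pow (a := -(k / 4 * ε ^ 2)) (by nlinarith) 4
    have e : (1 + -(k / 4 * ε ^ 2)) = θ := by rw [hθ]; ring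
    rw [e] at h
    push_cast at h
    nlinarith
  have h1 : Real.sqrt ((1 - k * ε ^ 2) ^ i * 4) ≤ 2 * θ ^ (2 * i) := by
    rw [show (2 : ℝ) * θ ^ (2 * i) = Real.sqrt ((2 * θ ^ (2 * i)) ^ 2) by
      rw [Real.sqrt_sq (by positivity)]]
    apply Real.sqrt_le_sqrt
    have : (1 - k * ε ^ 2) ^ i ≤ (θ ^ 4) ^ i := pow_le_pow_left₀ hpos hb i
    calc (1 - k * ε ^ 2) ^ i * 4 ≤ (θ ^ 4) ^ i * 4 := by linarith
      _ = (2 * θ ^ (2 * i)) ^ 2 := by ring
  have h2 : θ ^ (2 * i) ≤ 2 * θ ^ L := by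
    have h3 : θ ^ (2 * i + 2) ≤ θ ^ L := pow_le_pow_of_le_one (by linarith) hθ1 hL
    have h4 : θ ^ (2 * i + 2) = θ ^ (2 * i) * θ ^ 2 := pow_add _ _ _
    have h5 : 1 / 2 ≤ θ ^ 2 := by nlinarith
    have h6 : 0 ≤ θ ^ (2 * i) := by positivity
    nlinarith
  have h3 : 1 / Real.sqrt ε ≤ 1 / ε := by
    apply one_div_le_one_div_of_le hε
    refine Real.le_sqrt_of_sq_le ?_
    nlinarith
  have h4 : 0 ≤ 1 / Real.sqrt ε := by positivity
  have h5 : 0 ≤ θ ^ L := by positivity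
  calc 1 / Real.sqrt ε * Real.sqrt ((1 - k * ε ^ 2) ^ i * 4)
      ≤ 1 / ε * (4 * θ ^ L) := by
        apply mul_le_mul h3 (by linarith) (Real.sqrt_nonneg _) (by positivity)
    _ = 4 / ε * θ ^ L := by ring

theorem main (hC : TaskContr) (hA : TaskAvg) (hI : TaskIso) : Pool.Agent.H695R3.PP.TaskJ := by
  obtain ⟨k, hk, hk2, hC⟩ := hC
  refine ⟨k / 4, 4, by linarith, by linarith, by norm_num, ?_⟩
  intro ε E W b L hε hε1
  rcases Nat.eq_zero_or_pos L with rfl | hL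
  · have h1 : ∀ x : ℤ → ℝ, ENNReal.ofReal (1 / rlen (fun n => W n + ε * x n) E b 0) = 1 := by
      intro x
      show ENNReal.ofReal (1 / Real.sqrt ((1 : ℝ) ^ 2 + (0 : ℝ) ^ 2)) = 1
      simp
    simp only [h1]
    rw [lintegral_one, measure_univ, pow_zero, mul_one, ENNReal.one_le_ofReal]
    rw [le_div_iff₀ hε]
    linarith
  · obtain ⟨L', rfl⟩ : ∃ L', L = L' + 1 := ⟨L - 1, by omega⟩
    have h1 := unfold_steps ε E W b (L' + 1) 0
    rw [Nat.zero_add] at h1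
    rw [← h1]
    have h2 : ∀ x : ℤ → ℝ, Phi ε (L' + 1) (fun n => E - W (b - ((0 + n : ℕ) : ℤ)))
        (rsol (fun n => W n + ε * x n) E b 0) =
          avg ε (G ε L' (fun n => E - W (b - ((0 + (n + 1) : ℕ) : ℤ))))
            (E - W (b - ((0 + 0 : ℕ) : ℤ))) := fun x => Phi_start ε hε L' _
    simp only [h2]
    rw [lintegral_const, measure_univ, mul_one]
    set c' : ℕ → ℝ := fun n => E - W (b - ((0 + (n + 1) : ℕ) : ℤ)) with hc'
    have hm := measurable_G hA ε hε hε1 L' c'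
    refine ((hA ε _ hε hε1 hm).2.2.2 _).trans ?_
    have hG : nsqL (G ε L' c') ≤ ENNReal.ofReal ((1 - k * ε ^ 2) ^ (L' / 2) * 4) := by
      have h3 := nsqL_G_le hA hI k hk hk2 ε hε hε1 (fun c₁ g hg => hC ε c₁ g hε hε1 hg) (L' / 2) c'
      rcases Nat.mod_two_eq_zero_or_one L' with h | h
      · have e : 2 * (L' / 2) = L' := by omega
        rw [e] at h3
        exact h3.1
      · have e : 2 * (L' / 2) + 1 = L' := by omega
        rw [e] at h3
        exact h3.2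
    have hpos : 0 ≤ 1 - k * ε ^ 2 := by
      have : ε ^ 2 ≤ 1 := pow_le_one₀ hε.le hε1
      nlinarith
    calc ENNReal.ofReal (1 / Real.sqrt ε) * nsqL (G ε L' c') ^ (1 / 2 : ℝ)
        ≤ ENNReal.ofReal (1 / Real.sqrt ε) *
          ENNReal.ofReal ((1 - k * ε ^ 2) ^ (L' / 2) * 4) ^ (1 / 2 : ℝ) :=
          mul_le_mul_right (ENNReal.rpow_le_rpow hG (by norm_num)) _
      _ = ENNReal.ofReal (1 / Real.sqrt ε * Real.sqrt ((1 - k * ε ^ 2) ^ (L' / 2) * 4)) := by
          rw [ENNReal.ofReal_rpow_of_nonneg (by positivity) (by norm_num),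
            ← ENNReal.ofReal_mul (by positivity), Real.sqrt_eq_rpow]
          rw [Real.sqrt_eq_rpow]
      _ ≤ _ := by
          apply ENNReal.ofReal_le_ofReal
          exact numeric k ε hk hk2 hε hε1 (L' + 1) (L' / 2) (by omega)

end Pool.Agent.PP27.TaskJ
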