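import Pool.Agent.PP27.TaskClosed2

set_option autoImplicit false

open scoped BigOperators ENNReal
open MeasureTheory

namespace Pool.Agent.PP27.TaskMeas

open Pool.Agent.H695R3.PP

theorem main : Pool.Agent.H695R3.PP.TaskMeas := by
  refine ⟨fun L a τ => ?_, fun L d => ?_⟩
  · have e : {V : ℤ → ℝ | Bad1 L a τ V} = ⋃ R : ℕ, {V : ℤ → ℝ | ∃ E ψ, |E| ≤ (R : ℝ) ∧
        IsEig V (-(L : ℤ)) L E ψ ∧ ((E, ψ), V) ∈ {p : (ℝ × (ℤ → ℝ)) × (ℤ → ℝ) |
          a ≤ |p.1.2 0| ∧ (τ ≤ |p.1.2 L| ∨ τ ≤ |p.1.2 (-(L : ℤ))|)}} := by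
      ext V
      simp only [Bad1, Set.mem_ofPred_eq, Set.mem_iUnion]
      constructor
      · rintro ⟨E, ψ, h1, h2, h3⟩
        obtain ⟨R, hR⟩ := exists_nat_ge |E|
        exact ⟨R, E, ψ, hR, h1, h2, h3⟩
      · rintro ⟨R, E, ψ, -, h1, h2, h3⟩
        exact ⟨E, ψ, h1, h2, h3⟩
    rw [e]
    refine MeasurableSet.iUnion fun R => (Pool.Agent.PP27.TaskClosed.main _ _ _ _ ?_).measurableSet
    have c : ∀ n : ℤ, Continuous fun p : (ℝ × (ℤ → ℝ)) × (ℤ → ℝ) => |p.1.2 n| := fun n =>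
      continuous_abs.comp ((continuous_apply n).comp (continuous_snd.comp continuous_fst))
    exact (isClosed_le continuous_const (c 0)).inter
      ((isClosed_le continuous_const (c L)).union (isClosed_le continuous_const (c (-(L : ℤ)))))
  · have e : {V : ℤ → ℝ | Bad2 L d V} = ⋃ (R : ℕ) (n : ℕ), {V : ℤ → ℝ | ∃ E ψ E' ψ',
        |E| ≤ (R : ℝ) ∧ |E'| ≤ (R : ℝ) ∧ IsEig V (-(L : ℤ)) L E ψ ∧
        IsEig V (-(L : ℤ)) L E' ψ' ∧ ((E, ψ), (E', ψ')) ∈
          {p : (ℝ × (ℤ → ℝ)) × (ℝ × (ℤ → ℝ)) | 1 / ((n : ℝ) + 1) ≤ |p.1.1 - p.2.1| ∧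
            |p.1.1 - p.2.1| ≤ d}} := by
      ext V
      simp only [Bad2, Set.mem_ofPred_eq, Set.mem_iUnion]
      constructor
      · rintro ⟨E, ψ, E', ψ', h1, h2, h3, h4⟩
        obtain ⟨R, hR⟩ := exists_nat_ge (max |E| |E'|)
        obtain ⟨n, hn⟩ := exists_nat_one_div_lt (abs_pos.2 (sub_ne_zero.2 h3))
        exact ⟨R, n, E, ψ, E', ψ', (le_max_left _ _).trans hR, (le_max_right _ _).trans hR, h1, h2,
          hn.le, h4⟩
      · rintro ⟨R, n, E, ψ, E', ψ', -, -, h1, h2, h3, h4⟩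
        refine ⟨E, ψ, E', ψ', h1, h2, ?_, h4⟩
        rintro rfl
        rw [sub_self, abs_zero] at h3
        have : (0 : ℝ) < 1 / ((n : ℝ) + 1) := by positivity
        linarith
    rw [e]
    refine MeasurableSet.iUnion fun R => MeasurableSet.iUnion fun n =>
      (Pool.Agent.PP27.TaskClosed2.main _ _ _ _ _ _ ?_).measurableSet
    have c : Continuous fun p : (ℝ × (ℤ → ℝ)) × (ℝ × (ℤ → ℝ)) => |p.1.1 - p.2.1| :=
      continuous_abs.comp ((continuous_fst.comp continuous_fst).sub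
        (continuous_fst.comp continuous_snd))
    exact (isClosed_le continuous_const c).inter (isClosed_le c continuous_const)

end Pool.Agent.PP27.TaskMeas
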