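import Pool.Agent.H695R3.PP.Stmts

/-!
# Project H695-LP, TaskNum: numerics
-/

set_option autoImplicit false

open scoped BigOperators ENNReal
open MeasureTheory

namespace Pool.Agent.PP27.TaskNum

lemma sq_le_four_pow (k : ℕ) : (k : ℝ) ^ 2 ≤ 4 ^ k := by
  have h : k ≤ 2 ^ k := Nat.lt_two_pow_self.le
  have h2 : (k : ℝ) ≤ 2 ^ k := by exact_mod_cast h
  calc (k : ℝ) ^ 2 ≤ (2 ^ k) ^ 2 := by gcongr
    _ = (2 ^ 2) ^ k := by rw [← pow_mul, ← pow_mul, mul_comm]
    _ = 4 ^ k := by norm_num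

/-- `exp (-(κ 4^n)) ≤ K (1/B)^n`. -/
lemma exp_le (κ B : ℝ) (hκ : 0 < κ) (hB : 0 < B) (n : ℕ) :
    Real.exp (-(κ * 4 ^ n)) ≤ Real.exp ((Real.log B) ^ 2 / (4 * κ)) * (1 / B) ^ n := by
  have h1 : (1 / B) ^ n = Real.exp (-(n * Real.log B)) := by
    rw [Real.exp_neg, one_div, inv_pow]
    congr 1
    rw [mul_comm, Real.exp_mul, Real.exp_log hB, Real.rpow_natCast]
  rw [h1, ← Real.exp_add]
  apply Real.exp_le_exp.mpr
  have h2 := sq_le_four_pow n
  have h3 : κ * (n : ℝ) ^ 2 ≤ κ * 4 ^ n := by gcongr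
  have h4 : 0 ≤ (Real.log B - 2 * κ * n) ^ 2 / (4 * κ) := by positivity
  have h5 : (Real.log B - 2 * κ * n) ^ 2 / (4 * κ) =
      (Real.log B) ^ 2 / (4 * κ) - n * Real.log B + κ * (n : ℝ) ^ 2 := by
    field_simp
    ring
  linarith

theorem main : Pool.Agent.H695R3.PP.TaskNum := by
  intro κ A hκ hA
  have hA0 : 0 < A := by linarith
  set K : ℝ := Real.exp ((Real.log (2 * A)) ^ 2 / (4 * κ)) with hK
  have hKpos : 0 < K := Real.exp_pos _
  have key : ∀ n : ℕ, Real.exp (-(κ * 4 ^ n)) ≤ K * (1 / (2 * A)) ^ n := fun n =>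
    exp_le κ (2 * A) hκ (by linarith) n
  have hAk : ∀ k : ℕ, A ^ k * (1 / (2 * A)) ^ k = (1 / 2) ^ k := by
    intro k
    rw [← mul_pow]
    congr 1
    field_simp
  constructor
  · refine Summable.of_nonneg_of_le (fun k => by positivity) (fun k => ?_)
      ((summable_geometric_two).mul_left K)
    calc A ^ k * Real.exp (-(κ * 4 ^ k)) ≤ A ^ k * (K * (1 / (2 * A)) ^ k) := by
          gcongr; exact key k
      _ = K * (A ^ k * (1 / (2 * A)) ^ k) := by ring
      _ = K * (1 / 2) ^ k := by rw [hAk]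
  · have hb : ∀ k : ℕ, ∑' j : ℕ, Real.exp (-(κ * 4 ^ (k + j))) ≤
        K * (1 / (2 * A)) ^ k * 2 := by
      intro k
      have h1 : ∀ j : ℕ, Real.exp (-(κ * 4 ^ (k + j))) ≤
          K * (1 / (2 * A)) ^ k * (1 / 2) ^ j := by
        intro j
        refine le_trans (key (k + j)) ?_
        rw [pow_add, ← mul_assoc]
        gcongr
        linarith
      have hs : Summable fun j : ℕ => K * (1 / (2 * A)) ^ k * (1 / 2 : ℝ) ^ j :=
        summable_geometric_two.mul_left _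
      calc ∑' j : ℕ, Real.exp (-(κ * 4 ^ (k + j))) ≤
          ∑' j : ℕ, K * (1 / (2 * A)) ^ k * (1 / 2) ^ j :=
            Summable.tsum_le_tsum h1
              (Summable.of_nonneg_of_le (fun j => (Real.exp_pos _).le) h1 hs) hs
        _ = K * (1 / (2 * A)) ^ k * 2 := by rw [tsum_mul_left, tsum_geometric_two]
    refine squeeze_zero (g := fun k : ℕ => 2 * K * (1 / 2) ^ k) (fun k => ?_) (fun k => ?_) ?_
    · have : 0 ≤ ∑' j : ℕ, Real.exp (-(κ * 4 ^ (k + j))) :=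
        tsum_nonneg fun j => (Real.exp_pos _).le
      positivity
    · calc A ^ k * ∑' j : ℕ, Real.exp (-(κ * 4 ^ (k + j))) ≤
            A ^ k * (K * (1 / (2 * A)) ^ k * 2) := by gcongr; exact hb k
        _ = 2 * K * (A ^ k * (1 / (2 * A)) ^ k) := by ring
        _ = 2 * K * (1 / 2) ^ k := by rw [hAk]
    · have := (tendsto_pow_atTop_nhds_zero_of_lt_one (by norm_num : (0 : ℝ) ≤ 1 / 2)
        (by norm_num : (1 / 2 : ℝ) < 1)).const_mul (2 * K)
      simpa using this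

end Pool.Agent.PP27.TaskNum
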