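import Pool.Agent.H695R3.PP.Stmts

/-!
# TaskSplit (from TaskApprox)

For every site `m` of the box `[a,b]`, one of the two boxes `[a,m-1]`, `[m+1,b]` has an eigenvalue
in `[E,E']`; a cut where the right box changes from yes to no gives the claim (even with `d`
in place of `3 d`).
-/

set_option autoImplicit false

namespace Pool.Agent.PP27.TaskSplit

open Pool.Agent.H695R3.PP

lemma wr_sum (f g : ℤ → ℝ) (a b : ℤ) (h : a ≤ b) :
    ∑ n ∈ Finset.Icc a b, ((f (n + 1) + f (n - 1)) * g n - f n * (g (n + 1) + g (n - 1))) =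
      (f (b + 1) * g b - f b * g (b + 1)) - (f a * g (a - 1) - f (a - 1) * g a) := by
  induction b, h using Int.le_induction with
  | base => simp; ring
  | succ b hb ih =>
    have h1 : Finset.Icc a (b + 1) = insert (b + 1) (Finset.Icc a b) := by
      ext x; simp only [Finset.mem_Icc, Finset.mem_insert]; omega
    have h2 : (b + 1) ∉ Finset.Icc a b := by
      simp only [Finset.mem_Icc]; omega
    rw [h1, Finset.sum_insert h2, ih]
    have h3 : b + 1 - 1 = b := by ring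
    rw [h3]
    ring

lemma orth (V : ℤ → ℝ) (a b : ℤ) (E E' : ℝ) (ψ ψ' : ℤ → ℝ) (hab : a ≤ b)
    (h : IsEig V a b E ψ) (h' : IsEig V a b E' ψ') (hne : E ≠ E') :
    ∑ n ∈ Finset.Icc a b, ψ n * ψ' n = 0 := by
  have h1 := wr_sum ψ ψ' a b hab
  have e1 : ψ (b + 1) = 0 := h.1 _ (Or.inr (by omega))
  have e2 : ψ' (b + 1) = 0 := h'.1 _ (Or.inr (by omega))
  have e3 : ψ (a - 1) = 0 := h.1 _ (Or.inl (by omega))
  have e4 : ψ' (a - 1) = 0 := h'.1 _ (Or.inl (by omega))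
  rw [e1, e2, e3, e4] at h1
  have h2 : ∑ n ∈ Finset.Icc a b, ((ψ (n + 1) + ψ (n - 1)) * ψ' n - ψ n * (ψ' (n + 1) + ψ' (n - 1)))
      = (E - E') * ∑ n ∈ Finset.Icc a b, ψ n * ψ' n := by
    rw [Finset.mul_sum]
    refine Finset.sum_congr rfl fun n hn => ?_
    rw [Finset.mem_Icc] at hn
    have k1 := h.2.2 n hn.1 hn.2
    have k2 := h'.2.2 n hn.1 hn.2
    have k3 : ψ (n + 1) + ψ (n - 1) = E * ψ n - V n * ψ n := by linarith
    have k4 : ψ' (n + 1) + ψ' (n - 1) = E' * ψ' n - V n * ψ' n := by linarith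
    rw [k3, k4]; ring
  rw [h2] at h1
  have h3 : (E - E') * ∑ n ∈ Finset.Icc a b, ψ n * ψ' n = 0 := by rw [h1]; ring
  rcases mul_eq_zero.1 h3 with h4 | h4
  · exact absurd (sub_eq_zero.1 h4) hne
  · exact h4

lemma split_sum (F : ℤ → ℝ) (a m b : ℤ) (ham : a ≤ m) (hmb : m ≤ b) :
    ∑ n ∈ Finset.Icc a b, F n =
      ∑ n ∈ Finset.Icc a (m - 1), F n + F m + ∑ n ∈ Finset.Icc (m + 1) b, F n := by
  have h1 : Finset.Icc a b = (insert m (Finset.Icc a (m - 1))) ∪ Finset.Icc (m + 1) b := by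
    ext x; simp only [Finset.mem_Icc, Finset.mem_insert, Finset.mem_union]; omega
  have h2 : Disjoint (insert m (Finset.Icc a (m - 1))) (Finset.Icc (m + 1) b) := by
    rw [Finset.disjoint_left]
    intro x hx hx'
    simp only [Finset.mem_Icc, Finset.mem_insert] at hx hx'
    omega
  have h3 : m ∉ Finset.Icc a (m - 1) := by
    simp only [Finset.mem_Icc]; omega
  rw [h1, Finset.sum_union h2, Finset.sum_insert h3]
  ring

lemma approx_split (hA : TaskApprox) (V : ℤ → ℝ) (a b m : ℤ) (c δ : ℝ) (χ : ℤ → ℝ)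
    (hδ : 0 ≤ δ) (ham : a ≤ m) (hmb : m ≤ b) (hm : χ m = 0)
    (hout : ∀ n, n < a ∨ b < n → χ n = 0) (hpos : 0 < nsq a b χ)
    (herr : ∑ n ∈ Finset.Icc a b, (χ (n + 1) + χ (n - 1) + V n * χ n - c * χ n) ^ 2 ≤
      δ ^ 2 * nsq a b χ) :
    (∃ lam φ, IsEig V a (m - 1) lam φ ∧ |lam - c| ≤ δ) ∨
      (∃ lam φ, IsEig V (m + 1) b lam φ ∧ |lam - c| ≤ δ) := by
  set f₁ : ℤ → ℝ := fun n => if n < m then χ n else 0 with hf₁
  set f₂ : ℤ → ℝ := fun n => if m < n then χ n else 0 with hf₂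
  have v₁ : ∀ n, n ≤ m → f₁ n = χ n := by
    intro n hn
    simp only [hf₁]
    rcases lt_or_eq_of_le hn with h | h
    · rw [if_pos h]
    · rw [h, if_neg (lt_irrefl _), hm]
  have v₂ : ∀ n, m ≤ n → f₂ n = χ n := by
    intro n hn
    simp only [hf₂]
    rcases lt_or_eq_of_le hn with h | h
    · rw [if_pos h]
    · rw [← h, if_neg (lt_irrefl _), hm]
  have o₁ : ∀ n, n < a ∨ m - 1 < n → f₁ n = 0 := by
    intro n hn
    simp only [hf₁]
    rcases hn with h | h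
    · split_ifs
      · exact hout n (Or.inl h)
      · rfl
    · rw [if_neg (by omega)]
  have o₂ : ∀ n, n < m + 1 ∨ b < n → f₂ n = 0 := by
    intro n hn
    simp only [hf₂]
    rcases hn with h | h
    · rw [if_neg (by omega)]
    · split_ifs
      · exact hout n (Or.inr h)
      · rfl
  have n₁ : nsq a (m - 1) f₁ = ∑ n ∈ Finset.Icc a (m - 1), χ n ^ 2 := by
    refine Finset.sum_congr rfl fun n hn => ?_
    rw [Finset.mem_Icc] at hn
    rw [v₁ n (by omega)]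
  have n₂ : nsq (m + 1) b f₂ = ∑ n ∈ Finset.Icc (m + 1) b, χ n ^ 2 := by
    refine Finset.sum_congr rfl fun n hn => ?_
    rw [Finset.mem_Icc] at hn
    rw [v₂ n (by omega)]
  have r₁ : ∑ n ∈ Finset.Icc a (m - 1), (f₁ (n + 1) + f₁ (n - 1) + V n * f₁ n - c * f₁ n) ^ 2 =
      ∑ n ∈ Finset.Icc a (m - 1), (χ (n + 1) + χ (n - 1) + V n * χ n - c * χ n) ^ 2 := by
    refine Finset.sum_congr rfl fun n hn => ?_
    rw [Finset.mem_Icc] at hn
    rw [v₁ n (by omega), v₁ (n + 1) (by omega), v₁ (n - 1) (by omega)]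
  have r₂ : ∑ n ∈ Finset.Icc (m + 1) b, (f₂ (n + 1) + f₂ (n - 1) + V n * f₂ n - c * f₂ n) ^ 2 =
      ∑ n ∈ Finset.Icc (m + 1) b, (χ (n + 1) + χ (n - 1) + V n * χ n - c * χ n) ^ 2 := by
    refine Finset.sum_congr rfl fun n hn => ?_
    rw [Finset.mem_Icc] at hn
    rw [v₂ n (by omega), v₂ (n + 1) (by omega), v₂ (n - 1) (by omega)]
  have s₁ := split_sum (fun n => χ n ^ 2) a m b ham hmb
  have s₂ := split_sum (fun n => (χ (n + 1) + χ (n - 1) + V n * χ n - c * χ n) ^ 2) a m b ham hmb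
  unfold nsq at hpos herr
  rw [s₁, hm] at hpos
  rw [s₁, s₂] at herr
  have t₁ := hA V a (m - 1) c δ f₁ hδ o₁
  have t₂ := hA V (m + 1) b c δ f₂ hδ o₂
  rw [n₁, r₁] at t₁
  rw [n₂, r₂] at t₂
  have p₁ : 0 ≤ ∑ n ∈ Finset.Icc a (m - 1), χ n ^ 2 := Finset.sum_nonneg fun n _ => sq_nonneg _
  have p₂ : 0 ≤ ∑ n ∈ Finset.Icc (m + 1) b, χ n ^ 2 := Finset.sum_nonneg fun n _ => sq_nonneg _
  have q₁ : 0 ≤ ∑ n ∈ Finset.Icc a (m - 1),
      (χ (n + 1) + χ (n - 1) + V n * χ n - c * χ n) ^ 2 := Finset.sum_nonneg fun n _ => sq_nonneg _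
  have q₂ : 0 ≤ ∑ n ∈ Finset.Icc (m + 1) b,
      (χ (n + 1) + χ (n - 1) + V n * χ n - c * χ n) ^ 2 := Finset.sum_nonneg fun n _ => sq_nonneg _
  have q₃ : 0 ≤ (χ (m + 1) + χ (m - 1) + V m * χ m - c * χ m) ^ 2 := sq_nonneg _
  rw [hm] at herr q₃
  generalize (∑ n ∈ Finset.Icc a (m - 1), χ n ^ 2) = N₁ at *
  generalize (∑ n ∈ Finset.Icc (m + 1) b, χ n ^ 2) = N₂ at *
  generalize (∑ n ∈ Finset.Icc a (m - 1),
      (χ (n + 1) + χ (n - 1) + V n * χ n - c * χ n) ^ 2) = R₁ at *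
  generalize (∑ n ∈ Finset.Icc (m + 1) b,
      (χ (n + 1) + χ (n - 1) + V n * χ n - c * χ n) ^ 2) = R₂ at *
  generalize (χ (m + 1) + χ (m - 1) + V m * 0 - c * 0) ^ 2 = R₃ at *
  by_contra hcon
  rw [not_or] at hcon
  have u₁ : ¬ (0 < N₁ ∧ R₁ ≤ δ ^ 2 * N₁) := fun hh => hcon.1 (t₁ hh.1 hh.2)
  have u₂ : ¬ (0 < N₂ ∧ R₂ ≤ δ ^ 2 * N₂) := fun hh => hcon.2 (t₂ hh.1 hh.2)
  rcases p₁.eq_or_lt with z₁ | z₁
  · rcases p₂.eq_or_lt with z₂ | z₂
    · rw [← z₁, ← z₂] at hpos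
      norm_num at hpos
    · have w₂ : δ ^ 2 * N₂ < R₂ := by
        by_contra hh; exact u₂ ⟨z₂, not_lt.1 hh⟩
      rw [← z₁] at herr
      nlinarith
  · have w₁ : δ ^ 2 * N₁ < R₁ := by
      by_contra hh; exact u₁ ⟨z₁, not_lt.1 hh⟩
    rcases p₂.eq_or_lt with z₂ | z₂
    · rw [← z₂] at herr
      nlinarith
    · have w₂ : δ ^ 2 * N₂ < R₂ := by
        by_contra hh; exact u₂ ⟨z₂, not_lt.1 hh⟩
      nlinarith

lemma key (hA : TaskApprox) (V : ℤ → ℝ) (a b : ℤ) (E E' : ℝ) (ψ ψ' : ℤ → ℝ)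
    (h : IsEig V a b E ψ) (h' : IsEig V a b E' ψ') (hlt : E < E') (m : ℤ) (ham : a ≤ m)
    (hmb : m ≤ b) :
    (∃ lam φ, IsEig V a (m - 1) lam φ ∧ E ≤ lam ∧ lam ≤ E') ∨
      (∃ lam φ, IsEig V (m + 1) b lam φ ∧ E ≤ lam ∧ lam ≤ E') := by
  have hab : a ≤ b := ham.trans hmb
  by_cases h0 : ψ m = 0 ∧ ψ' m = 0
  · -- `ψ` itself vanishes at `m`
    have hz : ∑ n ∈ Finset.Icc a b, (ψ (n + 1) + ψ (n - 1) + V n * ψ n - E * ψ n) ^ 2 = 0 := by
      refine Finset.sum_eq_zero fun n hn => ?_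
      rw [Finset.mem_Icc] at hn
      rw [h.2.2 n hn.1 hn.2]; ring
    have := approx_split hA V a b m E 0 ψ le_rfl ham hmb h0.1 h.1 (by rw [h.2.1]; norm_num)
      (by rw [hz]; norm_num)
    rcases this with ⟨lam, φ, h1, h2⟩ | ⟨lam, φ, h1, h2⟩
    · left
      rw [abs_le] at h2
      exact ⟨lam, φ, h1, by linarith, by linarith⟩
    · right
      rw [abs_le] at h2
      exact ⟨lam, φ, h1, by linarith, by linarith⟩
  · set χ : ℤ → ℝ := fun n => ψ' m * ψ n - ψ m * ψ' n with hχ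
    have hor := orth V a b E E' ψ ψ' hab h h' hlt.ne
    have hN : nsq a b χ = ψ' m ^ 2 + ψ m ^ 2 := by
      have e1 : nsq a b χ = ψ' m ^ 2 * nsq a b ψ + ψ m ^ 2 * nsq a b ψ' -
          2 * ψ m * ψ' m * ∑ n ∈ Finset.Icc a b, ψ n * ψ' n := by
        unfold nsq
        rw [Finset.mul_sum, Finset.mul_sum, Finset.mul_sum, ← Finset.sum_add_distrib,
          ← Finset.sum_sub_distrib]
        refine Finset.sum_congr rfl fun n _ => ?_
        simp only [hχ]; ring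
      rw [e1, hor, h.2.1, h'.2.1]; ring
    have hpos : 0 < nsq a b χ := by
      rw [hN]
      by_contra hcon
      apply h0
      have k1 := sq_nonneg (ψ m)
      have k2 := sq_nonneg (ψ' m)
      constructor
      · have : ψ m ^ 2 = 0 := by linarith
        exact pow_eq_zero_iff (two_ne_zero) |>.1 this
      · have : ψ' m ^ 2 = 0 := by linarith
        exact pow_eq_zero_iff (two_ne_zero) |>.1 this
    have herr : ∑ n ∈ Finset.Icc a b,
        (χ (n + 1) + χ (n - 1) + V n * χ n - ((E + E') / 2) * χ n) ^ 2 ≤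
        ((E' - E) / 2) ^ 2 * nsq a b χ := by
      have e1 : ∑ n ∈ Finset.Icc a b,
          (χ (n + 1) + χ (n - 1) + V n * χ n - ((E + E') / 2) * χ n) ^ 2 =
          ((E' - E) / 2) ^ 2 * (ψ' m ^ 2 * nsq a b ψ + ψ m ^ 2 * nsq a b ψ' +
          2 * ψ m * ψ' m * ∑ n ∈ Finset.Icc a b, ψ n * ψ' n) := by
        unfold nsq
        rw [Finset.mul_sum, Finset.mul_sum, Finset.mul_sum, ← Finset.sum_add_distrib,
          ← Finset.sum_add_distrib, Finset.mul_sum]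
        refine Finset.sum_congr rfl fun n hn => ?_
        rw [Finset.mem_Icc] at hn
        have k1 := h.2.2 n hn.1 hn.2
        have k2 := h'.2.2 n hn.1 hn.2
        have k3 : ψ (n + 1) = E * ψ n - V n * ψ n - ψ (n - 1) := by linarith
        have k4 : ψ' (n + 1) = E' * ψ' n - V n * ψ' n - ψ' (n - 1) := by linarith
        simp only [hχ]
        rw [k3, k4]; ring
      rw [e1, hor, h.2.1, h'.2.1, hN]
      apply le_of_eq; ring
    have := approx_split hA V a b m ((E + E') / 2) ((E' - E) / 2) χ (by linarith) ham hmb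
      (by simp only [hχ]; ring)
      (by
        intro n hn
        simp only [hχ]
        rw [h.1 n hn, h'.1 n hn]; ring)
      hpos herr
    rcases this with ⟨lam, φ, h1, h2⟩ | ⟨lam, φ, h1, h2⟩
    · left
      rw [abs_le] at h2
      exact ⟨lam, φ, h1, by linarith, by linarith⟩
    · right
      rw [abs_le] at h2
      exact ⟨lam, φ, h1, by linarith, by linarith⟩

lemma main_lt (hA : TaskApprox) (V : ℤ → ℝ) (a b : ℤ) (E E' : ℝ) (ψ ψ' : ℤ → ℝ) (hab : a ≤ b)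
    (h : IsEig V a b E ψ) (h' : IsEig V a b E' ψ') (hlt : E < E') :
    ∃ m, a < m ∧ m ≤ b ∧ ∃ lam φ lam' φ', IsEig V a (m - 1) lam φ ∧ IsEig V m b lam' φ' ∧
      |lam - lam'| ≤ E' - E := by
  have empty : ∀ (x y : ℤ) (lam : ℝ) (φ : ℤ → ℝ), y < x → ¬ IsEig V x y lam φ := by
    intro x y lam φ hxy hh
    have := hh.2.1
    unfold nsq at this
    rw [Finset.Icc_eq_empty (by omega), Finset.sum_empty] at this
    norm_num at this
  by_contra hcon
  have step : ∀ m, a ≤ m → m ≤ b →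
      ∃ lam φ, IsEig V (m + 1) b lam φ ∧ E ≤ lam ∧ lam ≤ E' := by
    intro m ham
    induction m, ham using Int.le_induction with
    | base =>
      intro _
      rcases key hA V a b E E' ψ ψ' h h' hlt a le_rfl hab with ⟨lam, φ, h1, _⟩ | h1
      · exact absurd h1 (empty _ _ _ _ (by omega))
      · exact h1
    | succ m hm ih =>
      intro hmb
      obtain ⟨lam', φ', h1, h2, h3⟩ := ih (by omega)
      rcases key hA V a b E E' ψ ψ' h h' hlt (m + 1) (by omega) hmb with ⟨lam, φ, k1, k2, k3⟩ | k1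
      · exfalso
        apply hcon
        refine ⟨m + 1, by omega, hmb, lam, φ, lam', φ', k1, h1, ?_⟩
        rw [abs_le]; constructor <;> linarith
      · exact k1
  obtain ⟨lam, φ, h1, _⟩ := step b hab le_rfl
  exact empty _ _ _ _ (by omega) h1

theorem main (hA : TaskApprox) : Pool.Agent.H695R3.PP.TaskSplit := by
  intro V a b E E' d ψ ψ' hab h h' hne hd
  rcases lt_or_gt_of_ne hne with hlt | hlt
  · obtain ⟨m, h1, h2, lam, φ, lam', φ', h3, h4, h5⟩ := main_lt hA V a b E E' ψ ψ' hab h h' hlt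
    refine ⟨m, h1, h2, lam, φ, lam', φ', h3, h4, ?_⟩
    rw [abs_sub_comm, abs_of_pos (by linarith)] at hd
    have := abs_nonneg (lam - lam')
    linarith
  · obtain ⟨m, h1, h2, lam, φ, lam', φ', h3, h4, h5⟩ := main_lt hA V a b E' E ψ' ψ hab h' h hlt
    refine ⟨m, h1, h2, lam, φ, lam', φ', h3, h4, ?_⟩
    rw [abs_of_pos (by linarith)] at hd
    have := abs_nonneg (lam - lam')
    linarith

end Pool.Agent.PP27.TaskSplit
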