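import Pool.Agent.PP27.Q258Box

set_option autoImplicit false

open Pool.Agent.H695R3.PP

namespace Pool.Agent.PP27.TaskStep

theorem main : Pool.Agent.H695R3.PP.TaskStep := by
  classical
  intro V L L' E τ d ψ hL hτ hd hbad hψ hr hl
  obtain ⟨e, φ, he, hexp, hnorm⟩ := Q258Box.basis V (-(L' : ℤ)) L'
  obtain ⟨hs, hn1, heq⟩ := hψ
  have hd0 : 0 < d := by linarith
  have hs' : ∀ n, n < -(L' : ℤ) ∨ (L' : ℤ) < n → ψ n = 0 := fun n hn => hs n (by omega)
  obtain ⟨c, hc⟩ := hexp ψ hs'
  -- the norm of the coefficients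
  have hc1 : ∑ j, c j ^ 2 = 1 := by
    rw [← hnorm c, ← hn1]
    have h1 : (fun n => ∑ j, c j * φ j n) = ψ := by
      funext n
      rw [hc n]
    rw [h1]
    unfold nsq
    symm
    apply Finset.sum_subset
    · intro n hn
      rw [Finset.mem_Icc] at hn ⊢
      omega
    · intro n _ hn
      rw [Finset.mem_Icc] at hn
      rw [hs n (by omega)]
      norm_num
  -- the residual
  have hres : ∑ j, (c j * (e j - E)) ^ 2 ≤ 2 * τ ^ 2 := by
    rw [← hnorm fun j => c j * (e j - E)]
    have h1 : ∀ n ∈ Finset.Icc (-(L' : ℤ)) L', (∑ j, c j * (e j - E) * φ j n) ^ 2 ≤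
        (if n = (L : ℤ) + 1 then τ ^ 2 else 0) + (if n = -(L : ℤ) - 1 then τ ^ 2 else 0) := by
      intro n hn
      rw [Finset.mem_Icc] at hn
      have h2 : ∑ j, c j * (e j - E) * φ j n = ψ (n + 1) + ψ (n - 1) + V n * ψ n - E * ψ n := by
        rw [hc (n + 1), hc (n - 1), hc n, Finset.mul_sum, Finset.mul_sum,
          ← Finset.sum_add_distrib, ← Finset.sum_add_distrib, ← Finset.sum_sub_distrib]
        apply Finset.sum_congr rfl
        intro j _
        have := (he j).2.2 n hn.1 hn.2
        linear_combination (-c j) * this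
      rw [h2]
      by_cases hin : -(L : ℤ) ≤ n ∧ n ≤ L
      · rw [heq n hin.1 hin.2, sub_self, if_neg (by omega), if_neg (by omega)]
        norm_num
      · have h0 : ψ n = 0 := hs n (by omega)
        rw [h0]
        by_cases hp : n = (L : ℤ) + 1
        · subst hp
          rw [hs ((L : ℤ) + 1 + 1) (by omega), if_pos rfl, if_neg (by omega),
            show (L : ℤ) + 1 - 1 = L by ring]
          have := sq_le_sq' (neg_le_of_abs_le hr) (le_of_abs_le hr)
          nlinarith
        · by_cases hm : n = -(L : ℤ) - 1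
          · subst hm
            rw [hs (-(L : ℤ) - 1 - 1) (by omega), if_neg hp, if_pos rfl,
              show -(L : ℤ) - 1 + 1 = -L by ring]
            have := sq_le_sq' (neg_le_of_abs_le hl) (le_of_abs_le hl)
            nlinarith
          · rw [hs (n + 1) (by omega), hs (n - 1) (by omega), if_neg hp, if_neg hm]
            norm_num
    unfold nsq
    refine (Finset.sum_le_sum h1).trans ?_
    rw [Finset.sum_add_distrib, Finset.sum_ite_eq', Finset.sum_ite_eq', if_pos, if_pos]
    · linarith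
    · rw [Finset.mem_Icc]
      omega
    · rw [Finset.mem_Icc]
      omega
  -- an eigenvalue near `E`
  obtain ⟨j₀, hj₀⟩ : ∃ j, |e j - E| ≤ 2 * τ := by
    by_contra hcon
    push Not at hcon
    have h1 : ∑ j, c j ^ 2 * (4 * τ ^ 2) ≤ ∑ j, (c j * (e j - E)) ^ 2 := by
      apply Finset.sum_le_sum
      intro j _
      have h2 : (2 * τ) ^ 2 ≤ (e j - E) ^ 2 := by
        rw [← sq_abs (e j - E)]
        exact pow_le_pow_left₀ (by positivity) (hcon j).le 2
      rw [mul_pow]
      have := mul_le_mul_of_nonneg_left h2 (sq_nonneg (c j))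
      nlinarith
    rw [← Finset.sum_mul, hc1] at h1
    nlinarith
  -- the other eigenvalues are far
  have hfar : ∀ j, e j ≠ e j₀ → (d / 2) ^ 2 ≤ (e j - E) ^ 2 := by
    intro j hj
    have h1 : d < |e j - e j₀| := by
      by_contra hcon
      push Not at hcon
      exact hbad ⟨e j, φ j, e j₀, φ j₀, he j, he j₀, hj, hcon⟩
    have h2 : |e j - e j₀| ≤ |e j - E| + |e j₀ - E| := by
      have := abs_sub (e j - E) (e j₀ - E)
      rwa [sub_sub_sub_cancel_right] at this
    rw [← sq_abs (e j - E)]
    apply pow_le_pow_left₀ (by positivity)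
    linarith
  set J : Finset (Finset.Icc (-(L' : ℤ)) (L' : ℤ)) := Finset.univ.filter fun j => e j = e j₀ with hJ
  set p : ℝ := ∑ j ∈ J, c j ^ 2 with hp
  set s : ℝ := ∑ j ∈ Jᶜ, c j ^ 2 with hs_def
  have hps : p + s = 1 := by
    rw [hp, hs_def, Finset.sum_add_sum_compl, hc1]
  have hs0 : 0 ≤ s := Finset.sum_nonneg fun j _ => sq_nonneg _
  have hs1 : s * d ^ 2 ≤ 8 * τ ^ 2 := by
    have h1 : ∑ j ∈ Jᶜ, c j ^ 2 * (d / 2) ^ 2 ≤ ∑ j ∈ Jᶜ, (c j * (e j - E)) ^ 2 := by
      apply Finset.sum_le_sum
      intro j hj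
      rw [mul_pow]
      apply mul_le_mul_of_nonneg_left (hfar j ?_) (sq_nonneg _)
      rw [hJ, Finset.mem_compl, Finset.mem_filter] at hj
      intro h
      exact hj ⟨Finset.mem_univ _, h⟩
    have h2 : ∑ j ∈ Jᶜ, (c j * (e j - E)) ^ 2 ≤ ∑ j, (c j * (e j - E)) ^ 2 :=
      Finset.sum_le_sum_of_subset_of_nonneg (Finset.subset_univ _) fun _ _ _ => sq_nonneg _
    rw [← Finset.sum_mul, ← hs_def] at h1
    nlinarith
  have hs2 : 2 * s ≤ (4 * τ / d) ^ 2 := by
    rw [div_pow, le_div_iff₀ (by positivity)]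
    nlinarith
  have hs3 : s ≤ 1 / 2 := by
    have h1 : 16 * τ ^ 2 ≤ d ^ 2 := by nlinarith
    by_contra hcon
    push Not at hcon
    have : d ^ 2 * (1 / 2) < s * d ^ 2 := by
      have hd2 : 0 < d ^ 2 := by positivity
      nlinarith
    nlinarith
  have hp0 : 0 < p := by linarith
  set q : ℝ := Real.sqrt p with hq
  have hq0 : 0 < q := Real.sqrt_pos.2 hp0
  have hqq : q ^ 2 = p := Real.sq_sqrt hp0.le
  set c' : Finset.Icc (-(L' : ℤ)) (L' : ℤ) → ℝ := fun j => if j ∈ J then c j / q else 0 with hc'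
  refine ⟨e j₀, fun n => ∑ j, c' j * φ j n, ⟨?_, ?_, ?_⟩, hj₀, ?_⟩
  · intro n hn
    apply Finset.sum_eq_zero
    intro j _
    rw [(he j).1 n hn, mul_zero]
  · rw [hnorm c']
    have h1 : ∑ j, c' j ^ 2 = ∑ j ∈ J, (c j / q) ^ 2 := by
      rw [← Finset.sum_filter_add_sum_filter_not Finset.univ (fun j => j ∈ J)]
      have h2 : ∑ j ∈ Finset.univ.filter (fun j => ¬ j ∈ J), c' j ^ 2 = 0 := by
        apply Finset.sum_eq_zero
        intro j hj
        rw [Finset.mem_filter] at hj
        rw [hc']
        simp only [if_neg hj.2]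
        norm_num
      rw [h2, add_zero, Finset.filter_mem_eq_inter, Finset.univ_inter]
      apply Finset.sum_congr rfl
      intro j hj
      rw [hc']
      simp only [if_pos hj]
    rw [h1]
    simp only [div_pow]
    rw [← Finset.sum_div, hqq, ← hp, div_self hp0.ne']
  · intro n ha hb
    rw [← Finset.sum_add_distrib, Finset.mul_sum, ← Finset.sum_add_distrib, Finset.mul_sum]
    apply Finset.sum_congr rfl
    intro j _
    by_cases hj : j ∈ J
    · have h1 := (he j).2.2 n ha hb
      have h2 : e j = e j₀ := by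
        rw [hJ, Finset.mem_filter] at hj
        exact hj.2
      rw [h2] at h1
      linear_combination (c' j) * h1
    · have h1 : c' j = 0 := by
        rw [hc']
        simp only [if_neg hj]
      rw [h1]
      ring
  · have h1 : ∀ n, ψ n - ∑ j, c' j * φ j n = ∑ j, (c j - c' j) * φ j n := by
      intro n
      rw [hc n, ← Finset.sum_sub_distrib]
      apply Finset.sum_congr rfl
      intro j _
      ring
    simp only [h1]
    have h2 := hnorm fun j => c j - c' j
    unfold nsq at h2
    rw [h2]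
    have h3 : ∑ j, (c j - c' j) ^ 2 = p * (1 - 1 / q) ^ 2 + s := by
      rw [← Finset.sum_add_sum_compl J]
      congr 1
      · rw [hp, Finset.sum_mul]
        apply Finset.sum_congr rfl
        intro j hj
        rw [hc']
        simp only [if_pos hj]
        ring
      · rw [hs_def]
        apply Finset.sum_congr rfl
        intro j hj
        rw [Finset.mem_compl] at hj
        rw [hc']
        simp only [if_neg hj]
        ring
    rw [h3]
    have h4 : p * (1 - 1 / q) ^ 2 = (q - 1) ^ 2 := by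
      rw [← hqq]
      field_simp
    rw [h4]
    have hq1 : q ≤ 1 := by
      rw [hq]
      exact Real.sqrt_le_one.2 (by linarith)
    have h5 : (q - 1) ^ 2 ≤ s := by nlinarith
    linarith

end Pool.Agent.PP27.TaskStep
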