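import Pool.Agent.H695R3.PP.Stmts

/-!
# TaskTop: all `δ_m` give everything
-/

set_option autoImplicit false

open Pool.Agent.H695R3.PP

namespace Pool.Agent.PP27.TaskTop

noncomputable section

theorem toReal_two_pos : 0 < (2 : ENNReal).toReal := by norm_num

theorem memShift (m : ℤ) (ψ : lp (fun _ : ℤ => ℂ) 2) :
    Memℓp (fun n : ℤ => (ψ (n - m) : ℂ)) 2 := by
  apply memℓp_gen
  have h := (lp.memℓp ψ).summable toReal_two_pos
  exact (Equiv.subRight m).summable_iff.mpr h

/-- The shift. -/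
def shiftL (m : ℤ) : lp (fun _ : ℤ => ℂ) 2 →ₗ[ℂ] lp (fun _ : ℤ => ℂ) 2 where
  toFun ψ := ⟨fun n : ℤ => (ψ (n - m) : ℂ), memShift m ψ⟩
  map_add' x y := by
    apply lp.ext
    funext n
    simp only [lp.coeFn_add, Pi.add_apply]
  map_smul' c x := by
    apply lp.ext
    funext n
    simp only [lp.coeFn_smul, Pi.smul_apply, RingHom.id_apply]

theorem shiftL_apply (m : ℤ) (ψ : lp (fun _ : ℤ => ℂ) 2) (n : ℤ) :
    (shiftL m ψ) n = ψ (n - m) := rfl

theorem shiftL_norm (m : ℤ) (ψ : lp (fun _ : ℤ => ℂ) 2) : ‖shiftL m ψ‖ = ‖ψ‖ := by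
  rw [lp.norm_eq_tsum_rpow toReal_two_pos, lp.norm_eq_tsum_rpow toReal_two_pos]
  congr 1
  exact (Equiv.subRight m).tsum_eq (fun n => ‖ψ n‖ ^ (2 : ENNReal).toReal)

/-- The shift as an isometry. -/
def shiftI (m : ℤ) : lp (fun _ : ℤ => ℂ) 2 →ₗᵢ[ℂ] lp (fun _ : ℤ => ℂ) 2 :=
  ⟨shiftL m, shiftL_norm m⟩

theorem shift_mem (V : ℤ → ℝ) (m : ℤ) (ψ : lp (fun _ : ℤ => ℂ) 2)
    (h : ψ ∈ EigSpan fun n => V (m + n)) : shiftL m ψ ∈ EigSpan V := by
  have : (EigSpan fun n => V (m + n)) ≤ (EigSpan V).comap (shiftL m) := by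
    unfold EigSpan
    rw [Submodule.span_le]
    rintro φ ⟨E, hE⟩
    apply Submodule.subset_span
    refine ⟨E, fun n => ?_⟩
    have := hE (n - m)
    rw [shiftL_apply, shiftL_apply, shiftL_apply]
    beta_reduce at this
    rw [show m + (n - m) = n by ring] at this
    rw [show n + 1 - m = n - m + 1 by ring, show n - 1 - m = n - m - 1 by ring]
    exact this
  exact this h

theorem shift_single (m : ℤ) : shiftL m (lp.single 2 (0 : ℤ) (1 : ℂ)) = lp.single 2 m (1 : ℂ) := by
  apply lp.ext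
  funext n
  rw [shiftL_apply]
  by_cases h : n = m
  · subst h
    rw [sub_self, lp.single_apply_self, lp.single_apply_self]
  · rw [lp.single_apply_ne _ _ _ (show n - m ≠ 0 from sub_ne_zero.mpr h),
      lp.single_apply_ne _ _ _ h]

theorem main : TaskTop := by
  intro V hV
  rw [Submodule.eq_top_iff']
  intro f
  have hs : ∀ m : ℤ, ∀ c : ℂ, lp.single 2 m c ∈ (EigSpan V).topologicalClosure := by
    intro m c
    have h1 : lp.single 2 m (1 : ℂ) ∈ (EigSpan V).topologicalClosure := by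
      rw [← shift_single]
      exact map_mem_closure (shiftI m).continuous (hV m) (fun ψ hψ => shift_mem V m ψ hψ)
    have h2 : lp.single (E := fun _ : ℤ => ℂ) 2 m c = c • lp.single 2 m (1 : ℂ) := by
      rw [← lp.single_smul, smul_eq_mul, mul_one]
    rw [h2]
    exact Submodule.smul_mem _ _ h1
  have h := lp.hasSum_single (p := 2) (by norm_num) f
  refine (Submodule.isClosed_topologicalClosure _).mem_of_tendsto h
    (Filter.Eventually.of_forall fun s => ?_)
  exact Submodule.sum_mem _ fun i _ => hs i _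

end

end Pool.Agent.PP27.TaskTop
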