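import Pool.Agent.H695R3.PP.Stmts

/-!
# Project H695-LP, TaskTransfer: the law of a window
-/

set_option autoImplicit false

open MeasureTheory

namespace Pool.Agent.PP27.TaskTransfer

open Pool.Agent.H695R3.PP

theorem map_pi_inj {S Q : Type} [Fintype S] [Fintype Q] (f : S → Q)
    (hf : Function.Injective f) (μ : Measure ℝ) [IsProbabilityMeasure μ] :
    Measure.map (fun (η : Q → ℝ) (s : S) => η (f s)) (Measure.pi fun _ : Q => μ) =
      Measure.pi fun _ : S => μ := by
  classical
  refine (Measure.pi_eq fun s hs => ?_).symm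
  have hm : Measurable (fun (η : Q → ℝ) (s : S) => η (f s)) :=
    measurable_pi_lambda _ fun i => measurable_pi_apply _
  rw [Measure.map_apply hm (MeasurableSet.univ_pi hs)]
  set t : Q → Set ℝ := fun p => if h : ∃ i, f i = p then s h.choose else Set.univ with ht
  have htf : ∀ i, t (f i) = s i := by
    intro i
    have h : ∃ j, f j = f i := ⟨i, rfl⟩
    rw [ht]
    simp only [h, dif_pos]
    rw [hf h.choose_spec]
  have hpre : (fun (η : Q → ℝ) (s : S) => η (f s)) ⁻¹' (Set.univ.pi s) = Set.univ.pi t := by
    ext η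
    simp only [Set.mem_preimage, Set.mem_pi, Set.mem_univ, true_implies]
    constructor
    · intro h p
      by_cases hp : ∃ i, f i = p
      · obtain ⟨i, rfl⟩ := hp
        rw [htf]
        exact h i
      · rw [ht]
        simp only [hp, dif_neg, not_false_iff]
        exact Set.mem_univ _
    · intro h i
      rw [← htf i]
      exact h (f i)
  rw [hpre, Measure.pi_pi]
  have h1 : ∏ p : Q, μ (t p) = ∏ p ∈ Finset.univ.image f, μ (t p) := by
    symm
    refine Finset.prod_subset (Finset.subset_univ _) fun p _ hp => ?_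
    have hp' : ¬ ∃ i, f i = p := by
      rintro ⟨i, rfl⟩
      exact hp (Finset.mem_image_of_mem f (Finset.mem_univ i))
    have : t p = Set.univ := by
      rw [ht]
      simp only [hp', dif_neg, not_false_iff]
    rw [this, measure_univ]
  rw [h1, Finset.prod_image fun a _ b _ h => hf h]
  exact Finset.prod_congr rfl fun i _ => by rw [htf]

theorem main : TaskTransfer := by
  intro Q _ q L W ε B hq hB hloc
  classical
  set I : Finset ℤ := Finset.Icc (-(L : ℤ)) L with hI
  set ext : ((i : I) → ℝ) → ℤ → ℝ := fun y n => W n + ε * (if h : n ∈ I then y ⟨n, h⟩ else 0)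
    with hext
  have hextm : Measurable ext := by
    refine measurable_pi_lambda _ fun n => ?_
    rw [hext]
    by_cases h : n ∈ I
    · simp only [h, dif_pos]
      have h1 : Measurable (fun y : ((i : I) → ℝ) => y ⟨n, h⟩) := measurable_pi_apply _
      exact (h1.const_mul ε).const_add (W n)
    · simp only [h, dif_neg, not_false_iff]
      exact measurable_const
  have hB' : MeasurableSet (ext ⁻¹' B) := hextm hB
  have e1 : {x : ℤ → ℝ | (fun n => W n + ε * x n) ∈ B} =
      (Finset.restrict I) ⁻¹' (ext ⁻¹' B) := by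
    ext x
    simp only [Set.mem_setOf_eq, Set.mem_preimage]
    refine hloc _ _ fun n h1 h2 => ?_
    have h : n ∈ I := Finset.mem_Icc.2 ⟨h1, h2⟩
    simp only [hext, h, dif_pos, Finset.restrict]
  have e2 : {η : Q → ℝ | (fun n => W n + ε * η (q n)) ∈ B} =
      (fun (η : Q → ℝ) (s : I) => η (q s)) ⁻¹' (ext ⁻¹' B) := by
    ext η
    simp only [Set.mem_setOf_eq, Set.mem_preimage]
    refine hloc _ _ fun n h1 h2 => ?_
    have h : n ∈ I := Finset.mem_Icc.2 ⟨h1, h2⟩
    simp only [hext, h, dif_pos]
  have hinj : Function.Injective (fun s : I => q s) := by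
    intro a b h
    have ha := Finset.mem_Icc.1 a.2
    have hb := Finset.mem_Icc.1 b.2
    exact Subtype.ext (hq ⟨ha.1, ha.2⟩ ⟨hb.1, hb.2⟩ h)
  have hm : Measurable (fun (η : Q → ℝ) (s : I) => η (q s)) :=
    measurable_pi_lambda _ fun i => measurable_pi_apply _
  rw [e1, e2, ← Measure.map_apply hm hB', map_pi_inj _ hinj U]
  have hr : Measurable (Finset.restrict (π := fun _ : ℤ => ℝ) I) :=
    Finset.measurable_restrict I
  rw [← Measure.map_apply hr hB']
  unfold PZ
  rw [Measure.infinitePi_map_restrict]

end Pool.Agent.PP27.TaskTransfer
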